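import Mathlib

/-!
# Power sums over norm classes of a finite field of even characteristic

`K` is a field with `q^3` elements, `q = 2 r`, `r = 2^a`, `M = q^2 + q + 1`.  For `δ ≠ 0` with
`δ^q = δ` we sum over the `M` elements `θ` with `θ^M = δ`.
-/

namespace Pool.Agent.R159.NormSums

open Finset

lemma sum_pairs {A : Type} [AddCommMonoid A] (f : ℕ → A) (n : ℕ) :
    ∑ e ∈ range (2 * n), f e = ∑ d ∈ range n, (f (2 * d) + f (2 * d + 1)) := by
  induction n with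
  | zero => simp
  | succ n ih =>
    rw [sum_range_succ, ← ih, show 2 * (n + 1) = 2 * n + 1 + 1 by ring, sum_range_succ,
      sum_range_succ, add_assoc]

lemma dvd_small {M : ℕ} (A B : ℤ) (k : ℤ) (h : (M : ℤ) ∣ A) (hAB : A = k * M + B)
    (h1 : |B| < M) : B = 0 := by
  apply Int.eq_zero_of_abs_lt_dvd _ h1
  have : B = A - k * M := by rw [hAB]; ring
  rw [this]
  exact dvd_sub h (Dvd.intro_left k rfl)

variable {K : Type} [Field K] [Fintype K] [DecidableEq K]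

/-- the norm class -/
def D (M : ℕ) (δ : K) : Finset K := univ.filter (fun θ => θ ^ M = δ)

lemma mem_D {M : ℕ} {δ θ : K} : θ ∈ D M δ ↔ θ ^ M = δ := by
  simp [D]

/-- Standing data. -/
structure Ctx (K : Type) [Field K] [Fintype K] (a r q M : ℕ) : Prop where
  ha : 1 ≤ a
  hr : r = 2 ^ a
  hq : q = 2 * r
  hM : M = q ^ 2 + q + 1
  hK : Fintype.card K = q ^ 3
  hch : CharP K 2

namespace Ctx

variable {a r q M : ℕ} (c : Ctx K a r q M)
include c

omit [DecidableEq K] in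
lemma two_eq : (2 : K) = 0 := by
  have := c.hch
  exact_mod_cast CharP.cast_eq_zero K 2

omit [DecidableEq K] in
lemma add_self (x : K) : x + x = 0 := by
  have := c.two_eq
  linear_combination x * this

omit [DecidableEq K] in
lemma neg_eq (x : K) : -x = x := by
  have := c.add_self x
  exact neg_eq_of_add_eq_zero_left this

omit [DecidableEq K] in
lemma eq_of_add (x y : K) (h : x + y = 0) : x = y := by
  have := eq_neg_of_add_eq_zero_left h
  rwa [c.neg_eq] at this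

omit [DecidableEq K] in
lemma r_ge : 2 ≤ r := by
  rw [c.hr]
  calc 2 = 2 ^ 1 := by norm_num
    _ ≤ 2 ^ a := Nat.pow_le_pow_right (by norm_num) c.ha

omit [DecidableEq K] in
lemma r_even : ∃ s, r = 2 * s := by
  obtain ⟨b, hb⟩ : ∃ b, a = b + 1 := ⟨a - 1, by have := c.ha; omega⟩
  refine ⟨2 ^ b, ?_⟩
  rw [c.hr, hb, pow_succ]
  ring

omit [DecidableEq K] in
lemma q_pow : q = 2 ^ (a + 1) := by
  rw [c.hq, c.hr, pow_succ]
  ring

omit [DecidableEq K] in
lemma frob (x : K) : x ^ q ^ 3 = x := by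
  have := FiniteField.pow_card x
  rwa [c.hK] at this

omit [DecidableEq K] in
lemma add_pow_two_pow (x y : K) (n : ℕ) : (x + y) ^ 2 ^ n = x ^ 2 ^ n + y ^ 2 ^ n := by
  have := c.hch
  exact add_pow_char_pow x y 2 n

omit [DecidableEq K] in
lemma add_pow_q (x y : K) : (x + y) ^ q = x ^ q + y ^ q := by
  rw [c.q_pow]
  exact c.add_pow_two_pow x y _

/-- geometric sums in characteristic two -/
lemma geom (x y : K) (n : ℕ) :
    (x + y) ^ (2 ^ n - 1) = ∑ i ∈ range (2 ^ n), x ^ i * y ^ (2 ^ n - 1 - i) := by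
  by_cases h : x + y = 0
  · have hxy := c.eq_of_add x y h
    subst hxy
    rw [h]
    rcases Nat.eq_zero_or_pos n with hn | hn
    · subst hn
      simp
    · have h1 : ∀ i ∈ range (2 ^ n), x ^ i * x ^ (2 ^ n - 1 - i) = x ^ (2 ^ n - 1) := by
        intro i hi
        rw [mem_range] at hi
        rw [← pow_add]
        congr 1
        omega
      rw [sum_congr rfl h1, sum_const, card_range, nsmul_eq_mul]
      have h2 : ((2 ^ n : ℕ) : K) = 0 := by
        push_cast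
        rw [c.two_eq]
        exact zero_pow (by omega)
      rw [h2, zero_mul]
      apply zero_pow
      have : 2 ≤ 2 ^ n := by
        calc 2 = 2 ^ 1 := by norm_num
          _ ≤ 2 ^ n := Nat.pow_le_pow_right (by norm_num) hn
      omega
  · have h1 := (Commute.all x y).geom_sum₂_mul (2 ^ n)
    have h2 : x - y = x + y := by rw [sub_eq_add_neg, c.neg_eq]
    have h3 : x ^ 2 ^ n - y ^ 2 ^ n = (x + y) ^ 2 ^ n := by
      rw [c.add_pow_two_pow, sub_eq_add_neg, c.neg_eq]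
    rw [h2, h3] at h1
    have h4 : (x + y) ^ 2 ^ n = (x + y) ^ (2 ^ n - 1) * (x + y) := by
      rw [← pow_succ]
      congr 1
      have : 0 < 2 ^ n := by positivity
      omega
    rw [h4] at h1
    exact (mul_right_cancel₀ h h1).symm

omit [DecidableEq K] in
lemma q_ge : 4 ≤ q := by
  have := c.r_ge
  have := c.hq
  omega

omit [DecidableEq K] in
lemma card_units : (q - 1) * M = q ^ 3 - 1 := by
  have h := c.q_ge
  obtain ⟨t, ht⟩ : ∃ t, q = t + 1 := ⟨q - 1, by omega⟩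
  rw [c.hM, ht]
  simp only [Nat.add_sub_cancel]
  have : (t + 1) ^ 3 = t * ((t + 1) ^ 2 + (t + 1) + 1) + 1 := by ring
  rw [this, Nat.add_sub_cancel]

omit [DecidableEq K] in
lemma M_odd : ∃ s, M = 2 * s + 1 := by
  refine ⟨(q * r + r), ?_⟩
  rw [c.hM, c.hq]
  ring

/-- a generator of the multiplicative group -/
lemma exists_gen : ∃ g : K, g ≠ 0 ∧ (∀ x : K, x ≠ 0 → ∃ n : ℕ, x = g ^ n) ∧
    ∀ n : ℕ, g ^ n = 1 ↔ (q - 1) * M ∣ n := by
  obtain ⟨g, hg⟩ := IsCyclic.exists_generator (α := Kˣ)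
  have hord : orderOf g = (q - 1) * M := by
    rw [c.card_units, orderOf_eq_card_of_forall_mem_zpowers hg, Nat.card_eq_fintype_card,
      Fintype.card_units, c.hK]
  refine ⟨(g : K), g.ne_zero, ?_, ?_⟩
  · intro x hx
    have h1 : Units.mk0 x hx ∈ Submonoid.powers g := by
      have := hg (Units.mk0 x hx)
      exact (mem_powers_iff_mem_zpowers).mpr this
    obtain ⟨n, hn⟩ := h1
    refine ⟨n, ?_⟩
    have h2 := congrArg Units.val hn
    simpa using h2.symm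
  · intro n
    rw [← hord, orderOf_dvd_iff_pow_eq_one]
    constructor
    · intro h
      apply Units.ext
      simpa using h
    · intro h
      have := congrArg Units.val h
      simpa using this

omit [DecidableEq K] in
lemma M_pos : 0 < M := by rw [c.hM]; positivity

/-- an element of order exactly `M` -/
lemma exists_zeta : ∃ z : K, z ≠ 0 ∧ z ^ M = 1 ∧ ∀ n : ℕ, z ^ n = 1 → M ∣ n := by
  obtain ⟨g, hg0, -, hg⟩ := c.exists_gen
  refine ⟨g ^ (q - 1), pow_ne_zero _ hg0, ?_, ?_⟩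
  · rw [← pow_mul, hg]
  · intro n hn
    rw [← pow_mul, hg] at hn
    have h := c.q_ge
    exact Nat.dvd_of_mul_dvd_mul_left (by omega) hn

lemma D_nonempty (δ : K) (h0 : δ ≠ 0) (hδ : δ ^ q = δ) : ∃ θ, θ ∈ D M δ := by
  obtain ⟨g, hg0, hgen, hg⟩ := c.exists_gen
  obtain ⟨n, rfl⟩ := hgen δ h0
  have hq := c.q_ge
  have h1 : g ^ (n * (q - 1)) = 1 := by
    have h2 : g ^ (n * (q - 1)) * g ^ n = 1 * g ^ n := by
      rw [← pow_add, one_mul]
      have : n * (q - 1) + n = n * q := by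
        obtain ⟨t, ht⟩ : ∃ t, q = t + 1 := ⟨q - 1, by omega⟩
        rw [ht, Nat.add_sub_cancel]
        ring
      rw [this, pow_mul, hδ]
    exact mul_right_cancel₀ (pow_ne_zero _ hg0) h2
  rw [hg, mul_comm n] at h1
  have h3 : M ∣ n := Nat.dvd_of_mul_dvd_mul_left (by omega) h1
  obtain ⟨k, rfl⟩ := h3
  exact ⟨g ^ k, by rw [mem_D, ← pow_mul, mul_comm k]⟩

omit [Fintype K] [DecidableEq K] c in
lemma D_ne_zero (hM : 0 < M) {δ θ : K} (h0 : δ ≠ 0) (h : θ ^ M = δ) : θ ≠ 0 := by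
  rintro rfl
  rw [zero_pow hM.ne'] at h
  exact h0 h.symm

/-- the class is a coset of the group of `M`-th roots of unity -/
lemma D_card_odd (δ : K) (h0 : δ ≠ 0) (hδ : δ ^ q = δ) : (((D M δ).card : ℕ) : K) = 1 := by
  obtain ⟨θ₀, hθ₀⟩ := c.D_nonempty δ h0 hδ
  rw [mem_D] at hθ₀
  have hθ0 : θ₀ ≠ 0 := D_ne_zero c.M_pos h0 hθ₀
  have h1 : (D M δ).card = (D M (1 : K)).card := by
    apply card_bij' (fun θ _ => θ / θ₀) (fun z _ => z * θ₀)
    · intro θ hθ
      rw [mem_D] at hθ ⊢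
      rw [div_pow, hθ, hθ₀, div_self h0]
    · intro z hz
      rw [mem_D] at hz ⊢
      rw [mul_pow, hz, hθ₀, one_mul]
    · intro θ _
      field_simp
    · intro z _
      field_simp
  rw [h1]
  -- the subgroup of `M`-th roots of unity has odd order
  let G : Subgroup Kˣ := (powMonoidHom M : Kˣ →* Kˣ).ker
  have h2 : (D M (1 : K)).card = Nat.card G := by
    rw [Nat.card_eq_fintype_card, ← Fintype.card_coe]
    apply Fintype.card_congr
    refine ⟨fun z => ⟨Units.mk0 z.1 ?_, ?_⟩, fun u => ⟨(u.1 : K), ?_⟩, ?_, ?_⟩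
    · exact D_ne_zero c.M_pos one_ne_zero (mem_D.mp z.2)
    · rw [MonoidHom.mem_ker]
      apply Units.ext
      simpa using mem_D.mp z.2
    · rw [mem_D]
      have := u.2
      rw [MonoidHom.mem_ker] at this
      have := congrArg Units.val this
      simpa using this
    · intro z
      rfl
    · intro u
      apply Subtype.ext
      apply Units.ext
      rfl
  have h3 : Nat.card G ∣ Nat.card Kˣ := Subgroup.card_subgroup_dvd_card G
  rw [← h2, Nat.card_eq_fintype_card, Fintype.card_units, c.hK] at h3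
  have h4 : Odd (D M (1 : K)).card := by
    apply Odd.of_dvd_nat _ h3
    rw [c.hq]
    have hr := c.r_ge
    refine ⟨4 * r ^ 3 - 1, ?_⟩
    have : (2 * r) ^ 3 = 8 * r ^ 3 := by ring
    rw [this]
    have : 1 ≤ r ^ 3 := Nat.one_le_pow _ _ (by omega)
    omega
  obtain ⟨s, hs⟩ := h4
  rw [hs]
  push_cast
  rw [c.two_eq]
  ring

lemma sum_pow_mul (δ : K) (h0 : δ ≠ 0) (hδ : δ ^ q = δ) (n : ℕ) :
    ∑ θ ∈ D M δ, θ ^ (M * n) = δ ^ n := by
  have h1 : ∀ θ ∈ D M δ, θ ^ (M * n) = δ ^ n := by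
    intro θ hθ
    rw [mem_D] at hθ
    rw [pow_mul, hθ]
  rw [sum_congr rfl h1, sum_const, nsmul_eq_mul, c.D_card_odd δ h0 hδ, one_mul]

lemma sum_pow_zero (δ : K) (n : ℕ) (hn : ¬ M ∣ n) : ∑ θ ∈ D M δ, θ ^ n = 0 := by
  obtain ⟨z, hz0, hz1, hz⟩ := c.exists_zeta
  have h1 : ∑ θ ∈ D M δ, θ ^ n = ∑ θ ∈ D M δ, (z * θ) ^ n := by
    apply sum_bij' (fun θ _ => θ / z) (fun θ _ => z * θ)
    · intro θ hθ
      rw [mem_D] at hθ ⊢
      rw [div_pow, hθ, hz1, div_one]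
    · intro θ hθ
      rw [mem_D] at hθ ⊢
      rw [mul_pow, hθ, hz1, one_mul]
    · intro θ _
      field_simp
    · intro θ _
      field_simp
    · intro θ _
      congr 1
      field_simp
  have h2 : ∑ θ ∈ D M δ, (z * θ) ^ n = z ^ n * ∑ θ ∈ D M δ, θ ^ n := by
    rw [mul_sum]
    exact sum_congr rfl (fun θ _ => mul_pow _ _ _)
  rw [h2] at h1
  have h3 : (1 - z ^ n) * ∑ θ ∈ D M δ, θ ^ n = 0 := by linear_combination h1
  rcases mul_eq_zero.mp h3 with h4 | h4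
  · exact absurd (hz n (sub_eq_zero.mp h4).symm) hn
  · exact h4

/-- general evaluation: an exponent written as `M * n` plus a small defect -/
lemma sum_pow_ite (δ : K) (h0 : δ ≠ 0) (hδ : δ ^ q = δ) (E n : ℕ) (P : Prop) [Decidable P]
    (h1 : M ∣ E → P) (h2 : P → E = M * n) :
    ∑ θ ∈ D M δ, θ ^ E = if P then δ ^ n else 0 := by
  by_cases hP : P
  · rw [if_pos hP, h2 hP]
    exact c.sum_pow_mul δ h0 hδ n
  · rw [if_neg hP]
    exact c.sum_pow_zero δ E (fun h => hP (h1 h))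

omit [DecidableEq K] in
/-- first divisibility criterion -/
lemma crit1 (e i : ℕ) (he : e ≤ q) (hi : i < 2 * r ^ 2) :
    M ∣ e + q * (2 * i + 1) → 2 * i + 1 = (q + 1) * e := by
  intro h
  have hM := c.hM
  have hq := c.hq
  have h1 : (M : ℤ) ∣ ((q : ℤ) + 1) * ((e : ℤ) + q * (2 * i + 1)) := by
    apply Dvd.dvd.mul_left
    exact_mod_cast h
  have h2 : ((q : ℤ) + 1) * ((e : ℤ) + q * (2 * i + 1)) =
      (2 * i + 1) * (M : ℤ) + (((q : ℤ) + 1) * e - (2 * i + 1)) := by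
    rw [hM]
    push_cast
    ring
  have h3 : |((q : ℤ) + 1) * e - (2 * i + 1)| < M := by
    have hi' : (i : ℤ) < 2 * (r : ℤ) ^ 2 := by exact_mod_cast hi
    have he' : (e : ℤ) ≤ q := by exact_mod_cast he
    have he0 : (0 : ℤ) ≤ e := by positivity
    have hi0 : (0 : ℤ) ≤ i := by positivity
    have hM' : (M : ℤ) = q ^ 2 + q + 1 := by rw [hM]; push_cast; ring
    have hq' : (q : ℤ) = 2 * r := by rw [hq]; push_cast; ring
    have hq0 : (0 : ℤ) ≤ q := by positivity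
    have h5 : ((q : ℤ) + 1) * e ≤ (q + 1) * q := by
      apply mul_le_mul_of_nonneg_left he' (by linarith)
    have h6 : (0 : ℤ) ≤ (q + 1) * e := by positivity
    rw [abs_lt]
    constructor
    · have : (q : ℤ) ^ 2 = 4 * r ^ 2 := by rw [hq']; ring
      rw [hM']
      linarith
    · rw [hM']
      linarith
  have h4 := dvd_small _ _ _ h1 h2 h3
  have h5 : ((2 * i + 1 : ℕ) : ℤ) = (((q + 1) * e : ℕ) : ℤ) := by
    push_cast
    linarith
  exact_mod_cast h5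

omit [DecidableEq K] in
lemma crit1' (e i : ℕ) (h : 2 * i + 1 = (q + 1) * e) : e + q * (2 * i + 1) = M * e := by
  rw [h, c.hM]
  ring

/-- The sum `S_q`. -/
lemma sumSq (δ : K) (h0 : δ ≠ 0) (hδ : δ ^ q = δ) (ν : K) :
    ∑ θ ∈ D M δ, θ ^ q * (θ + ν) ^ (q - 1) *
      ((θ + 1) * ∑ i ∈ range (2 * r ^ 2), θ ^ (2 * q * i)) =
    δ * (ν + 1) * (ν + δ) ^ (q - 2) := by
  have hr := c.r_ge
  have hq := c.hq
  -- the inner sums
  have inner : ∀ e, e ≤ q → ∀ i ∈ range (2 * r ^ 2),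
      ∑ θ ∈ D M δ, θ ^ (e + q * (2 * i + 1)) =
        if i = (q * e + e - 1) / 2 ∧ e % 2 = 1 ∧ e < q then δ ^ e else 0 := by
    intro e he i hi
    rw [mem_range] at hi
    apply c.sum_pow_ite δ h0 hδ
    · intro h
      have h1 := c.crit1 e i he hi h
      have h2 : (q + 1) * e = q * e + e := by ring
      rw [h2] at h1
      have h3 : q * e = 2 * (r * e) := by rw [hq]; ring
      refine ⟨by omega, by omega, ?_⟩
      by_contra h4
      have h5 : e = q := by omega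
      rw [h5] at h3 h1
      have : q * q = 4 * r ^ 2 := by rw [hq]; ring
      omega
    · rintro ⟨h1, h2, h3⟩
      apply c.crit1'
      have h4 : (q + 1) * e = q * e + e := by ring
      have h5 : q * e = 2 * (r * e) := by rw [hq]; ring
      rw [h4, h1]
      omega
  have inner2 : ∀ e, e ≤ q → ∑ i ∈ range (2 * r ^ 2), ∑ θ ∈ D M δ, θ ^ (e + q * (2 * i + 1)) =
        if e % 2 = 1 ∧ e < q then δ ^ e else 0 := by
    intro e he
    rw [sum_congr rfl (inner e he)]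
    by_cases h : e % 2 = 1 ∧ e < q
    · rw [if_pos h]
      rw [sum_eq_single ((q * e + e - 1) / 2)]
      · rw [if_pos ⟨rfl, h⟩]
      · intro i _ hi
        rw [if_neg (fun h' => hi h'.1)]
      · intro h'
        exfalso
        apply h'
        rw [mem_range]
        obtain ⟨d, hd⟩ : ∃ d, e = 2 * d + 1 := ⟨e / 2, by omega⟩
        have h1 : d + 1 ≤ r := by omega
        obtain ⟨s, hs⟩ : ∃ s, r = d + 1 + s := ⟨r - (d + 1), by omega⟩
        have h2 : q * e + e - 1 = 2 * ((2 * r + 1) * d + r) := by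
          rw [hd, hq]
          have : 2 * r * (2 * d + 1) + (2 * d + 1) = 2 * ((2 * r + 1) * d + r) + 1 := by ring
          rw [this]
          omega
        rw [h2, Nat.mul_div_cancel_left _ (by norm_num)]
        rw [hs]
        nlinarith
    · rw [if_neg h]
      apply sum_eq_zero
      intro i _
      rw [if_neg (fun h' => h h'.2)]
  -- expand
  have hg : ∀ θ : K, (θ + ν) ^ (q - 1) = ∑ e ∈ range q, θ ^ e * ν ^ (q - 1 - e) := by
    intro θ
    have := c.geom θ ν (a + 1)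
    rwa [← c.q_pow] at this
  have expand : ∀ θ ∈ D M δ, θ ^ q * (θ + ν) ^ (q - 1) *
      ((θ + 1) * ∑ i ∈ range (2 * r ^ 2), θ ^ (2 * q * i)) =
      ∑ e ∈ range q, ν ^ (q - 1 - e) * (∑ i ∈ range (2 * r ^ 2), θ ^ ((e + 1) + q * (2 * i + 1)) +
        ∑ i ∈ range (2 * r ^ 2), θ ^ (e + q * (2 * i + 1))) := by
    intro θ _
    rw [hg, mul_sum, sum_mul]
    apply sum_congr rfl
    intro e _
    rw [← sum_add_distrib, mul_sum, mul_sum, mul_sum]
    apply sum_congr rfl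
    intro i _
    have e1 : (e + 1) + q * (2 * i + 1) = q + e + 2 * q * i + 1 := by ring
    have e2 : e + q * (2 * i + 1) = q + e + 2 * q * i := by ring
    rw [e1, e2, pow_succ, pow_add, pow_add]
    ring
  rw [sum_congr rfl expand, sum_comm]
  have step : ∀ e ∈ range q, ∑ θ ∈ D M δ, ν ^ (q - 1 - e) *
      (∑ i ∈ range (2 * r ^ 2), θ ^ ((e + 1) + q * (2 * i + 1)) +
        ∑ i ∈ range (2 * r ^ 2), θ ^ (e + q * (2 * i + 1))) =
      ν ^ (q - 1 - e) * ((if (e + 1) % 2 = 1 ∧ e + 1 < q then δ ^ (e + 1) else 0) +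
        (if e % 2 = 1 ∧ e < q then δ ^ e else 0)) := by
    intro e he
    rw [mem_range] at he
    rw [← mul_sum, sum_add_distrib, sum_comm, inner2 (e + 1) (by omega), sum_comm,
      inner2 e (by omega)]
  rw [sum_congr rfl step]
  have hq2 : range q = range (2 * r) := by rw [hq]
  rw [hq2, sum_pairs]
  have fin : ∀ d ∈ range r, ν ^ (q - 1 - 2 * d) *
      ((if (2 * d + 1) % 2 = 1 ∧ 2 * d + 1 < q then δ ^ (2 * d + 1) else 0) +
        (if 2 * d % 2 = 1 ∧ 2 * d < q then δ ^ (2 * d) else 0)) +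
      ν ^ (q - 1 - (2 * d + 1)) *
      ((if (2 * d + 1 + 1) % 2 = 1 ∧ 2 * d + 1 + 1 < q then δ ^ (2 * d + 1 + 1) else 0) +
        (if (2 * d + 1) % 2 = 1 ∧ 2 * d + 1 < q then δ ^ (2 * d + 1) else 0)) =
      δ * (ν + 1) * ((δ ^ 2) ^ d * (ν ^ 2) ^ (r - 1 - d)) := by
    intro d hd
    rw [mem_range] at hd
    rw [if_pos (by omega), if_neg (by omega), if_neg (by omega)]
    have e1 : q - 1 - 2 * d = 2 * (r - 1 - d) + 1 := by omega
    have e2 : q - 1 - (2 * d + 1) = 2 * (r - 1 - d) := by omega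
    rw [e1, e2, ← pow_mul, ← pow_mul, pow_succ, pow_succ]
    ring
  rw [sum_congr rfl fin, ← mul_sum]
  have hgr := c.geom (δ ^ 2) (ν ^ 2) a
  rw [← c.hr] at hgr
  rw [← hgr]
  congr 1
  have e3 : δ ^ 2 + ν ^ 2 = (ν + δ) ^ 2 := by
    have := c.two_eq
    linear_combination -(ν * δ) * this
  rw [e3, ← pow_mul]
  congr 1
  omega

omit [DecidableEq K] in
/-- second divisibility criterion -/
lemma crit2A (j i : ℕ) (hj : j < q ^ 2) (hi : i < r) :
    M ∣ q ^ 2 + q + 1 + j + 2 * q ^ 2 * i → j = 2 * i * (q + 1) := by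
  intro h
  have hM := c.hM
  have hq := c.hq
  have h1 : (M : ℤ) ∣ ((q : ℤ) ^ 2 + q + 1 + j + 2 * q ^ 2 * i) := by exact_mod_cast h
  have h2 : ((q : ℤ) ^ 2 + q + 1 + j + 2 * q ^ 2 * i) =
      (2 * i + 1) * (M : ℤ) + ((j : ℤ) - 2 * i * (q + 1)) := by
    rw [hM]
    push_cast
    ring
  have hM' : (M : ℤ) = q ^ 2 + q + 1 := by rw [hM]; push_cast; ring
  have hq' : (q : ℤ) = 2 * r := by rw [hq]; push_cast; ring
  have hj' : (j : ℤ) < (q : ℤ) ^ 2 := by exact_mod_cast hj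
  have hi' : (i : ℤ) + 1 ≤ r := by exact_mod_cast hi
  have hi0 : (0 : ℤ) ≤ i := by positivity
  have hj0 : (0 : ℤ) ≤ j := by positivity
  have hq0 : (0 : ℤ) ≤ q := by positivity
  have h3 : |(j : ℤ) - 2 * i * (q + 1)| < M := by
    rw [abs_lt]
    have h5 : 2 * (i : ℤ) * (q + 1) ≤ (q - 2) * (q + 1) := by
      apply mul_le_mul_of_nonneg_right _ (by linarith)
      linarith
    have h6 : 0 ≤ 2 * (i : ℤ) * (q + 1) := by positivity
    constructor
    · rw [hM']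
      nlinarith
    · rw [hM']
      linarith
  have h4 := dvd_small _ _ _ h1 h2 h3
  have h5 : ((j : ℕ) : ℤ) = ((2 * i * (q + 1) : ℕ) : ℤ) := by
    push_cast
    linarith
  exact_mod_cast h5

omit [DecidableEq K] in
lemma crit2B (j i : ℕ) (hj : j < q ^ 2) (hi : i < r) :
    M ∣ q ^ 2 + q + j + 2 * q ^ 2 * i → j = 2 * i * (q + 1) + 1 := by
  intro h
  have hM := c.hM
  have hq := c.hq
  have h1 : (M : ℤ) ∣ ((q : ℤ) ^ 2 + q + j + 2 * q ^ 2 * i) := by exact_mod_cast h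
  have h2 : ((q : ℤ) ^ 2 + q + j + 2 * q ^ 2 * i) =
      (2 * i + 1) * (M : ℤ) + ((j : ℤ) - 2 * i * (q + 1) - 1) := by
    rw [hM]
    push_cast
    ring
  have hM' : (M : ℤ) = q ^ 2 + q + 1 := by rw [hM]; push_cast; ring
  have hq' : (q : ℤ) = 2 * r := by rw [hq]; push_cast; ring
  have hj' : (j : ℤ) < (q : ℤ) ^ 2 := by exact_mod_cast hj
  have hi' : (i : ℤ) + 1 ≤ r := by exact_mod_cast hi
  have hi0 : (0 : ℤ) ≤ i := by positivity
  have hj0 : (0 : ℤ) ≤ j := by positivity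
  have hq0 : (0 : ℤ) ≤ q := by positivity
  have h3 : |(j : ℤ) - 2 * i * (q + 1) - 1| < M := by
    rw [abs_lt]
    have h5 : 2 * (i : ℤ) * (q + 1) ≤ (q - 2) * (q + 1) := by
      apply mul_le_mul_of_nonneg_right _ (by linarith)
      linarith
    have h6 : 0 ≤ 2 * (i : ℤ) * (q + 1) := by positivity
    constructor
    · rw [hM']
      nlinarith
    · rw [hM']
      linarith
  have h4 := dvd_small _ _ _ h1 h2 h3
  have h5 : ((j : ℕ) : ℤ) = ((2 * i * (q + 1) + 1 : ℕ) : ℤ) := by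
    push_cast
    linarith
  exact_mod_cast h5

omit [DecidableEq K] in
lemma q_sq : q ^ 2 = 2 ^ (2 * a + 2) := by
  rw [c.q_pow, ← pow_mul]
  congr 1
  ring

/-- The sum `T₂`. -/
lemma sumT (δ : K) (h0 : δ ≠ 0) (hδ : δ ^ q = δ) (ν : K) :
    ∑ θ ∈ D M δ, θ ^ (q ^ 2 + q) * (θ + ν) ^ (q ^ 2 - 1) *
      ((θ + 1) * ∑ i ∈ range r, θ ^ (2 * q ^ 2 * i)) =
    δ * (1 + ν) * ν ^ q * (ν ^ (q + 1) + δ) ^ (q - 2) := by
  have hr := c.r_ge
  have hq := c.hq
  have hM := c.hM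
  have hg : ∀ θ : K, (θ + ν) ^ (q ^ 2 - 1) =
      ∑ j ∈ range (q ^ 2), θ ^ j * ν ^ (q ^ 2 - 1 - j) := by
    intro θ
    have := c.geom θ ν (2 * a + 2)
    rwa [← c.q_sq] at this
  have expand : ∀ θ ∈ D M δ, θ ^ (q ^ 2 + q) * (θ + ν) ^ (q ^ 2 - 1) *
      ((θ + 1) * ∑ i ∈ range r, θ ^ (2 * q ^ 2 * i)) =
      ∑ i ∈ range r, ∑ j ∈ range (q ^ 2), ν ^ (q ^ 2 - 1 - j) *
        (θ ^ (q ^ 2 + q + 1 + j + 2 * q ^ 2 * i) + θ ^ (q ^ 2 + q + j + 2 * q ^ 2 * i)) := by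
    intro θ _
    rw [hg, mul_sum, mul_sum, sum_mul_sum, sum_comm]
    apply sum_congr rfl
    intro i _
    apply sum_congr rfl
    intro j _
    have e1 : q ^ 2 + q + 1 + j + 2 * q ^ 2 * i = (q ^ 2 + q) + j + 2 * q ^ 2 * i + 1 := by ring
    rw [e1, pow_succ, pow_add, pow_add]
    ring
  rw [sum_congr rfl expand, sum_comm]
  have hlt : ∀ i, i < r → 2 * i * (q + 1) + 1 < q ^ 2 := by
    intro i hi
    obtain ⟨s, hs⟩ : ∃ s, r = i + 1 + s := ⟨r - (i + 1), by omega⟩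
    rw [hq, hs]
    nlinarith
  have step : ∀ i ∈ range r, ∑ θ ∈ D M δ, ∑ j ∈ range (q ^ 2), ν ^ (q ^ 2 - 1 - j) *
        (θ ^ (q ^ 2 + q + 1 + j + 2 * q ^ 2 * i) + θ ^ (q ^ 2 + q + j + 2 * q ^ 2 * i)) =
      δ * (1 + ν) * ν ^ q * ((δ ^ 2) ^ i * ((ν ^ (q + 1)) ^ 2) ^ (r - 1 - i)) := by
    intro i hi
    rw [mem_range] at hi
    rw [sum_comm]
    have s1 : ∀ j ∈ range (q ^ 2), ∑ θ ∈ D M δ, ν ^ (q ^ 2 - 1 - j) *
        (θ ^ (q ^ 2 + q + 1 + j + 2 * q ^ 2 * i) + θ ^ (q ^ 2 + q + j + 2 * q ^ 2 * i)) =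
        (if j = 2 * i * (q + 1) then ν ^ (q ^ 2 - 1 - j) * δ ^ (2 * i + 1) else 0) +
        (if j = 2 * i * (q + 1) + 1 then ν ^ (q ^ 2 - 1 - j) * δ ^ (2 * i + 1) else 0) := by
      intro j hj
      rw [mem_range] at hj
      rw [← mul_sum, sum_add_distrib,
        c.sum_pow_ite δ h0 hδ _ (2 * i + 1) (j = 2 * i * (q + 1)) (c.crit2A j i hj hi) (by
          intro h; rw [h, hM]; ring),
        c.sum_pow_ite δ h0 hδ _ (2 * i + 1) (j = 2 * i * (q + 1) + 1) (c.crit2B j i hj hi) (by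
          intro h; rw [h, hM]; ring)]
      rw [mul_add, mul_ite, mul_ite, mul_zero]
    rw [sum_congr rfl s1, sum_add_distrib, sum_ite_eq' (range (q ^ 2)),
      sum_ite_eq' (range (q ^ 2))]
    have h1 := hlt i hi
    rw [if_pos (mem_range.mpr (by omega)), if_pos (mem_range.mpr h1)]
    obtain ⟨s, hs⟩ : ∃ s, r = i + 1 + s := ⟨r - (i + 1), by omega⟩
    have e0 : q ^ 2 = 2 * i * (q + 1) + (q + (q + 1) * (2 * s)) + 2 := by
      rw [hq, hs]; ring
    have e1 : q ^ 2 - 1 - 2 * i * (q + 1) = (q + (q + 1) * (2 * s)) + 1 := by omega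
    have e2 : q ^ 2 - 1 - (2 * i * (q + 1) + 1) = q + (q + 1) * (2 * s) := by omega
    have e3 : r - 1 - i = s := by omega
    rw [e1, e2, e3, ← pow_mul, ← pow_mul, ← pow_mul, pow_succ ν, pow_add ν q]
    ring
  rw [sum_congr rfl step, ← mul_sum]
  have hgr := c.geom (δ ^ 2) ((ν ^ (q + 1)) ^ 2) a
  rw [← c.hr] at hgr
  rw [← hgr]
  congr 1
  have e3 : δ ^ 2 + (ν ^ (q + 1)) ^ 2 = (ν ^ (q + 1) + δ) ^ 2 := by
    have := c.two_eq
    linear_combination -(ν ^ (q + 1) * δ) * this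
  rw [e3, ← pow_mul]
  congr 1
  omega

/-- a bijection of the norm class -/
lemma inj_sum0 (δ : K) (u : K → K) (hu : ∀ θ ∈ D M δ, u θ ∈ D M δ)
    (hinj : Set.InjOn u (D M δ)) (k : ℕ) (hk : ¬ M ∣ k) : ∑ θ ∈ D M δ, u θ ^ k = 0 := by
  have himg : (D M δ).image u = D M δ := by
    apply eq_of_subset_of_card_le
    · intro v hv
      rw [mem_image] at hv
      obtain ⟨θ, hθ, rfl⟩ := hv
      exact hu θ hθ
    · rw [card_image_of_injOn hinj]
  have h1 := c.sum_pow_zero δ k hk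
  rw [← himg, sum_image hinj] at h1
  exact h1

/-- an injection of the norm class minus one point -/
lemma inj_sum1 (δ : K) (e : K) (he : e ∈ D M δ) (u : K → K)
    (hu : ∀ θ ∈ (D M δ).erase e, u θ ∈ D M δ) (hinj : Set.InjOn u ((D M δ).erase e)) :
    ∃ v ∈ D M δ, ∀ k : ℕ, ¬ M ∣ k → ∑ θ ∈ (D M δ).erase e, u θ ^ k = v ^ k := by
  have hsub : ((D M δ).erase e).image u ⊆ D M δ := by
    intro v hv
    rw [mem_image] at hv
    obtain ⟨θ, hθ, rfl⟩ := hv
    exact hu θ hθ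
  have hcard : (D M δ \ ((D M δ).erase e).image u).card = 1 := by
    rw [card_sdiff_of_subset hsub, card_image_of_injOn hinj, card_erase_of_mem he]
    have : 0 < (D M δ).card := card_pos.mpr ⟨e, he⟩
    omega
  rw [card_eq_one] at hcard
  obtain ⟨v, hv⟩ := hcard
  have hvD : v ∈ D M δ := by
    have : v ∈ D M δ \ ((D M δ).erase e).image u := by rw [hv]; simp
    exact (mem_sdiff.mp this).1
  refine ⟨v, hvD, ?_⟩
  intro k hk
  have h1 := c.sum_pow_zero δ k hk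
  rw [← sum_sdiff hsub, hv, sum_singleton, sum_image hinj] at h1
  have := c.eq_of_add _ _ h1
  exact this.symm

omit [DecidableEq K] in
lemma norm_frob (w : K) : (w ^ M) ^ q = w ^ M := by
  rw [← pow_mul, c.hM]
  have : (q ^ 2 + q + 1) * q = q ^ 3 + q ^ 2 + q := by ring
  rw [this, pow_add, pow_add, c.frob]
  have : q ^ 2 + q + 1 = 1 + q ^ 2 + q := by ring
  rw [this, pow_add, pow_add, pow_one]

omit [DecidableEq K] in
lemma norm_quot (w : K) (hw : w ≠ 0) : (w / w ^ q ^ 2) ^ M = 1 := by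
  have h1 : (w ^ q ^ 2) ^ M = w ^ M := by
    rw [← pow_mul, mul_comm, pow_mul, sq, pow_mul, c.norm_frob, c.norm_frob]
  rw [div_pow, h1, div_self (pow_ne_zero _ hw)]

omit [DecidableEq K] in
lemma mul_quot_mem [DecidableEq K] {δ θ : K} (hθ : θ ∈ D M δ) (w : K) (hw : w ≠ 0) :
    θ * (w / w ^ q ^ 2) ∈ D M δ := by
  rw [mem_D] at hθ ⊢
  rw [mul_pow, hθ, c.norm_quot w hw, mul_one]

omit [Field K] [Fintype K] [DecidableEq K] c in
lemma not_dvd_between (k E : ℕ) (h1 : k * M < E) (h2 : E < (k + 1) * M) : ¬ M ∣ E := by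
  rintro ⟨t, rfl⟩
  rw [mul_comm M t] at h1 h2
  have h3 := Nat.lt_of_mul_lt_mul_right h1
  have h4 := Nat.lt_of_mul_lt_mul_right h2
  omega

omit [DecidableEq K] in
lemma pow_last (x : K) (hx : x ≠ 0) : x ^ (q ^ 3 - 1) = 1 := by
  have := FiniteField.pow_card_sub_one_eq_one x hx
  rwa [c.hK] at this

/-- the factor replacing `(θ+1)^(-2(q-1))` -/
lemma factor1 (θ : K) (hθ : θ + 1 ≠ 0) :
    ((θ + 1) * ∑ i ∈ range (2 * r ^ 2), θ ^ (2 * q * i)) * ((θ + 1) ^ 2) ^ (q - 1) = 1 := by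
  have h1 := c.geom (θ ^ (2 * q)) 1 (2 * a + 1)
  have h2 : 2 ^ (2 * a + 1) = 2 * r ^ 2 := by
    rw [c.hr, ← pow_mul, pow_succ]
    ring
  rw [h2] at h1
  have h3 : ∑ i ∈ range (2 * r ^ 2), θ ^ (2 * q * i) = (θ ^ (2 * q) + 1) ^ (2 * r ^ 2 - 1) := by
    rw [h1]
    apply sum_congr rfl
    intro i _
    rw [one_pow, mul_one, pow_mul]
  have h4 : θ ^ (2 * q) + 1 = (θ + 1) ^ (2 * q) := by
    have h5 := c.add_pow_two_pow θ 1 (a + 2)
    have h6 : 2 ^ (a + 2) = 2 * q := by rw [c.q_pow, pow_succ 2 (a + 1)]; ring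
    rw [h6, one_pow] at h5
    exact h5.symm
  rw [h3, h4]
  have hr := c.r_ge
  have hq := c.hq
  have h7 : (θ + 1) * ((θ + 1) ^ (2 * q)) ^ (2 * r ^ 2 - 1) * ((θ + 1) ^ 2) ^ (q - 1) =
      (θ + 1) ^ (q ^ 3 - 1) := by
    rw [← pow_mul, ← pow_mul, ← pow_succ', ← pow_add]
    congr 1
    obtain ⟨t, ht⟩ : ∃ t, 2 * r ^ 2 = t + 1 := ⟨2 * r ^ 2 - 1, by
      have : 0 < r ^ 2 := by positivity
      omega⟩
    obtain ⟨s, hs⟩ : ∃ s, q = s + 1 := ⟨q - 1, by omega⟩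
    have h8 : q ^ 3 = 2 * q * (t + 1) := by rw [← ht, hq]; ring
    rw [h8, ht, Nat.add_sub_cancel]
    have h9 : 2 * q * (t + 1) = 2 * q * t + 2 * q := by ring
    rw [h9]
    omega
  rw [h7]
  exact c.pow_last _ hθ

/-- the factor replacing `(θ+1)^(-2(q^2-1))` -/
lemma factor2 (θ : K) (hθ : θ + 1 ≠ 0) :
    ((θ + 1) * ∑ i ∈ range r, θ ^ (2 * q ^ 2 * i)) * ((θ + 1) ^ 2) ^ (q ^ 2 - 1) = 1 := by
  have h1 := c.geom (θ ^ (2 * q ^ 2)) 1 a
  rw [← c.hr] at h1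
  have h3 : ∑ i ∈ range r, θ ^ (2 * q ^ 2 * i) = (θ ^ (2 * q ^ 2) + 1) ^ (r - 1) := by
    rw [h1]
    apply sum_congr rfl
    intro i _
    rw [one_pow, mul_one, pow_mul]
  have h4 : θ ^ (2 * q ^ 2) + 1 = (θ + 1) ^ (2 * q ^ 2) := by
    have h5 := c.add_pow_two_pow θ 1 (2 * a + 3)
    have h6 : 2 ^ (2 * a + 3) = 2 * q ^ 2 := by rw [c.q_sq, pow_succ 2 (2 * a + 2)]; ring
    rw [h6, one_pow] at h5
    exact h5.symm
  rw [h3, h4]
  have hr := c.r_ge
  have hq := c.hq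
  have h7 : (θ + 1) * ((θ + 1) ^ (2 * q ^ 2)) ^ (r - 1) * ((θ + 1) ^ 2) ^ (q ^ 2 - 1) =
      (θ + 1) ^ (q ^ 3 - 1) := by
    rw [← pow_mul, ← pow_mul, ← pow_succ', ← pow_add]
    congr 1
    obtain ⟨t, ht⟩ : ∃ t, r = t + 1 := ⟨r - 1, by omega⟩
    have h8 : q ^ 3 = 2 * q ^ 2 * t + 2 * q ^ 2 := by
      have : q ^ 3 = q ^ 2 * q := by ring
      rw [this]
      nth_rewrite 2 [hq]
      rw [ht]
      ring
    have h10 : 0 < q ^ 2 := by have := c.q_ge; positivity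
    rw [h8, ht, Nat.add_sub_cancel]
    omega
  rw [h7]
  exact c.pow_last _ hθ

omit [DecidableEq K] in
lemma u_pow_q (θ w : K) (hw : w ≠ 0) : (θ * (w / w ^ q ^ 2)) ^ q = θ ^ q * w ^ (q - 1) := by
  have h1 : (w ^ q ^ 2) ^ q = w := by
    rw [← pow_mul, ← pow_succ]
    exact c.frob w
  have hq := c.q_ge
  have h2 : w ^ q = w ^ (q - 1) * w := by
    rw [← pow_succ]
    congr 1
    omega
  rw [mul_pow, div_pow, h1, h2, mul_div_assoc, div_self hw, mul_one]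

omit [DecidableEq K] in
lemma u_pow_qq (θ w : K) (hw : w ≠ 0) :
    (θ * (w / w ^ q ^ 2)) ^ (q ^ 2 + q) = θ ^ (q ^ 2 + q) * w ^ (q ^ 2 - 1) := by
  have hq := c.q_ge
  have h1 : (w ^ (q - 1)) ^ q = w ^ (q ^ 2 - q) := by
    rw [← pow_mul]
    congr 1
    rw [Nat.sub_mul, one_mul, sq]
  have h2 : q ≤ q ^ 2 := by nlinarith
  have h3 : w ^ (q ^ 2 - q) * w ^ (q - 1) = w ^ (q ^ 2 - 1) := by
    rw [← pow_add]
    congr 1
    omega
  have h4 : (θ * (w / w ^ q ^ 2)) ^ q ^ 2 = θ ^ q ^ 2 * w ^ (q ^ 2 - q) := by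
    have : (θ * (w / w ^ q ^ 2)) ^ q ^ 2 = ((θ * (w / w ^ q ^ 2)) ^ q) ^ q := by
      rw [← pow_mul, sq]
    rw [this, c.u_pow_q θ w hw, mul_pow, h1, ← pow_mul, sq]
  rw [pow_add, h4, c.u_pow_q θ w hw, pow_add, ← h3]
  ring

end Ctx

end Pool.Agent.R159.NormSums
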