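import Mathlib
import Pool.Agent.R159.NormSums

/-!
# Two points of a parabola in one component of the regulus-type net: the normalised cases
-/

namespace Pool.Agent.R159.AndreCases

open Finset Pool.Agent.R159.NormSums

variable {K : Type} [Field K] [Fintype K] [DecidableEq K]

/-- some component `y = x^(q^2) u`, `u^M = δ`, contains two nonzero points of
`τ ↦ (n₁ τ + t₁ τ^2, n₂ τ + t₂ τ^2)` -/
def Bad (q M : ℕ) (n₁ n₂ t₁ t₂ δ : K) : Prop :=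
  ∃ u : K, u ^ M = δ ∧ ∃ τ₁ τ₂ : K, τ₁ ≠ 0 ∧ τ₂ ≠ 0 ∧ τ₁ ≠ τ₂ ∧
    n₂ * τ₁ + t₂ * τ₁ ^ 2 = (n₁ * τ₁ + t₁ * τ₁ ^ 2) ^ (q ^ 2) * u ∧
    n₂ * τ₂ + t₂ * τ₂ ^ 2 = (n₁ * τ₂ + t₁ * τ₂ ^ 2) ^ (q ^ 2) * u

variable {a r q M : ℕ} (c : Ctx K a r q M)
include c

omit [DecidableEq K] in
lemma frob2 (x y : K) : (x + y) ^ q ^ 2 = x ^ q ^ 2 + y ^ q ^ 2 := by
  rw [sq, pow_mul, pow_mul, pow_mul, c.add_pow_q, c.add_pow_q]

omit [DecidableEq K] in
/-- the algebraic core of the generic case -/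
lemma core (δ ν : K) (h0 : δ ≠ 0) (hδ : δ ^ q = δ) (hν : ν ≠ 1)
    (h : (δ * (ν + 1) * (ν + δ) ^ (q - 2)) *
      (δ * (1 + ν) * ν ^ q * (ν ^ (q + 1) + δ) ^ (q - 2)) ^ q = δ)
    (hcase : δ = 1 ∨ ν ^ M = δ) : ν ^ M = 1 := by
  have hq := c.q_ge
  have two := c.two_eq
  set x := ν ^ q with hx
  set y := x ^ q with hy
  have hyq : y ^ q = ν := by
    rw [hy, hx, ← pow_mul, ← pow_mul]
    have : q * (q * q) = q ^ 3 := by ring
    rw [this]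
    exact c.frob ν
  have hM : ν ^ M = ν * x * y := by
    rw [c.hM, hy, hx, ← pow_mul, ← sq]
    have : q ^ 2 + q + 1 = 1 + q + q ^ 2 := by ring
    rw [this, pow_add, pow_add, pow_one]
  have hA : (ν + δ) ^ (q - 2) * (ν + δ) ^ 2 = x + δ := by
    rw [← pow_add, show q - 2 + 2 = q by omega, c.add_pow_q, hδ]
  have hB : ((ν ^ (q + 1) + δ) ^ (q - 2)) ^ q * (x * y + δ) ^ 2 = y * ν + δ := by
    have h1 : (ν ^ (q + 1) + δ) ^ q = x * y + δ := by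
      rw [c.add_pow_q, hδ, ← pow_mul, add_mul, one_mul, pow_add, ← hx]
      congr 1
      rw [hy, hx, ← pow_mul]
      ring
    rw [← pow_mul, mul_comm (q - 2) q, pow_mul, h1, ← pow_add, show q - 2 + 2 = q by omega,
      c.add_pow_q, hδ, mul_pow, hyq, ← hy]
  have h1 : (δ * (1 + ν) * ν ^ q * (ν ^ (q + 1) + δ) ^ (q - 2)) ^ q =
      δ * (1 + x) * y * ((ν ^ (q + 1) + δ) ^ (q - 2)) ^ q := by
    rw [mul_pow, mul_pow, mul_pow, hδ, c.add_pow_q, one_pow, ← hx, ← hy]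
  rw [h1] at h
  -- the relation (G)
  have hG : δ * y * (1 + ν) * (1 + x) * (x + δ) * (ν * y + δ) =
      (ν + δ) ^ 2 * (x * y + δ) ^ 2 := by
    have h2 : δ * (δ * y * (1 + ν) * (1 + x) * (x + δ) * (ν * y + δ)) =
        δ * ((ν + δ) ^ 2 * (x * y + δ) ^ 2) := by
      have h3 : δ * ((ν + δ) ^ 2 * (x * y + δ) ^ 2) =
          (δ * (ν + 1) * (ν + δ) ^ (q - 2)) *
            (δ * (1 + x) * y * ((ν ^ (q + 1) + δ) ^ (q - 2)) ^ q) *
            ((ν + δ) ^ 2 * (x * y + δ) ^ 2) := by rw [h]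
      rw [h3]
      have h4 : (δ * (ν + 1) * (ν + δ) ^ (q - 2)) *
            (δ * (1 + x) * y * ((ν ^ (q + 1) + δ) ^ (q - 2)) ^ q) *
            ((ν + δ) ^ 2 * (x * y + δ) ^ 2) =
          δ * (ν + 1) * (δ * (1 + x) * y) * ((ν + δ) ^ (q - 2) * (ν + δ) ^ 2) *
            (((ν ^ (q + 1) + δ) ^ (q - 2)) ^ q * (x * y + δ) ^ 2) := by ring
      rw [h4, hA, hB]
      ring
    exact mul_left_cancel₀ h0 h2
  have hν1 : 1 + ν ≠ 0 := by
    intro h'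
    exact hν (c.eq_of_add _ _ h').symm
  -- the relation (Eq')
  have hE : y * (1 + ν * y) * (1 + x) ^ 2 = (1 + ν) * (1 + x * y) ^ 2 := by
    rcases hcase with h5 | h5
    · rw [h5] at hG
      apply mul_left_cancel₀ hν1
      linear_combination hG
    · have hδ' : δ = ν * x * y := by rw [← h5, hM]
      have hn0 : ν * x * y ≠ 0 := by rw [← hδ']; exact h0
      have h6 : (ν * x * y) ^ 2 * (1 + ν) ≠ 0 := mul_ne_zero (pow_ne_zero _ hn0) hν1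
      apply mul_left_cancel₀ h6
      rw [hδ'] at hG
      linear_combination hG
  -- factor
  have hx1 : 1 + x ≠ 0 := by
    intro h'
    have h7 : (1 + ν) ^ q = 0 := by rw [c.add_pow_q, one_pow, ← hx, h']
    exact hν1 (pow_eq_zero_iff (by omega) |>.mp h7)
  have hy1 : 1 + y ≠ 0 := by
    intro h'
    have h7 : (1 + x) ^ q = 0 := by rw [c.add_pow_q, one_pow, ← hy, h']
    exact hx1 (pow_eq_zero_iff (by omega) |>.mp h7)
  have hF0 : 1 + ν + ν * y + x ^ 2 * y = 0 := by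
    have h8 : (1 + y) * (1 + ν + ν * y + x ^ 2 * y) = 0 := by
      linear_combination hE + (1 + ν + ν * y + x ^ 2 * y ^ 2 - ν * x * y ^ 2 + ν * x * y) * two
    rcases mul_eq_zero.mp h8 with h9 | h9
    · exact absurd h9 hy1
    · exact h9
  have hF1 : 1 + x + x * ν + y ^ 2 * ν = 0 := by
    have h8 : (1 + ν + ν * y + x ^ 2 * y) ^ q = 0 := by
      rw [hF0]
      exact zero_pow (by omega)
    rw [c.add_pow_q, c.add_pow_q, c.add_pow_q, one_pow, mul_pow, mul_pow, hyq, ← pow_mul,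
      mul_comm 2 q, pow_mul, ← hx, ← hy] at h8
    exact h8
  have hF2 : 1 + y + y * x + ν ^ 2 * x = 0 := by
    have h8 : (1 + x + x * ν + y ^ 2 * ν) ^ q = 0 := by
      rw [hF1]
      exact zero_pow (by omega)
    have h9 : (y ^ 2) ^ q = ν ^ 2 := by rw [← pow_mul, mul_comm, pow_mul, hyq]
    rw [c.add_pow_q, c.add_pow_q, c.add_pow_q, one_pow, mul_pow, mul_pow, h9, ← hx, ← hy] at h8
    exact h8
  have e0 : (1 + ν) * (1 + y) = y * (1 + x) ^ 2 := by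
    linear_combination hF0 - (x ^ 2 * y + x * y) * two
  have e1 : (1 + x) * (1 + ν) = ν * (1 + y) ^ 2 := by
    linear_combination hF1 - (y ^ 2 * ν + y * ν) * two
  have e2 : (1 + y) * (1 + x) = x * (1 + ν) ^ 2 := by
    linear_combination hF2 - (ν ^ 2 * x + ν * x) * two
  have hP : ((1 + ν) * (1 + x) * (1 + y)) ^ 2 ≠ 0 :=
    pow_ne_zero _ (mul_ne_zero (mul_ne_zero hν1 hx1) hy1)
  rw [hM]
  apply mul_right_cancel₀ hP
  calc ν * x * y * ((1 + ν) * (1 + x) * (1 + y)) ^ 2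
      = (y * (1 + x) ^ 2) * (ν * (1 + y) ^ 2) * (x * (1 + ν) ^ 2) := by ring
    _ = ((1 + ν) * (1 + y)) * ((1 + x) * (1 + ν)) * ((1 + y) * (1 + x)) := by rw [e0, e1, e2]
    _ = 1 * ((1 + ν) * (1 + x) * (1 + y)) ^ 2 := by ring


lemma bad_symm_inj (n₁ n₂ t₁ t₂ δ κ : K) (hκ : κ ≠ 0) (S : Finset K) (hS : S ⊆ D M δ)
    (τ w : K → K) (hτ0 : ∀ θ ∈ S, τ θ ≠ 0)
    (hτi : ∀ θ ∈ S, ∀ θ' ∈ S, τ θ = τ θ' → θ = θ') (hw : ∀ θ ∈ S, w θ ≠ 0)
    (hX : ∀ θ ∈ S, n₁ * τ θ + t₁ * τ θ ^ 2 = κ * w θ)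
    (hY : ∀ θ ∈ S, n₂ * τ θ + t₂ * τ θ ^ 2 = κ * (θ * w θ))
    (hnb : ¬ Bad q M n₁ n₂ t₁ t₂ δ) :
    Set.InjOn (fun θ => θ * (w θ / w θ ^ q ^ 2)) S ∧
      ∀ θ ∈ S, θ * (w θ / w θ ^ q ^ 2) ∈ D M δ := by
  have hmem : ∀ θ ∈ S, θ * (w θ / w θ ^ q ^ 2) ∈ D M δ :=
    fun θ hθ => c.mul_quot_mem (hS hθ) _ (hw θ hθ)
  refine ⟨?_, hmem⟩
  intro θ hθ θ' hθ' h
  by_contra hne
  apply hnb
  have hθS : θ ∈ S := hθ
  have hθS' : θ' ∈ S := hθ'
  have hκq : κ ^ q ^ 2 ≠ 0 := pow_ne_zero _ hκ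
  refine ⟨κ / κ ^ q ^ 2 * (θ * (w θ / w θ ^ q ^ 2)), ?_, τ θ, τ θ', hτ0 θ hθS, hτ0 θ' hθS', ?_,
    ?_, ?_⟩
  · rw [mul_pow, c.norm_quot κ hκ, one_mul]
    exact mem_D.mp (hmem θ hθS)
  · intro h'
    exact hne (hτi θ hθS θ' hθS' h')
  · have hwq : w θ ^ q ^ 2 ≠ 0 := pow_ne_zero _ (hw θ hθS)
    rw [hX θ hθS, hY θ hθS, mul_pow]
    field_simp
  · have hwq : w θ' ^ q ^ 2 ≠ 0 := pow_ne_zero _ (hw θ' hθS')
    have h' : θ * (w θ / w θ ^ q ^ 2) = θ' * (w θ' / w θ' ^ q ^ 2) := h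
    rw [hX θ' hθS', hY θ' hθS', h', mul_pow]
    field_simp

/-- conclusion of the argument when no exceptional parameter lies in the class -/
lemma concl_none (δ : K) (f : K → K) (hf : ∀ θ ∈ D M δ, f θ ∈ D M δ)
    (hinj : Set.InjOn f (D M δ)) (k : ℕ) (hk : ¬ M ∣ k) (F : K → K)
    (hF : ∀ θ ∈ D M δ, f θ ^ k = F θ) : ∑ θ ∈ D M δ, F θ = 0 := by
  rw [← c.inj_sum0 δ f hf hinj k hk]
  exact sum_congr rfl (fun θ hθ => (hF θ hθ).symm)

/-- conclusion of the argument when exactly one exceptional parameter lies in the class -/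
lemma concl_one (δ e : K) (he : e ∈ D M δ) (f : K → K)
    (hf : ∀ θ ∈ (D M δ).erase e, f θ ∈ D M δ)
    (hinj : Set.InjOn f ((D M δ).erase e)) : ∃ v ∈ D M δ, ∀ k : ℕ, ¬ M ∣ k → ∀ F : K → K,
    (∀ θ ∈ (D M δ).erase e, f θ ^ k = F θ) → F e = 0 → ∑ θ ∈ D M δ, F θ = v ^ k := by
  obtain ⟨v, hv, h⟩ := c.inj_sum1 δ e he f hf hinj
  refine ⟨v, hv, ?_⟩
  intro k hk F hF hFe
  rw [← h k hk, ← add_sum_erase _ _ he, hFe, zero_add]
  exact sum_congr rfl (fun θ hθ => (hF θ hθ).symm)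

omit [DecidableEq K] in
lemma not_dvd_q : ¬ M ∣ q := by
  have h := c.q_ge
  apply Ctx.not_dvd_between 0 q
  · omega
  · rw [c.hM]; nlinarith

omit [DecidableEq K] in
lemma not_dvd_qq : ¬ M ∣ q ^ 2 + q := by
  have h := c.q_ge
  apply Ctx.not_dvd_between 0
  · nlinarith
  · rw [c.hM]; omega

omit [DecidableEq K] in
/-- both exceptional parameters in the class -/
lemma case1a_both (ν : K) (hν : ν ^ M = 1) : Bad q M 1 ν 1 1 (1 : K) := by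
  classical
  obtain ⟨g, hg0, hgen, hg⟩ := c.exists_gen
  have hν0 : ν ≠ 0 := Ctx.D_ne_zero c.M_pos one_ne_zero hν
  obtain ⟨n, hn⟩ := hgen ν hν0
  have h1 : (q - 1) * M ∣ n * M := by
    rw [← hg, pow_mul, ← hn, hν]
  obtain ⟨k, hk⟩ := Nat.dvd_of_mul_dvd_mul_right c.M_pos h1
  have hq := c.q_ge
  set w := g ^ k with hw
  have hw0 : w ≠ 0 := pow_ne_zero _ hg0
  have hνw : ν = w ^ (q - 1) := by rw [hn, hk, hw, ← pow_mul, mul_comm]
  have key : (w ^ q) ^ q ^ 2 * ν = w ^ q := by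
    have h2 : (w ^ q) ^ q ^ 2 = w := by
      rw [← pow_mul, ← pow_succ']
      exact c.frob w
    rw [h2, hνw, ← pow_succ']
    congr 1
    omega
  -- an element of the small field
  have hl1 : (g ^ M) ^ q = g ^ M := by
    have h3 : (g ^ M) ^ (q - 1) = 1 := by rw [← pow_mul, hg, mul_comm]
    have h4 : q = (q - 1) + 1 := by omega
    rw [h4, pow_succ, h3, one_mul]
  have hl2 : (g ^ M) ^ q ^ 2 = g ^ M := by rw [sq, pow_mul, hl1, hl1]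
  have hl3 : g ^ M ≠ 1 := by
    intro h5
    rw [hg] at h5
    have h6 := Nat.le_of_dvd c.M_pos h5
    have h7 := c.M_pos
    obtain ⟨s, hs⟩ : ∃ s, q - 1 = s + 2 := ⟨q - 3, by omega⟩
    rw [hs] at h6
    nlinarith
  have point : ∀ l : K, l ^ q ^ 2 = l →
      ν * (l * w ^ q) + 1 * (l * w ^ q) ^ 2 =
        (1 * (l * w ^ q) + 1 * (l * w ^ q) ^ 2) ^ q ^ 2 * ν ^ 2 := by
    intro l hl
    have e : (l * w ^ q) ^ q ^ 2 = l * (w ^ q) ^ q ^ 2 := by rw [mul_pow, hl]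
    rw [one_mul, one_mul, frob2 c, ← pow_mul (l * w ^ q), mul_comm 2 (q ^ 2), pow_mul, e]
    linear_combination (-l * ν - l ^ 2 * ((w ^ q) ^ q ^ 2 * ν + w ^ q)) * key
  refine ⟨ν ^ 2, by rw [← pow_mul, mul_comm, pow_mul, hν, one_pow], 1 * w ^ q, g ^ M * w ^ q,
    ?_, ?_, ?_, point 1 (one_pow _), point (g ^ M) hl2⟩
  · rw [one_mul]; exact pow_ne_zero _ hw0
  · exact mul_ne_zero (pow_ne_zero _ hg0) (pow_ne_zero _ hw0)
  · intro h8
    exact hl3 (mul_right_cancel₀ (pow_ne_zero _ hw0) h8).symm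

/-- the generic case -/
lemma case1a (δ ν : K) (h0 : δ ≠ 0) (hδ : δ ^ q = δ) (hν : ν ≠ 1) :
    Bad q M 1 ν 1 1 δ := by
  by_contra hnb
  have hq := c.q_ge
  have hM0 := c.M_pos
  -- the data
  let w : K → K := fun θ => (θ + ν) / (θ + 1) ^ 2
  let τ : K → K := fun θ => (θ + ν) / (θ + 1)
  let f : K → K := fun θ => θ * (w θ / w θ ^ q ^ 2)
  let F1 : K → K := fun θ => θ ^ q * (θ + ν) ^ (q - 1) *
      ((θ + 1) * ∑ i ∈ range (2 * r ^ 2), θ ^ (2 * q * i))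
  let F2 : K → K := fun θ => θ ^ (q ^ 2 + q) * (θ + ν) ^ (q ^ 2 - 1) *
      ((θ + 1) * ∑ i ∈ range r, θ ^ (2 * q ^ 2 * i))
  have hν1 : 1 + ν ≠ 0 := fun h' => hν (c.eq_of_add _ _ h').symm
  have hne1 : ∀ θ : K, θ ≠ 1 → θ + 1 ≠ 0 := fun θ h h' => h (c.eq_of_add _ _ h')
  have hneν : ∀ θ : K, θ ≠ ν → θ + ν ≠ 0 := fun θ h h' => h (c.eq_of_add _ _ h')
  have hw0 : ∀ θ : K, θ ≠ 1 → θ ≠ ν → w θ ≠ 0 := fun θ h1 h2 =>
    div_ne_zero (hneν θ h2) (pow_ne_zero _ (hne1 θ h1))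
  have hF1 : ∀ θ : K, θ ≠ 1 → θ ≠ ν → f θ ^ q = F1 θ := by
    intro θ h1 h2
    have h3 := c.factor1 θ (hne1 θ h1)
    have h4 : ((θ + 1) ^ 2) ^ (q - 1) ≠ 0 := pow_ne_zero _ (pow_ne_zero _ (hne1 θ h1))
    have h5 : f θ ^ q = θ ^ q * w θ ^ (q - 1) := c.u_pow_q θ (w θ) (hw0 θ h1 h2)
    rw [h5]
    change θ ^ q * ((θ + ν) / (θ + 1) ^ 2) ^ (q - 1) = θ ^ q * (θ + ν) ^ (q - 1) *
      ((θ + 1) * ∑ i ∈ range (2 * r ^ 2), θ ^ (2 * q * i))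
    rw [eq_comm, div_pow, mul_div_assoc', eq_div_iff h4, mul_assoc, h3, mul_one]
  have hF2 : ∀ θ : K, θ ≠ 1 → θ ≠ ν → f θ ^ (q ^ 2 + q) = F2 θ := by
    intro θ h1 h2
    have h3 := c.factor2 θ (hne1 θ h1)
    have h4 : ((θ + 1) ^ 2) ^ (q ^ 2 - 1) ≠ 0 := pow_ne_zero _ (pow_ne_zero _ (hne1 θ h1))
    have h5 : f θ ^ (q ^ 2 + q) = θ ^ (q ^ 2 + q) * w θ ^ (q ^ 2 - 1) :=
      c.u_pow_qq θ (w θ) (hw0 θ h1 h2)
    rw [h5]
    change θ ^ (q ^ 2 + q) * ((θ + ν) / (θ + 1) ^ 2) ^ (q ^ 2 - 1) =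
      θ ^ (q ^ 2 + q) * (θ + ν) ^ (q ^ 2 - 1) * ((θ + 1) * ∑ i ∈ range r, θ ^ (2 * q ^ 2 * i))
    rw [eq_comm, div_pow, mul_div_assoc', eq_div_iff h4, mul_assoc, h3, mul_one]
  have hF11 : F1 1 = 0 := by
    change (1 : K) ^ q * (1 + ν) ^ (q - 1) * ((1 + 1) * _) = 0
    rw [c.add_self, zero_mul, mul_zero]
  have hF21 : F2 1 = 0 := by
    change (1 : K) ^ (q ^ 2 + q) * (1 + ν) ^ (q ^ 2 - 1) * ((1 + 1) * _) = 0
    rw [c.add_self, zero_mul, mul_zero]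
  have hF1ν : F1 ν = 0 := by
    change (ν : K) ^ q * (ν + ν) ^ (q - 1) * _ = 0
    rw [c.add_self, zero_pow (by omega), mul_zero, zero_mul]
  have hF2ν : F2 ν = 0 := by
    change (ν : K) ^ (q ^ 2 + q) * (ν + ν) ^ (q ^ 2 - 1) * _ = 0
    have : q ^ 2 - 1 ≠ 0 := by
      have : 2 ≤ q ^ 2 := by nlinarith
      omega
    rw [c.add_self, zero_pow this, mul_zero, zero_mul]
  have hS : ∑ θ ∈ D M δ, F1 θ = δ * (ν + 1) * (ν + δ) ^ (q - 2) := c.sumSq δ h0 hδ ν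
  have hT : ∑ θ ∈ D M δ, F2 θ = δ * (1 + ν) * ν ^ q * (ν ^ (q + 1) + δ) ^ (q - 2) :=
    c.sumT δ h0 hδ ν
  -- injectivity
  have hinj : ∀ S : Finset K, S ⊆ D M δ → (∀ θ ∈ S, θ ≠ 1) → (∀ θ ∈ S, θ ≠ ν) →
      Set.InjOn f S ∧ ∀ θ ∈ S, f θ ∈ D M δ := by
    intro S hSD h1 h2
    apply bad_symm_inj c 1 ν 1 1 δ (1 + ν) hν1 S hSD τ w
    · intro θ hθ
      exact div_ne_zero (hneν θ (h2 θ hθ)) (hne1 θ (h1 θ hθ))
    · intro θ hθ θ' hθ' h
      have a1 := hne1 θ (h1 θ hθ)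
      have a2 := hne1 θ' (h1 θ' hθ')
      have h' : (θ + ν) / (θ + 1) = (θ' + ν) / (θ' + 1) := h
      rw [div_eq_div_iff a1 a2] at h'
      have h3 : (1 + ν) * (θ + θ') = 0 := by
        linear_combination h' + (ν * θ + θ') * c.two_eq
      rcases mul_eq_zero.mp h3 with h4 | h4
      · exact absurd h4 hν1
      · exact c.eq_of_add _ _ h4
    · intro θ hθ
      exact hw0 θ (h1 θ hθ) (h2 θ hθ)
    · intro θ hθ
      have a1 := hne1 θ (h1 θ hθ)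
      change 1 * ((θ + ν) / (θ + 1)) + 1 * ((θ + ν) / (θ + 1)) ^ 2 =
        (1 + ν) * ((θ + ν) / (θ + 1) ^ 2)
      field_simp
      linear_combination (θ * ν + θ ^ 2) * c.two_eq
    · intro θ hθ
      have a1 := hne1 θ (h1 θ hθ)
      change ν * ((θ + ν) / (θ + 1)) + 1 * ((θ + ν) / (θ + 1)) ^ 2 =
        (1 + ν) * (θ * ((θ + ν) / (θ + 1) ^ 2))
      field_simp
      linear_combination (θ * ν + ν ^ 2) * c.two_eq
    · exact hnb
  have fin1 : ∀ e ∈ D M δ, (∀ θ ∈ (D M δ).erase e, θ ≠ 1) → (∀ θ ∈ (D M δ).erase e, θ ≠ ν) →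
      F1 e = 0 → F2 e = 0 → (δ * (ν + 1) * (ν + δ) ^ (q - 2)) *
      (δ * (1 + ν) * ν ^ q * (ν ^ (q + 1) + δ) ^ (q - 2)) ^ q = δ := by
    intro e he h1 h2 h3 h4
    obtain ⟨i1, i2⟩ := hinj _ (erase_subset e _) h1 h2
    obtain ⟨v, hv, hv'⟩ := concl_one c δ e he f i2 i1
    have e1 := hv' q (not_dvd_q c) F1 (fun θ hθ => hF1 θ (h1 θ hθ) (h2 θ hθ)) h3
    have e2 := hv' (q ^ 2 + q) (not_dvd_qq c) F2 (fun θ hθ => hF2 θ (h1 θ hθ) (h2 θ hθ)) h4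
    rw [hS] at e1
    rw [hT] at e2
    rw [e1, e2, ← pow_mul, ← pow_add]
    have e3 : q + (q ^ 2 + q) * q = q ^ 3 + (q ^ 2 + q) := by ring
    have e4 : M = 1 + (q ^ 2 + q) := by rw [c.hM]; ring
    have e5 : v ^ M = δ := mem_D.mp hv
    rw [e3, pow_add, c.frob]
    rw [e4, pow_add, pow_one] at e5
    exact e5
  by_cases hd : δ = 1
  · by_cases hn : ν ^ M = δ
    · rw [hd] at hn hnb
      exact hnb (case1a_both c ν hn)
    · apply hn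
      rw [hd]
      apply core c δ ν h0 hδ hν _ (Or.inl hd)
      apply fin1 1 (mem_D.mpr (by rw [one_pow, hd]))
      · intro θ hθ
        exact (mem_erase.mp hθ).1
      · intro θ hθ h
        rw [h] at hθ
        exact hn (mem_D.mp (mem_erase.mp hθ).2)
      · exact hF11
      · exact hF21
  · have h1D : ∀ θ ∈ D M δ, θ ≠ 1 := by
      intro θ hθ h
      rw [h, mem_D, one_pow] at hθ
      exact hd hθ.symm
    by_cases hn : ν ^ M = δ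
    · have h5 : ν ^ M = 1 := by
        apply core c δ ν h0 hδ hν _ (Or.inr hn)
        apply fin1 ν (mem_D.mpr hn)
        · intro θ hθ
          exact h1D θ (mem_erase.mp hθ).2
        · intro θ hθ
          exact (mem_erase.mp hθ).1
        · exact hF1ν
        · exact hF2ν
      exact hd (hn.symm.trans h5)
    · have h2D : ∀ θ ∈ D M δ, θ ≠ ν := by
        intro θ hθ h
        rw [h, mem_D] at hθ
        exact hn hθ
      obtain ⟨i1, i2⟩ := hinj _ (Subset.refl _) h1D h2D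
      have z1 := concl_none c δ f i2 i1 q (not_dvd_q c) F1
        (fun θ hθ => hF1 θ (h1D θ hθ) (h2D θ hθ))
      have z2 := concl_none c δ f i2 i1 (q ^ 2 + q) (not_dvd_qq c) F2
        (fun θ hθ => hF2 θ (h1D θ hθ) (h2D θ hθ))
      rw [hS] at z1
      rw [hT] at z2
      have hν1' : ν + 1 ≠ 0 := by rw [add_comm]; exact hν1
      have y1 : ν + δ = 0 := by
        have := (mul_eq_zero.mp z1).resolve_left (mul_ne_zero h0 hν1')
        exact (pow_eq_zero_iff (by omega)).mp this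
      have y2 : ν = δ := c.eq_of_add _ _ y1
      rw [y2] at z2 hν1
      have y3 : δ ^ (q + 1) + δ = 0 := by
        have := (mul_eq_zero.mp z2).resolve_left (mul_ne_zero (mul_ne_zero h0 hν1)
          (pow_ne_zero _ h0))
        exact (pow_eq_zero_iff (by omega)).mp this
      rw [pow_succ, hδ] at y3
      have y4 : δ * (1 + δ) = 0 := by linear_combination y3
      rcases mul_eq_zero.mp y4 with y5 | y5
      · exact h0 y5
      · exact hν1 y5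

end Pool.Agent.R159.AndreCases
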