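import Mathlib
import Pool.Agent.R159.AndreCases

/-!
# Two points of a parabola in one component of the regulus-type net: the special cases
-/

namespace Pool.Agent.R159.AndreCases

open Finset Pool.Agent.R159.NormSums

variable {K : Type} [Field K] [Fintype K] [DecidableEq K]

variable {a r q M : ℕ} (c : Ctx K a r q M)
include c

/-- the common frame of the three special cases: the parameter `θ = 1` is the only exception -/
lemma frame (n₁ n₂ t₁ t₂ δ : K) (h0 : δ ≠ 0) (τ w : K → K)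
    (hτ0 : ∀ θ, θ ≠ 0 → θ ≠ 1 → τ θ ≠ 0)
    (hτi : ∀ θ θ', θ ≠ 0 → θ ≠ 1 → θ' ≠ 0 → θ' ≠ 1 → τ θ = τ θ' → θ = θ')
    (hw : ∀ θ, θ ≠ 0 → θ ≠ 1 → w θ ≠ 0)
    (hX : ∀ θ, θ ≠ 0 → θ ≠ 1 → n₁ * τ θ + t₁ * τ θ ^ 2 = w θ)
    (hY : ∀ θ, θ ≠ 0 → θ ≠ 1 → n₂ * τ θ + t₂ * τ θ ^ 2 = θ * w θ)
    (k₁ : ℕ) (hk₁ : ¬ M ∣ k₁) (G₁ : K → K)
    (hG₁ : δ ≠ 1 → ∀ θ, θ ^ M = δ → θ ≠ 0 → θ ≠ 1 → (θ * (w θ / w θ ^ q ^ 2)) ^ k₁ = G₁ θ)
    (hs₁ : δ ≠ 1 → ∑ θ ∈ D M δ, G₁ θ ≠ 0)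
    (k₂ : ℕ) (hk₂ : ¬ M ∣ k₂) (G₂ : K → K)
    (hG₂ : ∀ θ, θ ^ M = 1 → θ ≠ 0 → θ ≠ 1 → (θ * (w θ / w θ ^ q ^ 2)) ^ k₂ = G₂ θ)
    (hG₂1 : G₂ 1 = 0) (hs₂ : ∑ θ ∈ D M (1 : K), G₂ θ = 0) :
    Bad q M n₁ n₂ t₁ t₂ δ := by
  by_contra hnb
  have hM0 := c.M_pos
  have hinj : ∀ S : Finset K, S ⊆ D M δ → (∀ θ ∈ S, θ ≠ 1) →
      Set.InjOn (fun θ => θ * (w θ / w θ ^ q ^ 2)) S ∧
        ∀ θ ∈ S, θ * (w θ / w θ ^ q ^ 2) ∈ D M δ := by
    intro S hSD h1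
    have hz : ∀ θ ∈ S, θ ≠ 0 := fun θ hθ => Ctx.D_ne_zero hM0 h0 (mem_D.mp (hSD hθ))
    apply bad_symm_inj c n₁ n₂ t₁ t₂ δ 1 one_ne_zero S hSD τ w
    · exact fun θ hθ => hτ0 θ (hz θ hθ) (h1 θ hθ)
    · exact fun θ hθ θ' hθ' => hτi θ θ' (hz θ hθ) (h1 θ hθ) (hz θ' hθ') (h1 θ' hθ')
    · exact fun θ hθ => hw θ (hz θ hθ) (h1 θ hθ)
    · intro θ hθ
      rw [one_mul]
      exact hX θ (hz θ hθ) (h1 θ hθ)
    · intro θ hθ
      rw [one_mul]
      exact hY θ (hz θ hθ) (h1 θ hθ)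
    · exact hnb
  by_cases hd : δ = 1
  · obtain ⟨i1, i2⟩ := hinj _ (erase_subset 1 _) (fun θ hθ => (mem_erase.mp hθ).1)
    obtain ⟨v, hv, hv'⟩ := concl_one c δ 1 (mem_D.mpr (by rw [one_pow, hd])) _ i2 i1
    have e1 := hv' k₂ hk₂ G₂ (by
      intro θ hθ
      have h3 := mem_D.mp (mem_erase.mp hθ).2
      exact hG₂ θ (by rw [h3, hd]) (Ctx.D_ne_zero hM0 h0 h3) (mem_erase.mp hθ).1) hG₂1
    rw [hd, hs₂] at e1
    have h4 : k₂ ≠ 0 := by
      rintro rfl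
      exact hk₂ (dvd_zero _)
    have h5 : v = 0 := (pow_eq_zero_iff h4).mp e1.symm
    exact Ctx.D_ne_zero hM0 h0 (mem_D.mp hv) h5
  · have h1D : ∀ θ ∈ D M δ, θ ≠ 1 := by
      intro θ hθ h
      rw [h, mem_D, one_pow] at hθ
      exact hd hθ.symm
    obtain ⟨i1, i2⟩ := hinj _ (Subset.refl _) h1D
    apply hs₁ hd
    apply concl_none c δ _ i2 i1 k₁ hk₁
    intro θ hθ
    have h3 := mem_D.mp hθ
    exact hG₁ hd θ h3 (Ctx.D_ne_zero hM0 h0 h3) (h1D θ hθ)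

lemma sum_all_zero (δ : K) (N : ℕ) (E : ℕ → ℕ) (h : ∀ i < N, ¬ M ∣ E i) :
    ∑ θ ∈ D M δ, ∑ i ∈ range N, θ ^ E i = 0 := by
  rw [sum_comm]
  apply sum_eq_zero
  intro i hi
  exact c.sum_pow_zero δ _ (h i (mem_range.mp hi))

lemma sum_one_hit (δ : K) (h0 : δ ≠ 0) (hδ : δ ^ q = δ) (N j : ℕ) (hj : j < N) (E : ℕ → ℕ)
    (hE : E j = M) (h : ∀ i < N, i ≠ j → ¬ M ∣ E i) :
    ∑ θ ∈ D M δ, ∑ i ∈ range N, θ ^ E i = δ := by
  rw [sum_comm, sum_eq_single j]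
  · rw [hE]
    have := c.sum_pow_mul δ h0 hδ 1
    rwa [mul_one, pow_one] at this
  · intro i hi hij
    exact c.sum_pow_zero δ _ (h i (mem_range.mp hi) hij)
  · intro h'
    exact absurd (mem_range.mpr hj) h'

omit [DecidableEq K] in
lemma not_dvd_odd (E : ℕ) (h1 : E % 2 = 0) (h2 : 0 < E) (h3 : E < 2 * M) : ¬ M ∣ E := by
  obtain ⟨s, hs⟩ := c.M_odd
  rintro ⟨t, rfl⟩
  have h4 : t < 2 := by
    by_contra h
    have : 2 * M ≤ M * t := by nlinarith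
    omega
  interval_cases t
  · omega
  · omega

omit [Field K] [Fintype K] [DecidableEq K] c in
lemma not_dvd_lt (E : ℕ) (h1 : 0 < E) (h2 : E < M) : ¬ M ∣ E := by
  intro h
  have := Nat.le_of_dvd h1 h
  omega

/-- the case `T = (1:1:0)`, `N = (0:1:0)` -/
lemma case1b (δ : K) (h0 : δ ≠ 0) (hδ : δ ^ q = δ) : Bad q M 0 1 1 1 δ := by
  have hq := c.q_ge
  have hqr := c.hq
  have hr := c.r_ge
  have hM := c.hM
  have two := c.two_eq
  have hne1 : ∀ θ : K, θ ≠ 1 → θ + 1 ≠ 0 := fun θ h h' => h (c.eq_of_add _ _ h')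
  have hsq : ∀ θ : K, (θ + 1) ^ 2 = θ ^ 2 + 1 := by
    intro θ
    linear_combination θ * two
  have hquot : ∀ θ : K, θ ≠ 1 → (1 / (θ + 1) ^ 2) / (1 / (θ + 1) ^ 2) ^ q ^ 2 =
      ((θ + 1) ^ 2) ^ (q ^ 2 - 1) := by
    intro θ h
    have h1 : (θ + 1) ^ 2 ≠ 0 := pow_ne_zero _ (hne1 θ h)
    have h2 : ((θ + 1) ^ 2) ^ q ^ 2 = ((θ + 1) ^ 2) ^ (q ^ 2 - 1) * (θ + 1) ^ 2 := by
      rw [← pow_succ]
      congr 1
      have : 0 < q ^ 2 := by positivity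
      omega
    have h3 : ((θ + 1) ^ 2) ^ q ^ 2 ≠ 0 := pow_ne_zero _ h1
    rw [one_div, inv_pow, div_inv_eq_mul, h2]
    rw [mul_comm (((θ + 1) ^ 2) ^ (q ^ 2 - 1)), ← mul_assoc, inv_mul_cancel₀ h1, one_mul]
  refine frame c 0 1 1 1 δ h0 (fun θ => 1 / (θ + 1)) (fun θ => 1 / (θ + 1) ^ 2)
    ?_ ?_ ?_ ?_ ?_ 1 ?_ (fun θ => ∑ i ∈ range (q ^ 2), θ ^ (2 * i + 1)) ?_ ?_
    (q ^ 2 + 2) ?_ (fun θ => ∑ i ∈ range r, θ ^ (3 * q ^ 2 + 2 + 4 * i) +
      ∑ i ∈ range r, θ ^ (q ^ 2 + 2 + 4 * i)) ?_ ?_ ?_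
  · intro θ _ h
    exact div_ne_zero one_ne_zero (hne1 θ h)
  · intro θ θ' _ h _ h' e
    have h1 := hne1 θ h
    have h2 := hne1 θ' h'
    have e' : 1 / (θ + 1) = 1 / (θ' + 1) := e
    rw [div_eq_div_iff h1 h2] at e'
    linear_combination -e'
  · intro θ _ h
    exact div_ne_zero one_ne_zero (pow_ne_zero _ (hne1 θ h))
  · intro θ _ h
    have h1 := hne1 θ h
    change 0 * (1 / (θ + 1)) + 1 * (1 / (θ + 1)) ^ 2 = 1 / (θ + 1) ^ 2
    field_simp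
    ring
  · intro θ _ h
    have h1 := hne1 θ h
    change 1 * (1 / (θ + 1)) + 1 * (1 / (θ + 1)) ^ 2 = θ * (1 / (θ + 1) ^ 2)
    field_simp
    linear_combination two
  · apply not_dvd_lt
    · omega
    · rw [hM]; nlinarith
  · intro _ θ _ _ h
    rw [hquot θ h, pow_one, hsq]
    have h2 := c.geom (θ ^ 2) 1 (2 * a + 2)
    rw [← c.q_sq] at h2
    rw [h2, mul_sum]
    apply sum_congr rfl
    intro i _
    rw [one_pow, mul_one, ← pow_mul, ← pow_succ']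
  · intro _
    have hj : q * r + r < q ^ 2 := by rw [hqr]; nlinarith
    rw [sum_one_hit c δ h0 hδ (q ^ 2) (q * r + r) hj (fun i => 2 * i + 1)]
    · exact h0
    · rw [hM, hqr]; ring
    · intro i hi hne hdvd
      have hdvd' : M ∣ 2 * i + 1 := hdvd
      obtain ⟨t, ht⟩ := hdvd'
      have hM2 : M = 2 * (q * r + r) + 1 := by rw [hM, hqr]; ring
      have h4 : t < 2 := by
        by_contra h
        have h6 : 2 * M ≤ M * t := by nlinarith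
        rw [← ht, hM] at h6
        omega
      interval_cases t
      · omega
      · omega
  · apply not_dvd_lt
    · omega
    · rw [hM]; omega
  · intro θ _ _ h
    rw [hquot θ h]
    have hs0 := hne1 θ h
    have h3 : (((θ + 1) ^ 2) ^ (q ^ 2 - 1)) ^ (q ^ 2 + 2) =
        (θ + 1) ^ (2 * q ^ 2) * ((θ + 1) ^ 4) ^ (r - 1) := by
      obtain ⟨t, ht⟩ : ∃ t, r = t + 1 := ⟨r - 1, by omega⟩
      obtain ⟨s, hs⟩ : ∃ s, q ^ 2 = s + 1 := ⟨q ^ 2 - 1, by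
        have : 0 < q ^ 2 := by positivity
        omega⟩
      obtain ⟨v, hv⟩ : ∃ v, q ^ 3 = v + 1 := ⟨q ^ 3 - 1, by
        have : 0 < q ^ 3 := by positivity
        omega⟩
      have h4 : (θ + 1) ^ v = 1 := by
        have := c.pow_last (θ + 1) hs0
        rwa [hv, Nat.add_sub_cancel] at this
      rw [← pow_mul, ← pow_mul, ← pow_mul, ← pow_add]
      have h5 : 2 * (q ^ 2 - 1) * (q ^ 2 + 2) = v * (2 * q) + (2 * q ^ 2 + 4 * (r - 1)) := by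
        have e1 : q ^ 2 - 1 = s := by omega
        have e2 : r - 1 = t := by omega
        rw [e1, e2]
        have e3 : v * (2 * q) + 2 * q = 2 * q ^ 4 := by
          have : v * (2 * q) + 2 * q = (v + 1) * (2 * q) := by ring
          rw [this, ← hv]
          ring
        have e4 : 2 * q = 4 * t + 4 := by rw [hqr, ht]; ring
        have e5 : 2 * q ^ 4 = 2 * (s + 1) * (s + 1) := by
          have : q ^ 4 = q ^ 2 * q ^ 2 := by ring
          rw [this, hs]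
          ring
        have e6 : 2 * s * (q ^ 2 + 2) + 2 * q = 2 * q ^ 4 + (2 * q ^ 2 + 4 * t) := by
          rw [e5, e4, hs]
          ring
        omega
      rw [← mul_assoc, h5, pow_add, pow_mul, h4, one_pow, one_mul]
    rw [mul_pow, h3]
    have h6 : (θ + 1) ^ 4 = θ ^ 4 + 1 := by
      linear_combination (2 * θ ^ 3 + 3 * θ ^ 2 + 2 * θ) * two
    have h7 : (θ + 1) ^ (2 * q ^ 2) = θ ^ (2 * q ^ 2) + 1 := by
      have h8 := c.add_pow_two_pow θ 1 (2 * a + 3)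
      have h9 : 2 ^ (2 * a + 3) = 2 * q ^ 2 := by rw [c.q_sq, pow_succ 2 (2 * a + 2)]; ring
      rwa [h9, one_pow] at h8
    have h8 := c.geom (θ ^ 4) 1 a
    rw [← c.hr] at h8
    rw [h6, h7, h8, mul_sum, mul_sum, ← sum_add_distrib]
    apply sum_congr rfl
    intro i _
    rw [one_pow, mul_one, ← pow_mul]
    have e1 : 3 * q ^ 2 + 2 + 4 * i = (q ^ 2 + 2) + (2 * q ^ 2 + 4 * i) := by ring
    rw [e1, pow_add, pow_add, pow_add]
    ring
  · simp only [one_pow]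
    exact c.add_self _
  · rw [sum_add_distrib, sum_all_zero c 1 r (fun i => 3 * q ^ 2 + 2 + 4 * i),
      sum_all_zero c 1 r (fun i => q ^ 2 + 2 + 4 * i), add_zero]
    · intro i hi
      apply not_dvd_odd c
      · have : q ^ 2 = 2 * (r * q) := by rw [hqr]; ring
        omega
      · omega
      · rw [hM]; omega
    · intro i hi
      apply Ctx.not_dvd_between 2
      · rw [hM]; nlinarith
      · rw [hM]; omega

/-- the case `T = (1:0:0)` -/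
lemma case2 (δ : K) (h0 : δ ≠ 0) (hδ : δ ^ q = δ) : Bad q M 1 1 1 0 δ := by
  have hq := c.q_ge
  have hqr := c.hq
  have hr := c.r_ge
  have hM := c.hM
  have two := c.two_eq
  have hne1 : ∀ θ : K, θ ≠ 1 → θ + 1 ≠ 0 := fun θ h h' => h (c.eq_of_add _ _ h')
  have hsq : ∀ θ : K, (θ + 1) ^ 2 = θ ^ 2 + 1 := by
    intro θ
    linear_combination θ * two
  refine frame c 1 1 1 0 δ h0 (fun θ => (θ + 1) / θ) (fun θ => (θ + 1) / θ ^ 2)
    ?_ ?_ ?_ ?_ ?_ q ?_ (fun θ => δ⁻¹ * ∑ i ∈ range q, θ ^ (q ^ 2 + 3 + i)) ?_ ?_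
    ((q ^ 2 + q) + q) ?_ (fun θ => ∑ i ∈ range r, θ ^ (q ^ 2 + q + 5 + 2 * i) +
      ∑ i ∈ range r, θ ^ (q + 5 + 2 * i)) ?_ ?_ ?_
  · intro θ h0' h
    exact div_ne_zero (hne1 θ h) h0'
  · intro θ θ' g h g' h' e
    have e' : (θ + 1) / θ = (θ' + 1) / θ' := e
    rw [div_eq_div_iff g g'] at e'
    linear_combination -e'
  · intro θ g h
    exact div_ne_zero (hne1 θ h) (pow_ne_zero _ g)
  · intro θ g h
    have h1 := hne1 θ h
    change 1 * ((θ + 1) / θ) + 1 * ((θ + 1) / θ) ^ 2 = (θ + 1) / θ ^ 2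
    field_simp
    linear_combination θ * two
  · intro θ g h
    have h1 := hne1 θ h
    change 1 * ((θ + 1) / θ) + 0 * ((θ + 1) / θ) ^ 2 = θ * ((θ + 1) / θ ^ 2)
    field_simp
    ring
  · exact not_dvd_q c
  · intro _ θ hθ g h
    have hw : (θ + 1) / θ ^ 2 ≠ 0 := div_ne_zero (hne1 θ h) (pow_ne_zero _ g)
    have e1 := c.u_pow_q θ _ hw
    change (θ * (((θ + 1) / θ ^ 2) / ((θ + 1) / θ ^ 2) ^ q ^ 2)) ^ q = _
    rw [e1]
    have h2 := c.geom θ 1 (a + 1)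
    rw [← c.q_pow] at h2
    have h3 : ∑ i ∈ range q, θ ^ (q ^ 2 + 3 + i) = θ ^ (q ^ 2 + 3) * (θ + 1) ^ (q - 1) := by
      rw [h2, mul_sum]
      apply sum_congr rfl
      intro i _
      rw [one_pow, mul_one, ← pow_add]
    change _ = δ⁻¹ * ∑ i ∈ range q, θ ^ (q ^ 2 + 3 + i)
    rw [h3, eq_inv_mul_iff_mul_eq₀ h0, ← hθ, div_pow]
    have h4 : (θ ^ 2) ^ (q - 1) ≠ 0 := pow_ne_zero _ (pow_ne_zero _ g)
    rw [mul_div_assoc', mul_div_assoc', div_eq_iff h4]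
    have h5 : θ ^ M * θ ^ q = θ ^ (q ^ 2 + 3) * (θ ^ 2) ^ (q - 1) := by
      rw [← pow_mul, ← pow_add, ← pow_add, hM]
      congr 1
      omega
    linear_combination (θ + 1) ^ (q - 1) * h5
  · intro _
    rw [← mul_sum]
    apply mul_ne_zero (inv_ne_zero h0)
    rw [sum_one_hit c δ h0 hδ q (q - 2) (by omega) (fun i => q ^ 2 + 3 + i)]
    · exact h0
    · rw [hM]; omega
    · intro i hi hne
      rcases Nat.lt_or_gt_of_ne hne with h1 | h1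
      · apply not_dvd_lt
        · omega
        · rw [hM]; omega
      · apply Ctx.not_dvd_between 1
        · rw [hM]; omega
        · rw [hM]; nlinarith
  · apply Ctx.not_dvd_between 1
    · rw [hM]; omega
    · rw [hM]; nlinarith
  · intro θ hθ g h
    have hw : (θ + 1) / θ ^ 2 ≠ 0 := div_ne_zero (hne1 θ h) (pow_ne_zero _ g)
    have e1 := c.u_pow_q θ _ hw
    have e2 := c.u_pow_qq θ _ hw
    change (θ * (((θ + 1) / θ ^ 2) / ((θ + 1) / θ ^ 2) ^ q ^ 2)) ^ ((q ^ 2 + q) + q) = _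
    rw [pow_add, e1, e2]
    have h2 := c.geom (θ ^ 2) 1 a
    rw [← c.hr] at h2
    have hqq : (θ + 1) ^ q ^ 2 = θ ^ q ^ 2 + 1 := by
      rw [frob2 c, one_pow]
    change _ = ∑ i ∈ range r, θ ^ (q ^ 2 + q + 5 + 2 * i) + ∑ i ∈ range r, θ ^ (q + 5 + 2 * i)
    have h3 : ∑ i ∈ range r, θ ^ (q ^ 2 + q + 5 + 2 * i) + ∑ i ∈ range r, θ ^ (q + 5 + 2 * i) =
        θ ^ (q + 5) * ((θ + 1) ^ q ^ 2 * ((θ + 1) ^ 2) ^ (r - 1)) := by
      rw [hqq, hsq, h2, mul_sum, mul_sum, ← sum_add_distrib]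
      apply sum_congr rfl
      intro i _
      rw [one_pow, mul_one, ← pow_mul]
      have e3 : q ^ 2 + q + 5 + 2 * i = (q + 5) + (q ^ 2 + 2 * i) := by ring
      rw [e3, pow_add, pow_add, pow_add]
      ring
    rw [h3, div_pow, div_pow]
    have h4 : (θ ^ 2) ^ (q - 1) ≠ 0 := pow_ne_zero _ (pow_ne_zero _ g)
    have h4' : (θ ^ 2) ^ (q ^ 2 - 1) ≠ 0 := pow_ne_zero _ (pow_ne_zero _ g)
    rw [mul_div_assoc', mul_div_assoc', div_mul_div_comm, div_eq_iff (mul_ne_zero h4' h4)]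
    obtain ⟨s, hs⟩ : ∃ s, q ^ 2 = s + 1 := ⟨q ^ 2 - 1, by
      have : 0 < q ^ 2 := by positivity
      omega⟩
    have h5 : θ ^ (q ^ 2 + q) * θ ^ q * θ ^ M =
        θ ^ (q + 5) * ((θ ^ 2) ^ (q ^ 2 - 1) * (θ ^ 2) ^ (q - 1)) := by
      rw [← pow_mul, ← pow_mul, ← pow_add, ← pow_add, ← pow_add, ← pow_add, hM]
      congr 1
      omega
    rw [hθ, mul_one] at h5
    have h6 : (θ + 1) ^ (q ^ 2 - 1) * (θ + 1) ^ (q - 1) =
        (θ + 1) ^ q ^ 2 * ((θ + 1) ^ 2) ^ (r - 1) := by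
      rw [← pow_mul, ← pow_add, ← pow_add]
      congr 1
      omega
    rw [← h6]
    linear_combination (θ + 1) ^ (q ^ 2 - 1) * (θ + 1) ^ (q - 1) * h5
  · simp only [one_pow]
    exact c.add_self _
  · rw [sum_add_distrib, sum_all_zero c 1 r (fun i => q ^ 2 + q + 5 + 2 * i),
      sum_all_zero c 1 r (fun i => q + 5 + 2 * i), add_zero]
    · intro i hi
      apply not_dvd_lt
      · omega
      · rw [hM]; nlinarith
    · intro i hi
      apply Ctx.not_dvd_between 1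
      · rw [hM]; omega
      · rw [hM]; nlinarith

/-- the case `T = (0:1:0)` -/
lemma case3 (δ : K) (h0 : δ ≠ 0) (hδ : δ ^ q = δ) : Bad q M 1 1 0 1 δ := by
  have hq := c.q_ge
  have hqr := c.hq
  have hr := c.r_ge
  have hM := c.hM
  have two := c.two_eq
  have hne1 : ∀ θ : K, θ ≠ 1 → θ + 1 ≠ 0 := fun θ h h' => h (c.eq_of_add _ _ h')
  refine frame c 1 1 0 1 δ h0 (fun θ => θ + 1) (fun θ => θ + 1)
    ?_ ?_ ?_ ?_ ?_ (q ^ 2 + q) ?_ (fun θ => ∑ i ∈ range (q ^ 2), θ ^ (q ^ 2 + q + i)) ?_ ?_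
    q ?_ (fun θ => ∑ i ∈ range q, θ ^ (q + i)) ?_ ?_ ?_
  · intro θ _ h
    exact hne1 θ h
  · intro θ θ' _ h _ h' e
    have e' : θ + 1 = θ' + 1 := e
    exact add_right_cancel e'
  · intro θ _ h
    exact hne1 θ h
  · intro θ _ h
    ring
  · intro θ _ h
    linear_combination (θ + 1) * two
  · exact not_dvd_qq c
  · intro _ θ _ _ h
    have e1 := c.u_pow_qq θ _ (hne1 θ h)
    change (θ * ((θ + 1) / (θ + 1) ^ q ^ 2)) ^ (q ^ 2 + q) = _
    rw [e1]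
    have h2 := c.geom θ 1 (2 * a + 2)
    rw [← c.q_sq] at h2
    rw [h2, mul_sum]
    apply sum_congr rfl
    intro i _
    rw [one_pow, mul_one, ← pow_add]
  · intro _
    rw [sum_one_hit c δ h0 hδ (q ^ 2) 1 (by nlinarith) (fun i => q ^ 2 + q + i)]
    · exact h0
    · rw [hM]
    · intro i hi hne
      rcases Nat.lt_or_gt_of_ne hne with h1 | h1
      · apply not_dvd_lt
        · nlinarith
        · rw [hM]; omega
      · apply Ctx.not_dvd_between 1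
        · rw [hM]; omega
        · rw [hM]; omega
  · exact not_dvd_q c
  · intro θ _ _ h
    have e1 := c.u_pow_q θ _ (hne1 θ h)
    change (θ * ((θ + 1) / (θ + 1) ^ q ^ 2)) ^ q = _
    rw [e1]
    have h2 := c.geom θ 1 (a + 1)
    rw [← c.q_pow] at h2
    rw [h2, mul_sum]
    apply sum_congr rfl
    intro i _
    rw [one_pow, mul_one, ← pow_add]
  · simp only [one_pow, sum_const, card_range, nsmul_eq_mul, mul_one]
    rw [hqr]
    push_cast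
    rw [two, zero_mul]
  · rw [sum_all_zero c 1 q (fun i => q + i)]
    intro i hi
    apply not_dvd_lt
    · omega
    · rw [hM]; nlinarith

end Pool.Agent.R159.AndreCases
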