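import Mathlib
import Pool.Agent.R159.AndreCases2

/-!
# Two points of a parabola in one component: the general statement
-/

namespace Pool.Agent.R159.AndreCases

open Finset Pool.Agent.R159.NormSums

variable {K : Type} [Field K] [Fintype K] [DecidableEq K]

variable {a r q M : ℕ} (c : Ctx K a r q M)
include c

omit [DecidableEq K] in
lemma norm_frob2 (w : K) : (w ^ M) ^ q ^ 2 = w ^ M := by
  rw [sq, pow_mul, c.norm_frob, c.norm_frob]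

omit [DecidableEq K] in
lemma scale (n₁ n₂ t₁ t₂ δ κ l ρ : K) (hκ : κ ≠ 0) (hl : l ≠ 0) (hρ : ρ ≠ 0)
    (h : Bad q M (κ * ρ * n₁) (l * ρ * n₂) (κ * ρ ^ 2 * t₁) (l * ρ ^ 2 * t₂)
      (δ * l ^ M / κ ^ M)) : Bad q M n₁ n₂ t₁ t₂ δ := by
  obtain ⟨u, hu, τ₁, τ₂, h1, h2, h12, e1, e2⟩ := h
  have hκM : κ ^ M ≠ 0 := pow_ne_zero _ hκ
  have hlM : l ^ M ≠ 0 := pow_ne_zero _ hl
  refine ⟨κ ^ q ^ 2 * u / l, ?_, ρ * τ₁, ρ * τ₂, mul_ne_zero hρ h1, mul_ne_zero hρ h2, ?_, ?_, ?_⟩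
  · rw [div_pow, mul_pow, hu, ← pow_mul, mul_comm (q ^ 2) M, pow_mul, norm_frob2 c]
    field_simp
  · intro h'
    exact h12 (mul_left_cancel₀ hρ h')
  · rw [mul_div_assoc', eq_div_iff hl]
    have e3 : n₁ * (ρ * τ₁) + t₁ * (ρ * τ₁) ^ 2 =
        (κ * ρ * n₁ * τ₁ + κ * ρ ^ 2 * t₁ * τ₁ ^ 2) / κ := by
      field_simp
    rw [e3, div_pow]
    have hκq : κ ^ q ^ 2 ≠ 0 := pow_ne_zero _ hκ
    field_simp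
    linear_combination e1
  · rw [mul_div_assoc', eq_div_iff hl]
    have e3 : n₁ * (ρ * τ₂) + t₁ * (ρ * τ₂) ^ 2 =
        (κ * ρ * n₁ * τ₂ + κ * ρ ^ 2 * t₁ * τ₂ ^ 2) / κ := by
      field_simp
    rw [e3, div_pow]
    have hκq : κ ^ q ^ 2 ≠ 0 := pow_ne_zero _ hκ
    field_simp
    linear_combination e2

/-- components `y = x^(q^2) u` -/
theorem bad_all (n₁ n₂ t₁ t₂ δ : K) (h0 : δ ≠ 0) (hδ : δ ^ q = δ)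
    (hΔ : n₁ * t₂ + n₂ * t₁ ≠ 0) (h1 : ¬ (t₂ = 0 ∧ n₁ = 0)) (h2 : ¬ (t₁ = 0 ∧ n₂ = 0)) :
    Bad q M n₁ n₂ t₁ t₂ δ := by
  have key : ∀ κ l : K, κ ≠ 0 → l ≠ 0 → δ * l ^ M / κ ^ M ≠ 0 ∧
      (δ * l ^ M / κ ^ M) ^ q = δ * l ^ M / κ ^ M := by
    intro κ l hκ hl
    refine ⟨div_ne_zero (mul_ne_zero h0 (pow_ne_zero _ hl)) (pow_ne_zero _ hκ), ?_⟩
    rw [div_pow, mul_pow, hδ, c.norm_frob, c.norm_frob]
  by_cases ht2 : t₂ = 0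
  · have hn1 : n₁ ≠ 0 := fun h => h1 ⟨ht2, h⟩
    subst ht2
    have hnt : n₂ * t₁ ≠ 0 := by rwa [mul_zero, zero_add] at hΔ
    have hn2 : n₂ ≠ 0 := left_ne_zero_of_mul hnt
    have ht1 : t₁ ≠ 0 := right_ne_zero_of_mul hnt
    have hρ : n₁ / t₁ ≠ 0 := div_ne_zero hn1 ht1
    have hκ : 1 / (n₁ / t₁ * n₁) ≠ 0 := div_ne_zero one_ne_zero (mul_ne_zero hρ hn1)
    have hl : 1 / (n₁ / t₁ * n₂) ≠ 0 := div_ne_zero one_ne_zero (mul_ne_zero hρ hn2)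
    apply scale c n₁ n₂ t₁ 0 δ _ _ _ hκ hl hρ
    have e1 : 1 / (n₁ / t₁ * n₁) * (n₁ / t₁) * n₁ = 1 := by field_simp
    have e2 : 1 / (n₁ / t₁ * n₂) * (n₁ / t₁) * n₂ = 1 := by field_simp
    have e3 : 1 / (n₁ / t₁ * n₁) * (n₁ / t₁) ^ 2 * t₁ = 1 := by field_simp
    rw [e1, e2, e3, mul_zero]
    exact case2 c _ (key _ _ hκ hl).1 (key _ _ hκ hl).2
  by_cases ht1 : t₁ = 0
  · have hn2 : n₂ ≠ 0 := fun h => h2 ⟨ht1, h⟩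
    subst ht1
    have hnt : n₁ * t₂ ≠ 0 := by rwa [mul_zero, add_zero] at hΔ
    have hn1 : n₁ ≠ 0 := left_ne_zero_of_mul hnt
    have hρ : n₂ / t₂ ≠ 0 := div_ne_zero hn2 ht2
    have hκ : 1 / (n₂ / t₂ * n₁) ≠ 0 := div_ne_zero one_ne_zero (mul_ne_zero hρ hn1)
    have hl : 1 / (n₂ / t₂ * n₂) ≠ 0 := div_ne_zero one_ne_zero (mul_ne_zero hρ hn2)
    apply scale c n₁ n₂ 0 t₂ δ _ _ _ hκ hl hρ
    have e1 : 1 / (n₂ / t₂ * n₁) * (n₂ / t₂) * n₁ = 1 := by field_simp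
    have e2 : 1 / (n₂ / t₂ * n₂) * (n₂ / t₂) * n₂ = 1 := by field_simp
    have e3 : 1 / (n₂ / t₂ * n₂) * (n₂ / t₂) ^ 2 * t₂ = 1 := by field_simp
    rw [e1, e2, e3, mul_zero]
    exact case3 c _ (key _ _ hκ hl).1 (key _ _ hκ hl).2
  by_cases hn1 : n₁ = 0
  · subst hn1
    have hnt : n₂ * t₁ ≠ 0 := by rwa [zero_mul, zero_add] at hΔ
    have hn2 : n₂ ≠ 0 := left_ne_zero_of_mul hnt
    have hρ : n₂ / t₂ ≠ 0 := div_ne_zero hn2 ht2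
    have hκ : 1 / ((n₂ / t₂) ^ 2 * t₁) ≠ 0 :=
      div_ne_zero one_ne_zero (mul_ne_zero (pow_ne_zero _ hρ) ht1)
    have hl : 1 / ((n₂ / t₂) ^ 2 * t₂) ≠ 0 :=
      div_ne_zero one_ne_zero (mul_ne_zero (pow_ne_zero _ hρ) ht2)
    apply scale c 0 n₂ t₁ t₂ δ _ _ _ hκ hl hρ
    have e1 : 1 / ((n₂ / t₂) ^ 2 * t₂) * (n₂ / t₂) * n₂ = 1 := by field_simp
    have e2 : 1 / ((n₂ / t₂) ^ 2 * t₁) * (n₂ / t₂) ^ 2 * t₁ = 1 := by field_simp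
    have e3 : 1 / ((n₂ / t₂) ^ 2 * t₂) * (n₂ / t₂) ^ 2 * t₂ = 1 := by field_simp
    rw [e1, e2, e3, mul_zero]
    exact case1b c _ (key _ _ hκ hl).1 (key _ _ hκ hl).2
  · have hρ : n₁ / t₁ ≠ 0 := div_ne_zero hn1 ht1
    have hκ : t₁ / n₁ ^ 2 ≠ 0 := div_ne_zero ht1 (pow_ne_zero _ hn1)
    have hl : t₁ ^ 2 / (n₁ ^ 2 * t₂) ≠ 0 :=
      div_ne_zero (pow_ne_zero _ ht1) (mul_ne_zero (pow_ne_zero _ hn1) ht2)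
    apply scale c n₁ n₂ t₁ t₂ δ _ _ _ hκ hl hρ
    have e1 : t₁ / n₁ ^ 2 * (n₁ / t₁) * n₁ = 1 := by field_simp
    have e2 : t₁ ^ 2 / (n₁ ^ 2 * t₂) * (n₁ / t₁) * n₂ = t₁ * n₂ / (n₁ * t₂) := by field_simp
    have e3 : t₁ / n₁ ^ 2 * (n₁ / t₁) ^ 2 * t₁ = 1 := by field_simp
    have e4 : t₁ ^ 2 / (n₁ ^ 2 * t₂) * (n₁ / t₁) ^ 2 * t₂ = 1 := by field_simp
    rw [e1, e2, e3, e4]
    apply case1a c _ _ (key _ _ hκ hl).1 (key _ _ hκ hl).2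
    intro h
    rw [div_eq_one_iff_eq (mul_ne_zero hn1 ht2)] at h
    apply hΔ
    linear_combination h + (n₁ * t₂) * c.two_eq

/-- components `y = x^(q^m) u` for `m = 1, 2` -/
theorem bad_both (m : ℕ) (hm : m = 1 ∨ m = 2) (n₁ n₂ t₁ t₂ δ : K) (h0 : δ ≠ 0) (hδ : δ ^ q = δ)
    (hΔ : n₁ * t₂ + n₂ * t₁ ≠ 0) (h1 : ¬ (t₂ = 0 ∧ n₁ = 0)) (h2 : ¬ (t₁ = 0 ∧ n₂ = 0)) :
    ∃ u : K, u ^ M = δ ∧ ∃ τ₁ τ₂ : K, τ₁ ≠ 0 ∧ τ₂ ≠ 0 ∧ τ₁ ≠ τ₂ ∧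
      n₂ * τ₁ + t₂ * τ₁ ^ 2 = (n₁ * τ₁ + t₁ * τ₁ ^ 2) ^ (q ^ m) * u ∧
      n₂ * τ₂ + t₂ * τ₂ ^ 2 = (n₁ * τ₂ + t₁ * τ₂ ^ 2) ^ (q ^ m) * u := by
  rcases hm with rfl | rfl
  · have hb : Bad q M n₂ n₁ t₂ t₁ δ⁻¹ := by
      apply bad_all c
      · exact inv_ne_zero h0
      · rw [inv_pow, hδ]
      · intro h
        apply hΔ
        linear_combination h
      · exact h2
      · exact h1
    obtain ⟨v, hv, τ₁, τ₂, g1, g2, g12, e1, e2⟩ := hb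
    have hv0 : v ≠ 0 := Ctx.D_ne_zero c.M_pos (inv_ne_zero h0) hv
    refine ⟨(v ^ q)⁻¹, ?_, τ₁, τ₂, g1, g2, g12, ?_, ?_⟩
    · rw [inv_pow, ← pow_mul, mul_comm, pow_mul, hv, inv_pow, hδ, inv_inv]
    · rw [e1, pow_one, mul_pow, ← pow_mul, ← pow_succ, c.frob, mul_assoc,
        mul_inv_cancel₀ (pow_ne_zero _ hv0), mul_one]
    · rw [e2, pow_one, mul_pow, ← pow_mul, ← pow_succ, c.frob, mul_assoc,
        mul_inv_cancel₀ (pow_ne_zero _ hv0), mul_one]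
  · exact bad_all c n₁ n₂ t₁ t₂ δ h0 hδ hΔ h1 h2

end Pool.Agent.R159.AndreCases
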