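import Mathlib

/-!
# Intersecting `r`-partite hypergraphs and non-trivial vertex covers: definitions

The sides are finite types `V i`, `i : Fin r`; the vertices are the elements of `Σ i, V i`, and
an edge is a choice `e : ∀ i, V i` of one vertex on each side.
-/

namespace Pool.Agent.R159.RPartite

variable {r : ℕ} {V : Fin r → Type}

/-- Every vertex lies in an edge. -/
def Spanned (H : Set (∀ i, V i)) : Prop := ∀ (i : Fin r) (v : V i), ∃ e ∈ H, e i = v

/-- Any two edges share a vertex. -/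
def Intersecting (H : Set (∀ i, V i)) : Prop := ∀ e ∈ H, ∀ g ∈ H, ∃ i, e i = g i

/-- `C` is a non-trivial vertex cover: it meets every edge, contains no edge and no side. -/
def NTCover (H : Set (∀ i, V i)) (C : Finset (Σ i, V i)) : Prop :=
  (∀ e ∈ H, ∃ i, (⟨i, e i⟩ : Σ i, V i) ∈ C) ∧
  (∀ e ∈ H, ∃ i, (⟨i, e i⟩ : Σ i, V i) ∉ C) ∧
  (∀ i, ∃ v : V i, (⟨i, v⟩ : Σ i, V i) ∉ C)

/-- The least size of a non-trivial vertex cover. -/
noncomputable def tauStar (H : Set (∀ i, V i)) : ℕ∞ :=
  ⨅ (C : Finset (Σ i, V i)) (_ : NTCover H C), (C.card : ℕ∞)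

end Pool.Agent.R159.RPartite
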