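import Mathlib

namespace R159.RangeSum

open Polynomial Finset

section general

variable {K : Type*} [Field K] {p : ℕ} [CharP K p]

lemma deriv_coeff_ne (p : ℕ) [CharP K p] (f : K[X]) (h1 : 1 ≤ f.natDegree) (h2 : f.natDegree < p) :
    (derivative f).coeff (f.natDegree - 1) ≠ 0 := by
  rw [coeff_derivative]
  have e1 : f.natDegree - 1 + 1 = f.natDegree := Nat.sub_add_cancel h1
  have e2 : ((f.natDegree - 1 : ℕ) : K) + 1 = ((f.natDegree : ℕ) : K) := by
    rw [← Nat.cast_succ, Nat.succ_eq_add_one, e1]
  rw [e1, e2]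
  apply mul_ne_zero
  · intro h
    have h3 : f = 0 := leadingCoeff_eq_zero.mp h
    rw [h3] at h1
    simp at h1
  · intro h
    rw [CharP.cast_eq_zero_iff K p] at h
    exact absurd (Nat.le_of_dvd h1 h) (by omega)

lemma natDegree_deriv (p : ℕ) [CharP K p] (f : K[X]) (h1 : 1 ≤ f.natDegree)
    (h2 : f.natDegree < p) :
    (derivative f).natDegree = f.natDegree - 1 :=
  natDegree_eq_of_le_of_coeff_ne_zero (natDegree_derivative_le f) (deriv_coeff_ne p f h1 h2)

lemma natDegree_of_deriv_zero (p : ℕ) [CharP K p] (f : K[X]) (h2 : f.natDegree < p)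
    (h : derivative f = 0) : f.natDegree = 0 := by
  by_contra hne
  exact deriv_coeff_ne p f (by omega) h2 (by rw [h]; simp)

lemma deriv_of_natDegree_zero (f : K[X]) (h : f.natDegree = 0) : derivative f = 0 := by
  rw [eq_C_of_natDegree_eq_zero h]; simp

lemma natDegree_deriv_mul_le (f g : K[X]) {n : ℕ} (h : f.natDegree + g.natDegree ≤ n + 1) :
    (derivative f * g).natDegree ≤ n := by
  by_cases h0 : f.natDegree = 0
  · rw [deriv_of_natDegree_zero f h0]; simp
  · have h1 := natDegree_derivative_lt h0
    have h2 := natDegree_mul_le (p := derivative f) (q := g)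
    omega

lemma wronsk (p : ℕ) [CharP K p] (f k : K[X]) (hk : k ≠ 0) (h1 : k.natDegree < f.natDegree)
    (h2 : f.natDegree < p) (h : derivative f * k = f * derivative k) : False := by
  have hf : f ≠ 0 := by
    rintro rfl
    simp at h1
  have c1 : (derivative f * k).coeff (f.natDegree - 1 + k.natDegree)
      = (derivative f).coeff (f.natDegree - 1) * k.coeff k.natDegree :=
    coeff_mul_add_eq_of_natDegree_le (natDegree_derivative_le f) le_rfl
  have hlk : k.coeff k.natDegree ≠ 0 := fun h3 => hk (leadingCoeff_eq_zero.mp h3)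
  have hlf : f.coeff f.natDegree ≠ 0 := fun h3 => hf (leadingCoeff_eq_zero.mp h3)
  by_cases hm : k.natDegree = 0
  · rw [h, deriv_of_natDegree_zero k hm] at c1
    simp only [mul_zero, coeff_zero] at c1
    exact mul_ne_zero (deriv_coeff_ne p f (by omega) h2) hlk c1.symm
  · have c2 : (f * derivative k).coeff (f.natDegree + (k.natDegree - 1))
      = f.coeff f.natDegree * (derivative k).coeff (k.natDegree - 1) :=
      coeff_mul_add_eq_of_natDegree_le le_rfl (natDegree_derivative_le k)
    have e1 : f.natDegree - 1 + 1 = f.natDegree := by omega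
    have e2 : ((f.natDegree - 1 : ℕ) : K) + 1 = ((f.natDegree : ℕ) : K) := by
      rw [← Nat.cast_succ, Nat.succ_eq_add_one, e1]
    have e3 : k.natDegree - 1 + 1 = k.natDegree := by omega
    have e4 : ((k.natDegree - 1 : ℕ) : K) + 1 = ((k.natDegree : ℕ) : K) := by
      rw [← Nat.cast_succ, Nat.succ_eq_add_one, e3]
    rw [coeff_derivative, e1, e2, h] at c1
    rw [coeff_derivative, e3, e4] at c2
    have e5 : f.natDegree - 1 + k.natDegree = f.natDegree + (k.natDegree - 1) := by omega
    rw [e5, c2] at c1
    have e6 : ((f.natDegree : ℕ) : K) = ((k.natDegree : ℕ) : K) := by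
      have : f.coeff f.natDegree * k.coeff k.natDegree
          * (((k.natDegree : ℕ) : K) - ((f.natDegree : ℕ) : K)) = 0 := by
        linear_combination c1
      rcases mul_eq_zero.mp this with h4 | h4
      · exact absurd h4 (mul_ne_zero hlf hlk)
      · exact (sub_eq_zero.mp h4).symm
    have e7 : ((f.natDegree - k.natDegree : ℕ) : K) = 0 := by
      rw [Nat.cast_sub h1.le, e6, sub_self]
    rw [CharP.cast_eq_zero_iff K p] at e7
    exact absurd (Nat.le_of_dvd (by omega) e7) (by omega)

end general

section zm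

variable {p : ℕ} [Fact p.Prime]

lemma prod_all : ∏ a : ZMod p, (X - C a) = (X ^ p - X : (ZMod p)[X]) := by
  have h := FiniteField.roots_X_pow_card_sub_X (ZMod p)
  rw [ZMod.card] at h
  have h2 : (X ^ p - X : (ZMod p)[X]).natDegree = p :=
    FiniteField.X_pow_card_sub_X_natDegree_eq (ZMod p) (Fact.out : p.Prime).one_lt
  have h3 : (X ^ p - X : (ZMod p)[X]).Monic := by
    apply monic_X_pow_sub
    rw [degree_X]
    exact_mod_cast (Fact.out : p.Prime).one_lt
  have h4 := prod_multiset_X_sub_C_of_monic_of_roots_card_eq h3 (by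
    rw [h2, h]
    simp [ZMod.card])
  rw [← h4, h]
  rfl

lemma deriv_Xp : derivative (X ^ p - X : (ZMod p)[X]) = -1 := by
  rw [derivative_sub, derivative_X_pow, derivative_X, CharP.cast_eq_zero]
  simp

lemma sum_val_identity (P : (ZMod p)[X]) (hD : P.natDegree < p) :
    ∑ a : ZMod p, C (P.eval a) * ∏ b ∈ univ.erase a, (X - C b) = - P := by
  classical
  have hp := (Fact.out : p.Prime)
  apply eq_of_natDegree_lt_card_of_eval_eq' _ _ (univ : Finset (ZMod p))
  · intro c _
    rw [eval_finsetSum, Finset.sum_eq_single c]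
    · simp only [eval_mul, eval_C, eval_neg]
      have h1 : eval c (∏ b ∈ univ.erase c, (X - C b)) = -1 := by
        have h2 : derivative (∏ a : ZMod p, (X - C a)) = (-1 : (ZMod p)[X]) := by
          rw [prod_all, deriv_Xp]
        have h3 : (∏ a : ZMod p, (X - C a)) = (X - C c) * ∏ b ∈ univ.erase c, (X - C b) :=
          (Finset.mul_prod_erase _ _ (Finset.mem_univ c)).symm
        rw [h3, derivative_mul] at h2
        have h4 := congrArg (eval c) h2
        simpa using h4
      rw [h1]; ring
    · intro b _ hb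
      rw [eval_mul, eval_prod, Finset.prod_eq_zero (i := c)]
      · simp
      · simp [Ne.symm hb]
      · simp
    · simp
  · rw [Finset.card_univ, ZMod.card]
    rw [max_lt_iff]
    constructor
    · apply lt_of_le_of_lt (natDegree_sum_le_of_forall_le (n := p - 1) _ _ _)
      · have := hp.one_lt; omega
      · intro a _
        apply (natDegree_mul_le).trans
        rw [natDegree_C, zero_add]
        apply (natDegree_prod_le _ _).trans
        simp [ZMod.card]
    · rw [natDegree_neg]; exact hD

/-- The polynomial `∏ (X - a)^(m_a)`. -/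
noncomputable def Fp (m : ZMod p → ℕ) : (ZMod p)[X] := ∏ a : ZMod p, (X - C a) ^ (m a)

lemma Fp_monic (m : ZMod p → ℕ) : (Fp m).Monic :=
  monic_prod_of_monic _ _ (fun a _ => (monic_X_sub_C a).pow _)

lemma Fp_natDegree (m : ZMod p → ℕ) : (Fp m).natDegree = ∑ a, m a := by
  unfold Fp
  rw [natDegree_prod_of_monic _ _ (fun a _ => (monic_X_sub_C a).pow _)]
  simp

lemma key_identity (P : (ZMod p)[X]) (hD : P.natDegree < p) :
    (X ^ p - X) * derivative (Fp (fun a => (P.eval a).val)) = - P * Fp (fun a => (P.eval a).val) := by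
  classical
  rw [← sum_val_identity P hD, ← prod_all]
  unfold Fp
  rw [derivative_prod_finset, Finset.mul_sum, Finset.sum_mul]
  apply Finset.sum_congr rfl
  intro a _
  rw [← Finset.mul_prod_erase univ (fun b => (X - C b : (ZMod p)[X])) (Finset.mem_univ a),
    ← Finset.mul_prod_erase univ (fun b => (X - C b : (ZMod p)[X]) ^ ((P.eval b).val)) (Finset.mem_univ a)]
  rw [derivative_X_sub_C_pow]
  rcases Nat.eq_zero_or_pos (P.eval a).val with h0 | h0
  · have h1 : P.eval a = 0 := by rwa [ZMod.val_eq_zero] at h0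
    simp [h1]
  · have e1 : (X - C a : (ZMod p)[X]) ^ ((P.eval a).val) = (X - C a) * (X - C a) ^ ((P.eval a).val - 1) := by
      rw [← pow_succ', Nat.sub_add_cancel h0]
    rw [e1]
    have e2 : (((P.eval a).val : ℕ) : (ZMod p)) = P.eval a := by simp
    rw [e2]
    ring

end zm

end R159.RangeSum
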