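import Pool.Agent.R159.RangeSumA

namespace R159.RangeSum

open Polynomial Finset

variable {p : ℕ} [Fact p.Prime]

lemma Q_natDegree : (X ^ p - X : (ZMod p)[X]).natDegree = p :=
  FiniteField.X_pow_card_sub_X_natDegree_eq (ZMod p) (Fact.out : p.Prime).one_lt

lemma Q_monic : (X ^ p - X : (ZMod p)[X]).Monic := by
  apply monic_X_pow_sub
  rw [degree_X]
  exact_mod_cast (Fact.out : p.Prime).one_lt

lemma step1 (F P : (ZMod p)[X]) (hFm : F.Monic) (hFd : F.natDegree = p)
    (hid : (X ^ p - X) * derivative F = - P * F) (hD1 : 1 ≤ P.natDegree)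
    (hDp : P.natDegree + 1 < p) :
    (F - (X ^ p - X)) * derivative F = F * (P + derivative F) ∧
    (derivative F).natDegree = P.natDegree ∧ (F - (X ^ p - X)).natDegree = P.natDegree + 1 ∧
    P + derivative F ≠ 0 ∧ p + (P + derivative F).natDegree = 2 * P.natDegree + 1 := by
  have hp1 := (Fact.out : p.Prime).one_lt
  have hP0 : P ≠ 0 := by
    rintro rfl; simp at hD1
  have hF0 : F ≠ 0 := hFm.ne_zero
  have hQ0 : (X ^ p - X : (ZMod p)[X]) ≠ 0 := Q_monic.ne_zero
  have hF'0 : derivative F ≠ 0 := by
    intro h
    rw [h, mul_zero] at hid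
    exact mul_ne_zero (neg_ne_zero.mpr hP0) hF0 hid.symm
  have hdF' : (derivative F).natDegree = P.natDegree := by
    have h1 := congrArg natDegree hid
    rw [natDegree_mul hQ0 hF'0, natDegree_mul (neg_ne_zero.mpr hP0) hF0, natDegree_neg,
      Q_natDegree, hFd] at h1
    omega
  have hG' : derivative (F - (X ^ p - X)) = derivative F + C 1 := by
    rw [derivative_sub, deriv_Xp, C_1]; ring
  have hdG' : (derivative (F - (X ^ p - X))).natDegree = P.natDegree := by
    rw [hG', natDegree_add_C, hdF']
  have hGlt : (F - (X ^ p - X)).natDegree < p := by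
    have h1 : (F - (X ^ p - X)).degree < F.degree := by
      apply degree_sub_lt_left
      · rw [degree_eq_natDegree hF0, degree_eq_natDegree hQ0, hFd, Q_natDegree]
      · exact hF0
      · rw [hFm.leadingCoeff, Q_monic.leadingCoeff]
    by_cases h0 : F - (X ^ p - X) = 0
    · rw [h0]; simp; omega
    · have := natDegree_lt_natDegree h0 h1
      omega
  have hG1 : 1 ≤ (F - (X ^ p - X)).natDegree := by
    by_contra hcon
    rw [deriv_of_natDegree_zero (F - (X ^ p - X)) (by omega)] at hdG'
    simp at hdG'
    omega
  have hdG : (F - (X ^ p - X)).natDegree = P.natDegree + 1 := by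
    have := natDegree_deriv p _ hG1 hGlt
    omega
  have hid2 : (F - (X ^ p - X)) * derivative F = F * (P + derivative F) := by
    linear_combination - hid
  have hG0 : F - (X ^ p - X) ≠ 0 := by
    intro h
    rw [h] at hG1
    simp at hG1
  have hh0 : P + derivative F ≠ 0 := by
    intro h
    rw [h, mul_zero] at hid2
    exact mul_ne_zero hG0 hF'0 hid2
  refine ⟨hid2, hdF', hdG, hh0, ?_⟩
  have h1 := congrArg natDegree hid2
  rw [natDegree_mul hG0 hF'0, natDegree_mul hF0 hh0, hdG, hdF', hFd] at h1
  omega

lemma step2 (F P : (ZMod p)[X]) (hFm : F.Monic) (hFd : F.natDegree = p) (hp2 : p ≠ 2)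
    (hid : (X ^ p - X) * derivative F = - P * F) (hD1 : 1 ≤ P.natDegree)
    (hlt : 15 * P.natDegree < 8 * (p - 1)) :
    ∃ U L : (ZMod p)[X], (F - (X ^ p - X)) ^ 2 = X ^ p * U + L ∧
      derivative U = 2 * (P + derivative F) ∧
      U.natDegree = (P + derivative F).natDegree + 1 ∧
      L.natDegree ≤ P.natDegree + (P + derivative F).natDegree + 2 := by
  have hpp := (Fact.out : p.Prime)
  have hp1 := hpp.one_lt
  have hp3 : 3 ≤ p := by
    rcases Nat.lt_or_ge p 3 with h | h
    · interval_cases p; exact absurd rfl hp2
    · exact h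
  obtain ⟨hid2, hdF', hdG, hh0, hsum⟩ := step1 F P hFm hFd hid hD1 (by omega)
  set G := F - (X ^ p - X) with hG
  set h := P + derivative F with hh
  have hG0 : G ≠ 0 := by
    intro h
    rw [h] at hdG
    simp at hdG
  have hG' : derivative G = derivative F + 1 := by
    rw [hG, derivative_sub, deriv_Xp]; ring
  have hXm : (X ^ p : (ZMod p)[X]).Monic := monic_X_pow p
  have hdiv := modByMonic_add_div (G ^ 2) (X ^ p : (ZMod p)[X])
  have hUd : (G ^ 2 /ₘ X ^ p).natDegree = h.natDegree + 1 := by
    rw [natDegree_divByMonic _ hXm, natDegree_pow, natDegree_X_pow, hdG]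
    omega
  have hLd : (G ^ 2 %ₘ X ^ p).natDegree < p := by
    have := natDegree_modByMonic_lt (G ^ 2) hXm (by
      intro h
      have h2 := congrArg natDegree h
      rw [natDegree_X_pow, natDegree_one] at h2
      omega)
    rwa [natDegree_X_pow] at this
  set U := G ^ 2 /ₘ X ^ p with hU
  set L := G ^ 2 %ₘ X ^ p with hL
  have hdX : derivative (X ^ p : (ZMod p)[X]) = 0 := by
    rw [derivative_X_pow, CharP.cast_eq_zero]; simp
  -- the derivative identity
  have hder : X ^ p * derivative U + derivative L
      = 2 * (X ^ p * h) + 2 * ((1 + h) * G - h * X) := by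
    have h1 := congrArg derivative hdiv
    rw [derivative_add, derivative_mul, hdX, derivative_pow, hG'] at h1
    simp only [Nat.cast_ofNat, map_ofNat, Nat.add_one_sub_one, pow_one] at h1
    have hid3 : G * derivative F = (G + (X ^ p - X)) * h := by
      linear_combination hid2 - h * hG
    linear_combination h1 + 2 * hid3
  have hmul : X ^ p * (derivative U - 2 * h) = 2 * ((1 + h) * G - h * X) - derivative L := by
    linear_combination hder
  have hdR : (2 * ((1 + h) * G - h * X) : (ZMod p)[X]).natDegree ≤ P.natDegree + h.natDegree + 1 := by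
    have e1 : ((1 + h) * G).natDegree ≤ P.natDegree + h.natDegree + 1 := by
      apply natDegree_mul_le.trans
      rw [hdG]
      have : (1 + h).natDegree ≤ h.natDegree := by
        rw [add_comm]
        apply (natDegree_add_le _ _).trans
        simp
      omega
    have e2 : (h * X).natDegree ≤ P.natDegree + h.natDegree + 1 := by
      apply natDegree_mul_le.trans
      rw [natDegree_X]
      omega
    have e3 : (2 : (ZMod p)[X]) = C 2 := (map_ofNat C 2).symm
    rw [e3]
    apply (natDegree_C_mul_le _ _).trans
    apply (natDegree_sub_le _ _).trans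
    exact max_le e1 e2
  have hU' : derivative U = 2 * h := by
    by_contra hne
    have hne2 : derivative U - 2 * h ≠ 0 := sub_ne_zero.mpr hne
    have h1 := congrArg natDegree hmul
    rw [natDegree_mul hXm.ne_zero hne2, natDegree_X_pow] at h1
    have h2 : (2 * ((1 + h) * G - h * X) - derivative L).natDegree < p := by
      apply lt_of_le_of_lt (natDegree_sub_le _ _)
      apply max_lt
      · omega
      · have := natDegree_derivative_le L
        omega
    omega
  have hL' : derivative L = 2 * ((1 + h) * G - h * X) := by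
    rw [hU'] at hmul
    linear_combination hmul
  refine ⟨U, L, ?_, hU', hUd, ?_⟩
  · rw [← hdiv]; ring
  · rcases Nat.eq_zero_or_pos L.natDegree with h0 | h0
    · omega
    · have h1 := natDegree_deriv p L h0 hLd
      rw [hL'] at h1
      omega

end R159.RangeSum
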