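import Pool.Agent.R159.RangeSumB

namespace R159.RangeSum

open Polynomial Finset

variable {p : ℕ} [Fact p.Prime]

lemma homog (hp2 : p ≠ 2) (R : (ZMod p)[X]) (x0 : ZMod p) (hd : R.natDegree ≤ (p - 1) / 2)
    (h : 2 * ((X - C x0) * derivative R) = - R) :
    ∃ l : ZMod p, R = C l * (X - C x0) ^ ((p - 1) / 2) := by
  have hpp := (Fact.out : p.Prime)
  have hp3 : 3 ≤ p := by
    rcases Nat.lt_or_ge p 3 with h | h
    · have := hpp.one_lt
      interval_cases p; exact absurd rfl hp2
    · exact h
  have hodd : p % 2 = 1 := by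
    rcases hpp.eq_two_or_odd with h | h
    · exact absurd h hp2
    · exact h
  set S := R.comp (X + C x0) with hS
  have hS' : derivative S = (derivative R).comp (X + C x0) := by
    rw [hS, derivative_comp]; simp
  have h1 : 2 * (X * derivative S) = - S := by
    have h2 := congrArg (fun f : (ZMod p)[X] => f.comp (X + C x0)) h
    simp only [mul_comp, sub_comp, X_comp, C_comp, neg_comp] at h2
    rw [hS', hS, ← h2]
    have h3 : (2 : (ZMod p)[X]).comp (X + C x0) = 2 := by
      rw [show (2 : (ZMod p)[X]) = C 2 from (map_ofNat C 2).symm, C_comp]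
    rw [h3]; ring
  have hSd : S.natDegree ≤ (p - 1) / 2 := by
    rw [hS, natDegree_comp, natDegree_X_add_C, mul_one]; exact hd
  have hcoef : ∀ n, n ≠ (p - 1) / 2 → S.coeff n = 0 := by
    intro n hn
    rcases lt_or_gt_of_ne hn with hlt | hgt
    · have h2 := congrArg (fun f : (ZMod p)[X] => f.coeff n) h1
      simp only [coeff_neg] at h2
      rw [show (2 : (ZMod p)[X]) = C 2 from (map_ofNat C 2).symm, coeff_C_mul] at h2
      cases n with
      | zero =>
        rw [mul_coeff_zero, coeff_X_zero] at h2
        simp only [zero_mul, mul_zero] at h2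
        exact neg_eq_zero.mp h2.symm
      | succ k =>
        rw [coeff_X_mul, coeff_derivative] at h2
        have h3 : (((2 * (k + 1) + 1 : ℕ)) : ZMod p) * S.coeff (k + 1) = 0 := by
          push_cast
          linear_combination h2
        rcases mul_eq_zero.mp h3 with h4 | h4
        · rw [CharP.cast_eq_zero_iff (ZMod p) p] at h4
          exact absurd (Nat.le_of_dvd (by omega) h4) (by omega)
        · exact h4
    · exact coeff_eq_zero_of_natDegree_lt (by omega)
  have hSe : S = C (S.coeff ((p - 1) / 2)) * X ^ ((p - 1) / 2) := by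
    ext n
    rw [coeff_C_mul_X_pow]
    split_ifs with h2
    · rw [h2]
    · exact hcoef n h2
  refine ⟨S.coeff ((p - 1) / 2), ?_⟩
  have h5 : S.comp (X - C x0) = R := by
    rw [hS, comp_assoc]; simp
  rw [← h5]
  conv_lhs => rw [hSe]
  simp

lemma step3 (F P U L : (ZMod p)[X]) (hFm : F.Monic) (hFd : F.natDegree = p) (hp2 : p ≠ 2)
    (hid : (X ^ p - X) * derivative F = - P * F) (hD1 : 1 ≤ P.natDegree)
    (hlt : 15 * P.natDegree < 8 * (p - 1))
    (hG2 : (F - (X ^ p - X)) ^ 2 = X ^ p * U + L)
    (hU' : derivative U = 2 * (P + derivative F))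
    (hUd : U.natDegree = (P + derivative F).natDegree + 1)
    (hW : U * (derivative F + 1) - (P + derivative F) * (F - (X ^ p - X)) - U = 0) :
    ∃ l x0 : ZMod p, P = 1 + C l * (X - C x0) ^ ((p - 1) / 2) := by
  have hpp := (Fact.out : p.Prime)
  have hp1 := hpp.one_lt
  have hp3 : 3 ≤ p := by
    rcases Nat.lt_or_ge p 3 with h | h
    · interval_cases p; exact absurd rfl hp2
    · exact h
  obtain ⟨hid2, hdF', hdG, hh0, hsum⟩ := step1 F P hFm hFd hid hD1 (by omega)
  set G := F - (X ^ p - X) with hG
  set h := P + derivative F with hh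
  have hU0 : U ≠ 0 := by
    rintro rfl
    simp at hUd
  have hF0 := hFm.ne_zero
  have e1 : h * (U * G) = h * (U * X + L) := by
    linear_combination G * hW - U * hid2 + h * hG2 + (U * h) * hG
  have e2 : U * G = U * X + L := mul_left_cancel₀ hh0 e1
  have e3 : G ^ 2 = U * F := by
    linear_combination hG2 - e2 + (-U) * hG
  have hG' : derivative G = derivative F + 1 := by
    rw [hG, derivative_sub, deriv_Xp]; ring
  have e4 : 2 * G = U * derivative F := by
    have h1 := congrArg derivative e3
    rw [derivative_mul, derivative_pow, hG', hU'] at h1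
    simp only [Nat.cast_ofNat, map_ofNat, Nat.add_one_sub_one, pow_one] at h1
    linear_combination h1 - 2 * hid2
  have e5 : h = 2 := by
    have h1 : (U * F) * (2 - h) = 0 := by
      linear_combination G * e4 - 2 * e3 + U * hid2
    rcases mul_eq_zero.mp h1 with h2 | h2
    · exact absurd h2 (mul_ne_zero hU0 hF0)
    · exact (sub_eq_zero.mp h2).symm
  have hhd : h.natDegree = 0 := by
    rw [e5, show (2 : (ZMod p)[X]) = C 2 from (map_ofNat C 2).symm, natDegree_C]
  have hF' : derivative F = 2 - P := by
    rw [← e5, hh]; ring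
  have hUe : ∃ c : ZMod p, U = 4 * X + C c := by
    have h1 : derivative (U - 4 * X) = 0 := by
      rw [derivative_sub, hU', e5, show (4 : (ZMod p)[X]) = C 4 from (map_ofNat C 4).symm,
        derivative_C_mul, derivative_X, mul_one, show (2 : (ZMod p)[X]) = C 2 from (map_ofNat C 2).symm,
        ← C_mul, ← C_sub]
      norm_num
    have h2 : (U - 4 * X).natDegree < p := by
      apply lt_of_le_of_lt (natDegree_sub_le _ _)
      apply max_lt
      · omega
      · rw [show (4 : (ZMod p)[X]) = C 4 from (map_ofNat C 4).symm]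
        apply lt_of_le_of_lt (natDegree_C_mul_le _ _)
        rw [natDegree_X]; omega
    have h3 := natDegree_of_deriv_zero p _ h2 h1
    refine ⟨(U - 4 * X).coeff 0, ?_⟩
    rw [← eq_C_of_natDegree_eq_zero h3]; ring
  obtain ⟨c, hc⟩ := hUe
  have e6 : U * derivative P = - (2 * (P - 1)) := by
    have h1 := congrArg derivative e4
    have hd2 : derivative (2 : (ZMod p)[X]) = 0 := derivative_ofNat 2
    rw [derivative_mul, derivative_mul, hG', hU', e5, hF', derivative_sub, hd2] at h1
    linear_combination h1
  have h20 : (2 : ZMod p) ≠ 0 := by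
    intro h2
    have h3 : ((2 : ℕ) : ZMod p) = 0 := by exact_mod_cast h2
    rw [CharP.cast_eq_zero_iff (ZMod p) p] at h3
    exact absurd (Nat.le_of_dvd (by norm_num) h3) (by omega)
  have h40 : (4 : ZMod p) ≠ 0 := by
    have : (4 : ZMod p) = 2 * 2 := by norm_num
    rw [this]; exact mul_ne_zero h20 h20
  have e7 : 2 * ((X - C (-c / 4)) * derivative (P - 1)) = - (P - 1) := by
    have h1 : (2 : (ZMod p)[X]) * (2 * ((X - C (-c / 4)) * derivative (P - 1))) = 2 * (- (P - 1)) := by
      rw [derivative_sub, derivative_one, sub_zero]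
      have h2 : U = 4 * (X - C (-c / 4)) := by
        rw [hc, show (4 : (ZMod p)[X]) = C 4 from (map_ofNat C 4).symm, mul_sub, ← C_mul]
        have : (4 : ZMod p) * (-c / 4) = - c := by field_simp
        rw [this, C_neg]; ring
      rw [h2] at e6
      linear_combination e6
    have h3 : (2 : (ZMod p)[X]) ≠ 0 := by
      rw [show (2 : (ZMod p)[X]) = C 2 from (map_ofNat C 2).symm]
      exact C_ne_zero.mpr h20
    exact mul_left_cancel₀ h3 h1
  have hPd : (P - 1).natDegree ≤ (p - 1) / 2 := by
    apply (natDegree_sub_le _ _).trans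
    rw [natDegree_one]
    apply max_le
    · omega
    · omega
  obtain ⟨l, hl⟩ := homog hp2 (P - 1) (-c / 4) hPd e7
  exact ⟨l, -c / 4, by rw [← hl]; ring⟩

end R159.RangeSum
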