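import Pool.Agent.R159.RangeSumC

namespace R159.RangeSum

open Polynomial Finset

variable {p : ℕ} [Fact p.Prime]

lemma natDegree_two_mul_le (f : (ZMod p)[X]) : (2 * f).natDegree ≤ f.natDegree := by
  rw [show (2 : (ZMod p)[X]) = C 2 from (map_ofNat C 2).symm]
  exact natDegree_C_mul_le _ _

lemma step4_alg (s t q ρ τ r2 : (ZMod p)[X]) (e : ℕ)
    (hQ : X ^ p - X = s * q) (hF' : derivative (s * t) = t * r2)
    (hρ : ρ * derivative t = τ * t)
    (ht0 : t ≠ 0) (hρ0 : ρ ≠ 0)
    (hr1 : (t - q).natDegree ≤ e) (hr2 : r2.natDegree ≤ e) (hρd : ρ.natDegree ≤ 2 * e + 1)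
    (hτd : τ.natDegree ≤ 2 * e)
    (hqn : 7 * e < q.natDegree) (htn : 7 * e < t.natDegree) (htp : t.natDegree + 4 * e + 1 < p) :
    2 * ((t - q) * r2) = 1 := by
  have hq0 : q ≠ 0 := by
    rintro rfl
    simp at hqn
  obtain ⟨κ, hκ⟩ : ∃ κ, κ = ρ * derivative (t - q) - τ * (t - q) := ⟨_, rfl⟩
  -- (b)
  have hb : ρ * derivative q = τ * q - κ := by
    rw [hκ, derivative_sub]
    linear_combination hρ
  -- (a)
  have ha : ρ * derivative s + s * τ = ρ * r2 := by
    rw [derivative_mul] at hF'
    have h1 : t * (ρ * derivative s + s * τ) = t * (ρ * r2) := by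
      linear_combination ρ * hF' - s * hρ
    exact mul_left_cancel₀ ht0 h1
  -- (c)
  have hQ' : (-1 : (ZMod p)[X]) = derivative s * q + s * derivative q := by
    rw [← derivative_mul, ← hQ, deriv_Xp]
  have hc : s * κ = ρ * (1 + r2 * q) := by
    linear_combination ρ * hQ' + s * hb + q * ha
  have hd : κ * (X ^ p - X) = ρ * q * (1 + r2 * q) := by
    rw [hQ]
    linear_combination q * hc
  have hd' : derivative κ * (X ^ p - X) - κ = derivative (ρ * q * (1 + r2 * q)) := by
    rw [← hd, derivative_mul, deriv_Xp]
    ring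
  simp only [derivative_mul, derivative_add, derivative_one, zero_add] at hd'
  have hkey : q * (q * (derivative κ * ρ * r2 - κ * (derivative ρ * r2 + ρ * derivative r2 + 2 * r2 * τ)))
      = q * (κ * (derivative ρ + τ - 2 * r2 * κ) - derivative κ * ρ) := by
    linear_combination κ * hd' - derivative κ * hd + (κ * (1 + r2 * q) + κ * q * r2) * hb
  have hkey2 := mul_left_cancel₀ hq0 hkey
  -- degrees
  have hκd : κ.natDegree ≤ 3 * e := by
    rw [hκ]
    apply (natDegree_sub_le _ _).trans
    apply max_le
    · rw [mul_comm]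
      apply natDegree_deriv_mul_le
      omega
    · apply natDegree_mul_le.trans
      omega
  have hc0d : (κ * (derivative ρ + τ - 2 * r2 * κ) - derivative κ * ρ).natDegree ≤ 7 * e := by
    apply (natDegree_sub_le _ _).trans
    apply max_le
    · apply natDegree_mul_le.trans
      have h1 : (derivative ρ + τ - 2 * r2 * κ).natDegree ≤ 4 * e := by
        apply (natDegree_sub_le _ _).trans
        apply max_le
        · apply (natDegree_add_le _ _).trans
          apply max_le
          · have := natDegree_derivative_le ρ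
            omega
          · omega
        · rw [mul_assoc]
          apply (natDegree_two_mul_le _).trans
          apply natDegree_mul_le.trans
          omega
      omega
    · apply natDegree_deriv_mul_le
      omega
  have hc1 : derivative κ * ρ * r2 - κ * (derivative ρ * r2 + ρ * derivative r2 + 2 * r2 * τ) = 0 := by
    by_contra hne
    have h1 := congrArg natDegree hkey2
    rw [natDegree_mul hq0 hne] at h1
    omega
  have hc0 : κ * (derivative ρ + τ - 2 * r2 * κ) - derivative κ * ρ = 0 := by
    rw [← hkey2, hc1, mul_zero]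
  -- κ ≠ 0
  have hκ0 : κ ≠ 0 := by
    intro h0
    rw [h0, mul_zero] at hc
    rcases mul_eq_zero.mp hc.symm with h1 | h1
    · exact hρ0 h1
    · have h2 : r2 * q = C (-1) := by
        rw [C_neg, C_1]; linear_combination h1
      have hr20 : r2 ≠ 0 := by
        rintro rfl
        simp at h1
      have h3 := congrArg natDegree h2
      rw [natDegree_mul hr20 hq0, natDegree_C] at h3
      omega
  by_contra hcon
  have h2h : 1 - 2 * ((t - q) * r2) ≠ 0 := by
    intro h
    exact hcon (by linear_combination (-1) * h)
  have hf0 : ρ * (1 - 2 * ((t - q) * r2)) * t ≠ 0 := mul_ne_zero (mul_ne_zero hρ0 h2h) ht0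
  apply wronsk p (ρ * (1 - 2 * ((t - q) * r2)) * t) κ hκ0
  · have : t.natDegree ≤ (ρ * (1 - 2 * ((t - q) * r2)) * t).natDegree := by
      rw [natDegree_mul (mul_ne_zero hρ0 h2h) ht0]; omega
    omega
  · apply lt_of_le_of_lt natDegree_mul_le
    have h1 : (ρ * (1 - 2 * ((t - q) * r2))).natDegree ≤ (2 * e + 1) + 2 * e := by
      apply natDegree_mul_le.trans
      have h2 : (1 - 2 * ((t - q) * r2)).natDegree ≤ 2 * e := by
        apply (natDegree_sub_le _ _).trans
        apply max_le
        · simp
        · apply (natDegree_two_mul_le _).trans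
          apply natDegree_mul_le.trans
          omega
      omega
    omega
  · have hd2 : derivative (2 : (ZMod p)[X]) = 0 := derivative_ofNat 2
    have hdtq : derivative (t - q) = derivative t - derivative q := derivative_sub
    rw [hdtq] at hκ
    simp only [derivative_mul, derivative_sub, derivative_one, hd2]
    linear_combination t * (2 * (t - q) * hc1 + hc0) + κ * (1 - 2 * ((t - q) * r2)) * hρ +
      2 * t * r2 * κ * hκ

end R159.RangeSum
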