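import Pool.Agent.R159.RangeSumD

namespace R159.RangeSum

open Polynomial Finset

variable {p : ℕ} [Fact p.Prime]

lemma log_deriv (A : Finset (ZMod p)) (k : ZMod p → ℕ) :
    (∏ a ∈ A, (X - C a)) * derivative (∏ a ∈ A, (X - C a) ^ (k a)) =
    (∑ a ∈ A, C ((k a : ℕ) : ZMod p) * ∏ b ∈ A.erase a, (X - C b)) * ∏ a ∈ A, (X - C a) ^ (k a) := by
  classical
  rw [derivative_prod_finset, Finset.mul_sum, Finset.sum_mul]
  apply Finset.sum_congr rfl
  intro a ha
  rw [← Finset.mul_prod_erase A (fun b => (X - C b : (ZMod p)[X])) ha,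
    ← Finset.mul_prod_erase A (fun b => (X - C b : (ZMod p)[X]) ^ (k b)) ha]
  rw [derivative_X_sub_C_pow]
  rcases Nat.eq_zero_or_pos (k a) with h0 | h0
  · simp [h0]
  · have e1 : (X - C a : (ZMod p)[X]) ^ (k a) = (X - C a) * (X - C a) ^ (k a - 1) := by
      rw [← pow_succ', Nat.sub_add_cancel h0]
    rw [e1]
    ring

lemma step4 (P U L : (ZMod p)[X]) (m : ZMod p → ℕ)
    (hFd : (Fp m).natDegree = p) (hp2 : p ≠ 2)
    (hid : (X ^ p - X) * derivative (Fp m) = - P * Fp m) (hD1 : 1 ≤ P.natDegree)
    (hlt : 15 * P.natDegree < 8 * (p - 1))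
    (hG2 : (Fp m - (X ^ p - X)) ^ 2 = X ^ p * U + L)
    (hUd : U.natDegree = (P + derivative (Fp m)).natDegree + 1)
    (hLd : L.natDegree ≤ P.natDegree + (P + derivative (Fp m)).natDegree + 2)
    (hW : U * (derivative (Fp m) + 1) - (P + derivative (Fp m)) * (Fp m - (X ^ p - X)) - U ≠ 0) :
    ∃ c a : ZMod p, P = C (2⁻¹) + C c * (X - C a) ^ ((p - 1) / 2) := by
  classical
  have hpp := (Fact.out : p.Prime)
  have hp1 := hpp.one_lt
  have hp3 : 3 ≤ p := by
    rcases Nat.lt_or_ge p 3 with h | h
    · interval_cases p; exact absurd rfl hp2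
    · exact h
  have hFm := Fp_monic m
  obtain ⟨hid2, hdF', hdG, hh0, hsum⟩ := step1 (Fp m) P hFm hFd hid hD1 (by omega)
  set W := U * (derivative (Fp m) + 1) - (P + derivative (Fp m)) * (Fp m - (X ^ p - X)) - U with hWdef
  set G := Fp m - (X ^ p - X) with hG
  set h := P + derivative (Fp m) with hh
  have hG0 : G ≠ 0 := by
    intro h
    rw [h] at hdG
    simp at hdG
  have hU0 : U ≠ 0 := by
    rintro rfl
    simp at hUd
  -- degree of W
  have hT : G * (W - U * h) = - (h * (U * X + L)) := by
    rw [hWdef]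
    linear_combination U * hid2 - h * hG2 - (U * h) * hG
  have hWd : W.natDegree ≤ 2 * h.natDegree + 1 := by
    have e1 : (W - U * h).natDegree ≤ 2 * h.natDegree + 1 := by
      by_cases h0 : W - U * h = 0
      · rw [h0]; simp
      · have h1 := congrArg natDegree hT
        rw [natDegree_mul hG0 h0, natDegree_neg, hdG] at h1
        have h2 : (h * (U * X + L)).natDegree ≤ P.natDegree + 2 * h.natDegree + 2 := by
          apply natDegree_mul_le.trans
          have h3 : (U * X + L).natDegree ≤ P.natDegree + h.natDegree + 2 := by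
            apply (natDegree_add_le _ _).trans
            apply max_le
            · apply natDegree_mul_le.trans
              rw [natDegree_X]; omega
            · exact hLd
          omega
        omega
    have e2 : (U * h).natDegree ≤ 2 * h.natDegree + 1 := by
      apply natDegree_mul_le.trans
      omega
    have e3 : W = (W - U * h) + U * h := by ring
    rw [e3]
    exact (natDegree_add_le _ _).trans (max_le e1 e2)
  -- the set A
  set A : Finset (ZMod p) := univ.filter (fun a => 2 ≤ m a) with hA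
  have hAc : A.card ≤ 2 * h.natDegree + 1 := by
    refine le_trans (card_le_degree_of_subset_roots (p := W) ?_) hWd
    intro a ha
    rw [Finset.mem_val, hA, Finset.mem_filter] at ha
    rw [mem_roots hW, IsRoot.def]
    have hdvd : (X - C a) ^ 2 ∣ Fp m :=
      (pow_dvd_pow _ ha.2).trans (Finset.dvd_prod_of_mem _ (Finset.mem_univ a))
    obtain ⟨g, hg⟩ := hdvd
    have hFa : (Fp m).eval a = 0 := by rw [hg]; simp
    have hFa' : (derivative (Fp m)).eval a = 0 := by
      rw [hg, derivative_mul, derivative_pow]; simp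
    have hQa : (X ^ p - X : (ZMod p)[X]).eval a = 0 := by
      simp [ZMod.pow_card]
    rw [hWdef, hG, eval_sub, eval_sub, eval_mul, eval_mul, eval_sub, eval_add, hFa, hFa', hQa]
    simp
  -- the factors
  obtain ⟨s, hs⟩ : ∃ s : (ZMod p)[X], s = ∏ a : ZMod p, (if m a = 0 then 1 else (X - C a)) := ⟨_, rfl⟩
  obtain ⟨q, hq⟩ : ∃ q : (ZMod p)[X], q = ∏ a : ZMod p, (if m a = 0 then (X - C a) else 1) := ⟨_, rfl⟩
  obtain ⟨t, ht⟩ : ∃ t : (ZMod p)[X], t = ∏ a : ZMod p, (X - C a) ^ (m a - 1) := ⟨_, rfl⟩
  have hQsq : (X ^ p - X : (ZMod p)[X]) = s * q := by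
    rw [hs, hq, ← Finset.prod_mul_distrib, ← prod_all]
    apply Finset.prod_congr rfl
    intro a _
    split_ifs <;> simp
  have hFst : Fp m = s * t := by
    rw [hs, ht, ← Finset.prod_mul_distrib]
    unfold Fp
    apply Finset.prod_congr rfl
    intro a _
    split_ifs with h1
    · rw [h1]; simp
    · rw [← pow_succ', Nat.sub_add_cancel (Nat.pos_of_ne_zero h1)]
  have hcop : IsCoprime q t := by
    rw [hq, ht]
    apply IsCoprime.prod_left
    intro a _
    apply IsCoprime.prod_right
    intro b _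
    split_ifs with h1
    · by_cases hab : a = b
      · subst hab
        rw [h1]
        simpa using isCoprime_one_right
      · apply IsCoprime.pow_right
        exact (pairwise_coprime_X_sub_C (s := fun x : ZMod p => x) Function.injective_id) hab
    · exact isCoprime_one_left
  have hF0 : Fp m ≠ 0 := hFm.ne_zero
  have hs0 : s ≠ 0 := by
    rintro rfl
    rw [zero_mul] at hFst
    exact hF0 hFst
  have ht0 : t ≠ 0 := by
    rintro rfl
    rw [mul_zero] at hFst
    exact hF0 hFst
  have hq0 : q ≠ 0 := by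
    rintro rfl
    rw [mul_zero] at hQsq
    exact Q_monic.ne_zero hQsq
  have hqF : q * derivative (Fp m) = - P * t := by
    rw [hQsq] at hid
    have h1 : s * (q * derivative (Fp m)) = s * (- P * t) := by
      linear_combination hid + (-P) * hFst
    exact mul_left_cancel₀ hs0 h1
  have hqP : q ∣ P := by
    apply hcop.dvd_of_dvd_mul_right
    exact ⟨- derivative (Fp m), by linear_combination hqF⟩
  obtain ⟨v, hv⟩ := hqP
  obtain ⟨r2, hr2⟩ : ∃ r2, r2 = - v := ⟨_, rfl⟩
  have hPr : P = - (q * r2) := by rw [hr2, hv]; ring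
  have hFt : derivative (Fp m) = t * r2 := by
    have h1 : q * derivative (Fp m) = q * (t * r2) := by
      rw [hqF, hPr]; ring
    exact mul_left_cancel₀ hq0 h1
  have hhr : h = (t - q) * r2 := by
    rw [hh, hFt]
    linear_combination hPr
  have hr20 : r2 ≠ 0 := by
    rintro h1
    rw [h1, mul_zero] at hhr
    exact hh0 hhr
  have hr10 : t - q ≠ 0 := by
    intro h1
    rw [h1, zero_mul] at hhr
    exact hh0 hhr
  have hdeg1 : s.natDegree + t.natDegree = p := by
    rw [← natDegree_mul hs0 ht0, ← hFst, hFd]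
  have hdeg2 : s.natDegree + q.natDegree = p := by
    rw [← natDegree_mul hs0 hq0, ← hQsq, Q_natDegree]
  have hdeg3 : q.natDegree + r2.natDegree = P.natDegree := by
    rw [← natDegree_mul hq0 hr20, hPr, natDegree_neg]
  have hdeg4 : (t - q).natDegree + r2.natDegree = h.natDegree := by
    rw [← natDegree_mul hr10 hr20, hhr]
  -- t as a product over A
  have htA : t = ∏ a ∈ A, (X - C a) ^ (m a - 1) := by
    rw [ht]
    symm
    apply Finset.prod_subset (Finset.subset_univ A)
    intro a _ ha
    have : m a - 1 = 0 := by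
      rw [hA, Finset.mem_filter] at ha
      push Not at ha
      have := ha (Finset.mem_univ a)
      omega
    rw [this, pow_zero]
  have hlog := log_deriv A (fun a => m a - 1)
  rw [← htA] at hlog
  have hρd : (∏ a ∈ A, (X - C a) : (ZMod p)[X]).natDegree = A.card := by
    rw [natDegree_prod_of_monic _ _ (fun a _ => monic_X_sub_C a)]
    simp
  have hρ0 : (∏ a ∈ A, (X - C a) : (ZMod p)[X]) ≠ 0 :=
    Finset.prod_ne_zero_iff.mpr (fun a _ => X_sub_C_ne_zero a)
  have hτd : (∑ a ∈ A, C (((m a - 1 : ℕ)) : ZMod p) * ∏ b ∈ A.erase a, (X - C b)).natDegree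
      ≤ 2 * h.natDegree := by
    apply natDegree_sum_le_of_forall_le
    intro a ha
    apply (natDegree_C_mul_le _ _).trans
    rw [natDegree_prod_of_monic _ _ (fun a _ => monic_X_sub_C a)]
    simp only [natDegree_X_sub_C, Finset.sum_const, smul_eq_mul, mul_one]
    rw [Finset.card_erase_of_mem ha]
    omega
  have hmain := step4_alg s t q _ _ r2 h.natDegree hQsq (by rw [← hFst]; exact hFt) hlog ht0 hρ0
    (by omega) (by omega) (by omega) hτd (by omega) (by omega) (by omega)
  rw [← hhr] at hmain
  have hhd : h.natDegree = 0 := by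
    have h20 : (2 : (ZMod p)[X]) ≠ 0 := by
      intro h0
      rw [h0, zero_mul] at hmain
      exact zero_ne_one hmain
    have h1 := congrArg natDegree hmain
    rw [natDegree_mul h20 hh0, natDegree_one] at h1
    omega
  have hr2d : r2.natDegree = 0 := by omega
  have htd : t.natDegree = (p - 1) / 2 := by omega
  have htd1 : 1 ≤ t.natDegree := by omega
  have hA1 : A.card ≤ 1 := by omega
  have hAne : A.Nonempty := by
    by_contra hne
    rw [Finset.not_nonempty_iff_eq_empty] at hne
    rw [hne, Finset.prod_empty] at htA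
    rw [htA] at htd1
    simp at htd1
  obtain ⟨a, haA⟩ := hAne
  have hAa : A = {a} := by
    apply Finset.eq_singleton_iff_unique_mem.mpr
    refine ⟨haA, fun b hb => ?_⟩
    exact Finset.card_le_one.mp hA1 b hb a haA
  rw [hAa, Finset.prod_singleton] at htA
  have hma : m a - 1 = (p - 1) / 2 := by
    rw [htA, natDegree_pow, natDegree_X_sub_C, mul_one] at htd
    exact htd
  rw [hma] at htA
  obtain ⟨c, hc⟩ : ∃ c, r2 = C c := ⟨_, eq_C_of_natDegree_eq_zero hr2d⟩
  refine ⟨- c, a, ?_⟩
  have h20 : (2 : ZMod p) ≠ 0 := by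
    intro h2
    have h3 : ((2 : ℕ) : ZMod p) = 0 := by exact_mod_cast h2
    rw [CharP.cast_eq_zero_iff (ZMod p) p] at h3
    exact absurd (Nat.le_of_dvd (by norm_num) h3) (by omega)
  have hhC : h = C (2⁻¹) := by
    have h1 : (C 2 : (ZMod p)[X]) * h = C 2 * C (2⁻¹) := by
      rw [← C_mul, mul_inv_cancel₀ h20, C_1, ← hmain, show (C 2 : (ZMod p)[X]) = 2 from (map_ofNat C 2)]
    exact mul_left_cancel₀ (C_ne_zero.mpr h20) h1
  rw [← hhC, ← htA, C_neg, ← hc, hhr, hPr]
  ring

end R159.RangeSum
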