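import Mathlib

set_option autoImplicit false

namespace Pool.Agent.R159.RankTwo

/-- The two elements `a, b` span the group with signed sums of at most `s` terms. -/
def Span2 {G : Type*} [AddCommGroup G] (s : ℤ) (a b : G) : Prop :=
  ∀ g : G, ∃ x y : ℤ, |x| + |y| ≤ s ∧ x • a + y • b = g

/-! ### Covering by a staircase -/

theorem staircase (l y w h : ℤ) (hl : 0 < l) (hw0 : 0 ≤ w) (hy0 : 0 ≤ y)
    (hD : 0 < l * h - w * y) (u v : ℤ) :
    ∃ i j : ℤ, 0 ≤ u - i * l + j * w ∧ u - i * l + j * w < l ∧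
      0 ≤ v + i * y - j * h ∧ v + i * y - j * h < h := by
  have hfloor : ∀ j : ℤ, 0 ≤ u + j * w - (u + j * w) / l * l ∧
      u + j * w - (u + j * w) / l * l < l := by
    intro j
    have h1 := Int.emod_nonneg (u + j * w) hl.ne'
    have h2 := Int.emod_lt_of_pos (u + j * w) hl
    have h3 := Int.emod_add_mul_ediv (u + j * w) l
    constructor <;> nlinarith
  have hbdd : ∃ b : ℤ, ∀ z : ℤ, 0 ≤ v + (u + z * w) / l * y - z * h → z ≤ b := by
    refine ⟨|l * v + u * y|, ?_⟩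
    intro j hj
    obtain ⟨h1, h2⟩ := hfloor j
    have h3 : 0 ≤ l * (v + (u + j * w) / l * y - j * h) := mul_nonneg hl.le hj
    have h4 : (u + j * w) / l * l * y ≤ (u + j * w) * y :=
      mul_le_mul_of_nonneg_right (by linarith) hy0
    have h5 : j * (l * h - w * y) ≤ l * v + u * y := by nlinarith
    have h6 := le_abs_self (l * v + u * y)
    have h7 := abs_nonneg (l * v + u * y)
    by_contra hcon
    push Not at hcon
    have h8 : j * 1 ≤ j * (l * h - w * y) := mul_le_mul_of_nonneg_left (by omega) (by omega)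
    omega
  have hne : ∃ z : ℤ, 0 ≤ v + (u + z * w) / l * y - z * h := by
    refine ⟨-|l * v + u * y - l * y|, ?_⟩
    set J := |l * v + u * y - l * y| with hJ
    have hJ0 : 0 ≤ J := abs_nonneg _
    obtain ⟨h1, h2⟩ := hfloor (-J)
    have h4 : (u + -J * w - l) * y ≤ (u + -J * w) / l * l * y :=
      mul_le_mul_of_nonneg_right (by linarith) hy0
    have h5 : -J ≤ l * v + u * y - l * y := neg_abs_le _
    have h6 : J * 1 ≤ J * (l * h - w * y) := mul_le_mul_of_nonneg_left (by omega) hJ0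
    have h7 : 0 ≤ l * (v + (u + -J * w) / l * y - -J * h) := by nlinarith
    exact nonneg_of_mul_nonneg_right h7 hl
  obtain ⟨j, hj1, hj2⟩ := Int.exists_greatest_of_bdd hbdd hne
  refine ⟨(u + j * w) / l, j, ?_, ?_, hj1, ?_⟩
  · have := (hfloor j).1; linarith
  · have := (hfloor j).2; linarith
  · have h1 : ¬ (0 ≤ v + (u + (j + 1) * w) / l * y - (j + 1) * h) := by
      intro hcon
      have := hj2 (j + 1) hcon
      omega
    push Not at h1
    have h2 : (u + j * w) / l ≤ (u + (j + 1) * w) / l := by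
      apply Int.ediv_le_ediv hl
      nlinarith
    have h3 : (u + j * w) / l * y ≤ (u + (j + 1) * w) / l * y :=
      mul_le_mul_of_nonneg_right h2 hy0
    nlinarith

theorem abs_add_le_of (x y c : ℤ) (h1 : -c ≤ x + y) (h2 : x + y ≤ c) (h3 : -c ≤ x - y)
    (h4 : x - y ≤ c) : |x| + |y| ≤ c := by
  rcases abs_cases x with ⟨hx, -⟩ | ⟨hx, -⟩ <;> rcases abs_cases y with ⟨hy, -⟩ | ⟨hy, -⟩ <;>
    rw [hx, hy] <;> linarith

/-! ### Sufficiency -/

theorem span_of_basis (n k : ℕ) (hn : 0 < n) (hk : 0 < k) (p1 p2 q1 q2 w1 w2 N s : ℤ)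
    (hdet : p2 * q1 - p1 * q2 = k) (hw : w1 * p1 + w2 * p2 = 1)
    (h1 : 0 ≤ p2 - p1) (h2 : q1 + q2 ≤ 0) (hl0 : 0 < p1 + p2) (hl : p1 + p2 ≤ N)
    (hh : q1 - q2 ≤ N) (hs : (n : ℤ) * N / 2 ≤ s) :
    ∃ a b : ZMod n × ZMod (n * k), Span2 s a b := by
  refine ⟨((w1 : ZMod n), (p2 : ZMod (n * k))), ((w2 : ZMod n), ((-p1 : ℤ) : ZMod (n * k))), ?_⟩
  rintro ⟨g1, g2⟩
  obtain ⟨U, rfl⟩ := ZMod.intCast_surjective g1
  obtain ⟨V, rfl⟩ := ZMod.intCast_surjective g2
  have hn' : (0 : ℤ) < n := by exact_mod_cast hn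
  have hk' : (0 : ℤ) < k := by exact_mod_cast hk
  set c : ℤ := (n : ℤ) * N / 2 with hc
  have hc2 : (n : ℤ) * N ≤ 2 * c + 1 := by omega
  obtain ⟨i, j, hi1, hi2, hj1, hj2⟩ := staircase (n * (p1 + p2)) (n * (p2 - p1)) (-(n * (q1 + q2)))
    (n * (q1 - q2)) (by positivity) (by nlinarith) (by positivity)
    (by
      have : (n : ℤ) * (p1 + p2) * (n * (q1 - q2)) - -(n * (q1 + q2)) * (n * (p2 - p1))
          = 2 * (n * n) * (p2 * q1 - p1 * q2) := by ring
      rw [this, hdet]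
      positivity)
    ((U * p1 + V * w2) + (U * p2 - V * w1) + c) ((U * p1 + V * w2) - (U * p2 - V * w1) + c)
  have e1 : (n : ℤ) * (p1 + p2) ≤ n * N := mul_le_mul_of_nonneg_left hl hn'.le
  have e2 : (n : ℤ) * (q1 - q2) ≤ n * N := mul_le_mul_of_nonneg_left hh hn'.le
  refine ⟨U * p1 + V * w2 - i * n * p1 - j * n * q1, U * p2 - V * w1 - i * n * p2 - j * n * q2,
    ?_, ?_⟩
  · refine (abs_add_le_of _ _ c ?_ ?_ ?_ ?_).trans hs <;> linarith
  · have hnz : ((n : ℤ) : ZMod n) = 0 := by simp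
    have hnk : ((n : ℤ) : ZMod (n * k)) * ((k : ℤ) : ZMod (n * k)) = 0 := by
      have : ((n * k : ℕ) : ZMod (n * k)) = 0 := ZMod.natCast_self _
      rw [Nat.cast_mul] at this
      rw [Int.cast_natCast, Int.cast_natCast]
      exact this
    refine Prod.ext ?_ ?_
    · show (U * p1 + V * w2 - i * n * p1 - j * n * q1) • (w1 : ZMod n)
          + (U * p2 - V * w1 - i * n * p2 - j * n * q2) • (w2 : ZMod n) = (U : ZMod n)
      rw [zsmul_eq_mul, zsmul_eq_mul]
      have h3 : (U * p1 + V * w2 - i * n * p1 - j * n * q1) * w1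
          + (U * p2 - V * w1 - i * n * p2 - j * n * q2) * w2
          = U + n * (-(i * (w1 * p1 + w2 * p2)) - j * (q1 * w1 + q2 * w2)) := by
        linear_combination U * hw
      rw [← Int.cast_mul, ← Int.cast_mul, ← Int.cast_add, h3, Int.cast_add, Int.cast_mul, hnz,
        zero_mul, add_zero]
    · show (U * p1 + V * w2 - i * n * p1 - j * n * q1) • (p2 : ZMod (n * k))
          + (U * p2 - V * w1 - i * n * p2 - j * n * q2) • ((-p1 : ℤ) : ZMod (n * k))
          = (V : ZMod (n * k))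
      rw [zsmul_eq_mul, zsmul_eq_mul]
      have h3 : (U * p1 + V * w2 - i * n * p1 - j * n * q1) * p2
          + (U * p2 - V * w1 - i * n * p2 - j * n * q2) * (-p1)
          = V + n * k * (-j) := by
        linear_combination V * hw - j * n * hdet
      rw [← Int.cast_mul, ← Int.cast_mul, ← Int.cast_add, h3, Int.cast_add, Int.cast_mul,
        Int.cast_mul, hnk, zero_mul, add_zero]

/-- Every integer `r` is congruent mod `2m²+2m+1` to `x(m+1) - ym` with `|x| + |y| ≤ m`. -/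
theorem lee_nonneg (m r : ℤ) (hm : 0 ≤ m) (hr0 : 0 ≤ r) (hr : r ≤ m * m + m) :
    ∃ x y : ℤ, |x| + |y| ≤ m ∧ x * (m + 1) - y * m = r := by
  rcases hm.eq_or_lt with rfl | hm0
  · exact ⟨0, 0, by simp, by simp only [zero_mul, mul_zero, sub_zero]; omega⟩
  rcases hr.eq_or_lt with rfl | hr'
  · exact ⟨m, 0, by simp [abs_of_pos hm0], by ring⟩
  have h1 := Int.emod_nonneg r hm0.ne'
  have h2 := Int.emod_lt_of_pos r hm0
  have h3 := Int.emod_add_mul_ediv r m
  set q := r / m with hq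
  set x := r % m with hx
  have hq0 : 0 ≤ q := Int.ediv_nonneg hr0 hm0.le
  have hqm : q ≤ m := by
    by_contra hcon
    push Not at hcon
    have : m * (m + 1) ≤ m * q := mul_le_mul_of_nonneg_left (by omega) hm0.le
    nlinarith
  rcases le_or_gt x q with hxq | hxq
  · refine ⟨x, -(q - x), ?_, by rw [← h3]; ring⟩
    rw [abs_neg, abs_of_nonneg h1, abs_of_nonneg (by omega)]
    omega
  · rcases le_or_gt (2 * x) (m + q) with h | h
    · refine ⟨x, -(q - x), ?_, by rw [← h3]; ring⟩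
      rw [abs_neg, abs_of_nonneg h1, abs_of_nonpos (by omega)]
      omega
    · refine ⟨x - m, -(q + 1 - (x - m)), ?_, by rw [← h3]; ring⟩
      rw [abs_neg, abs_of_nonpos (by omega), abs_of_nonneg (by omega)]
      omega

theorem lee_cover (m r : ℤ) (hm : 0 ≤ m) :
    ∃ x y : ℤ, |x| + |y| ≤ m ∧ (2 * m * m + 2 * m + 1) ∣ x * (m + 1) - y * m - r := by
  set k : ℤ := 2 * m * m + 2 * m + 1 with hk
  have hk0 : 0 < k := by nlinarith
  have h1 := Int.emod_nonneg (r + (m * m + m)) hk0.ne'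
  have h2 := Int.emod_lt_of_pos (r + (m * m + m)) hk0
  have h3 := Int.emod_add_mul_ediv (r + (m * m + m)) k
  set t := (r + (m * m + m)) % k with ht
  set q := (r + (m * m + m)) / k with hq
  rcases le_or_gt (m * m + m) t with h | h
  · obtain ⟨x, y, hxy, he⟩ := lee_nonneg m (t - (m * m + m)) hm (by omega) (by
      have : k = 2 * (m * m) + 2 * m + 1 := by rw [hk]; ring
      omega)
    refine ⟨x, y, hxy, -q, ?_⟩
    rw [he]
    linarith
  · obtain ⟨x, y, hxy, he⟩ := lee_nonneg m (m * m + m - t) hm (by omega) (by omega)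
    refine ⟨-x, -y, by rwa [abs_neg, abs_neg], -q, ?_⟩
    have : -x * (m + 1) - -y * m = -(m * m + m - t) := by rw [← he]; ring
    rw [this]
    linarith

theorem span_perfect (n m : ℕ) (hn : 0 < n) (hodd : Odd n) (s : ℤ) (hs : (n : ℤ) * m + n - 1 ≤ s) :
    ∃ a b : ZMod n × ZMod (n * (2 * m ^ 2 + 2 * m + 1)), Span2 s a b := by
  set k : ℕ := 2 * m ^ 2 + 2 * m + 1 with hk
  refine ⟨(((-1 : ℤ) : ZMod n), (((m : ℤ) + 1 : ℤ) : ZMod (n * k))),
    (((1 : ℤ) : ZMod n), ((-(m : ℤ) : ℤ) : ZMod (n * k))), ?_⟩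
  rintro ⟨g1, g2⟩
  obtain ⟨U, rfl⟩ := ZMod.intCast_surjective g1
  obtain ⟨V, rfl⟩ := ZMod.intCast_surjective g2
  have hn' : (0 : ℤ) < n := by exact_mod_cast hn
  obtain ⟨h, hh⟩ := hodd
  -- a representation, written as `n z + e`
  set x0 : ℤ := U * m + V with hx0
  set y0 : ℤ := U * (m + 1) + V with hy0
  have bal : ∀ z : ℤ, ∃ q e : ℤ, z = n * q + e ∧ |e| ≤ h := by
    intro z
    refine ⟨(z + h) / n, (z + h) % n - h, ?_, ?_⟩
    · have h3 := Int.emod_add_mul_ediv (z + h) n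
      linarith
    · have h1 := Int.emod_nonneg (z + h) hn'.ne'
      have h2 := Int.emod_lt_of_pos (z + h) hn'
      rw [abs_le]
      constructor <;> omega
  obtain ⟨z1, e1, hz1, he1⟩ := bal x0
  obtain ⟨z2, e2, hz2, he2⟩ := bal y0
  obtain ⟨x, y, hxy, c, hc⟩ := lee_cover m (z1 * (m + 1) - z2 * m) (by positivity)
  refine ⟨n * x + e1, n * y + e2, ?_, ?_⟩
  · have a1 := abs_add_le ((n : ℤ) * x) e1
    have a2 := abs_add_le ((n : ℤ) * y) e2
    rw [abs_mul, abs_of_pos hn'] at a1 a2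
    have a3 : (n : ℤ) * (|x| + |y|) ≤ n * m := mul_le_mul_of_nonneg_left hxy hn'.le
    have a4 : (n : ℤ) = 2 * h + 1 := by exact_mod_cast hh
    nlinarith
  · have hnz : ((n : ℤ) : ZMod n) = 0 := by simp
    have hnk : ((n : ℤ) : ZMod (n * k)) * ((k : ℤ) : ZMod (n * k)) = 0 := by
      have : ((n * k : ℕ) : ZMod (n * k)) = 0 := ZMod.natCast_self _
      rw [Nat.cast_mul] at this
      rw [Int.cast_natCast, Int.cast_natCast]
      exact this
    refine Prod.ext ?_ ?_
    · show (n * x + e1) • ((-1 : ℤ) : ZMod n) + (n * y + e2) • ((1 : ℤ) : ZMod n) = (U : ZMod n)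
      rw [zsmul_eq_mul, zsmul_eq_mul]
      have h3 : (n * x + e1) * (-1) + (n * y + e2) * 1 = U + n * (z1 - x + y - z2) := by
        linear_combination hz1 - hz2 - hx0 + hy0
      rw [← Int.cast_mul, ← Int.cast_mul, ← Int.cast_add, h3, Int.cast_add, Int.cast_mul, hnz,
        zero_mul, add_zero]
    · show (n * x + e1) • (((m : ℤ) + 1 : ℤ) : ZMod (n * k))
          + (n * y + e2) • ((-(m : ℤ) : ℤ) : ZMod (n * k)) = (V : ZMod (n * k))
      rw [zsmul_eq_mul, zsmul_eq_mul]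
      have hkk : (k : ℤ) = 2 * m * m + 2 * m + 1 := by rw [hk]; push_cast; ring
      have h3 : (n * x + e1) * ((m : ℤ) + 1) + (n * y + e2) * (-(m : ℤ))
          = V + n * k * c := by
        rw [hkk]
        linear_combination (n : ℤ) * hc - (m + 1) * hz1 + m * hz2 + (m + 1) * hx0 - m * hy0
      rw [← Int.cast_mul, ← Int.cast_mul, ← Int.cast_add, h3, Int.cast_add, Int.cast_mul,
        Int.cast_mul, hnk, zero_mul, add_zero]

end Pool.Agent.R159.RankTwo
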