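import Mathlib
import Pool.Agent.R159.RankTwo

set_option autoImplicit false

namespace Pool.Agent.R159.RankTwo

/-! ### Necessity -/

theorem ker_dvd (n k : ℕ) (a b : ZMod n × ZMod (n * k))
    (hsurj : ∀ g : ZMod n × ZMod (n * k), ∃ x y : ℤ, x • a + y • b = g) (x y : ℤ)
    (h : x • a + y • b = 0) : (n : ℤ) ∣ x ∧ (n : ℤ) ∣ y := by
  obtain ⟨a1, a2⟩ := a
  obtain ⟨b1, b2⟩ := b
  obtain ⟨A, rfl⟩ := ZMod.intCast_surjective a2
  obtain ⟨B, rfl⟩ := ZMod.intCast_surjective b2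
  obtain ⟨x1, y1, h1⟩ := hsurj (1, 0)
  obtain ⟨x2, y2, h2⟩ := hsurj (0, 1)
  have red : ∀ (u v c : ℤ), u • (A : ZMod (n * k)) + v • (B : ZMod (n * k))
      = (c : ZMod (n * k)) → (u : ZMod n) * A + (v : ZMod n) * B = (c : ZMod n) := by
    intro u v c huv
    have := congrArg (ZMod.castHom (dvd_mul_right n k) (ZMod n)) huv
    rw [zsmul_eq_mul, zsmul_eq_mul, map_add, map_mul, map_mul, map_intCast, map_intCast,
      map_intCast, map_intCast, map_intCast] at this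
    exact this
  have red1 : ∀ (u v : ℤ) (c : ZMod n), u • a1 + v • b1 = c →
      (u : ZMod n) * a1 + (v : ZMod n) * b1 = c := by
    intro u v c huv
    rw [zsmul_eq_mul, zsmul_eq_mul] at huv
    exact huv
  have f1 := red1 x1 y1 1 (congrArg Prod.fst h1)
  have f2 := red x1 y1 0 (by rw [Int.cast_zero]; exact congrArg Prod.snd h1)
  have f3 := red1 x2 y2 0 (congrArg Prod.fst h2)
  have f4 := red x2 y2 1 (by rw [Int.cast_one]; exact congrArg Prod.snd h2)
  have f5 := red1 x y 0 (congrArg Prod.fst h)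
  have f6 := red x y 0 (by rw [Int.cast_zero]; exact congrArg Prod.snd h)
  rw [Int.cast_zero] at f2 f6
  rw [Int.cast_one] at f4
  have hde : (a1 * B - b1 * A) * ((x1 : ZMod n) * y2 - x2 * y1) = 1 := by
    linear_combination ((x2 : ZMod n) * A + y2 * B) * f1 + f4 - ((x1 : ZMod n) * A + y1 * B) * f3
  constructor
  · rw [← ZMod.intCast_zmod_eq_zero_iff_dvd]
    linear_combination ((x1 : ZMod n) * y2 - x2 * y1) * B * f5
      - ((x1 : ZMod n) * y2 - x2 * y1) * b1 * f6 - (x : ZMod n) * hde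
  · rw [← ZMod.intCast_zmod_eq_zero_iff_dvd]
    linear_combination ((x1 : ZMod n) * y2 - x2 * y1) * a1 * f6
      - ((x1 : ZMod n) * y2 - x2 * y1) * A * f5 - (y : ZMod n) * hde

/-- The covering property coming from a spanning pair. -/
theorem cov (n k : ℕ) (hn : 0 < n) (a b : ZMod n × ZMod (n * k)) (s : ℤ)
    (hs : Span2 s a b) : ∃ α β : ℤ, (∃ x y : ℤ, (k : ℤ) ∣ x * α + y * β - 1) ∧
      ∀ e1 e2 r : ℤ, ∃ w1 w2 : ℤ, |n * w1 + e1| + |n * w2 + e2| ≤ s ∧
        (k : ℤ) ∣ w1 * α + w2 * β - r := by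
  have hsurj : ∀ g : ZMod n × ZMod (n * k), ∃ x y : ℤ, x • a + y • b = g := by
    intro g
    obtain ⟨x, y, -, h⟩ := hs g
    exact ⟨x, y, h⟩
  have hker := ker_dvd n k a b hsurj
  obtain ⟨a1, a2⟩ := a
  obtain ⟨b1, b2⟩ := b
  obtain ⟨α, rfl⟩ := ZMod.intCast_surjective a2
  obtain ⟨β, rfl⟩ := ZMod.intCast_surjective b2
  have hn' : (0 : ℤ) < n := by exact_mod_cast hn
  have snd : ∀ (x y c : ℤ), x • (α : ZMod (n * k)) + y • (β : ZMod (n * k)) = (c : ZMod (n * k)) →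
      ((n * k : ℕ) : ℤ) ∣ x * α + y * β - c := by
    intro x y c h
    rw [← ZMod.intCast_zmod_eq_zero_iff_dvd]
    rw [zsmul_eq_mul, zsmul_eq_mul] at h
    push_cast
    rw [h, sub_self]
  obtain ⟨x0, y0, h0⟩ := hsurj (0, 1)
  have h01 := snd x0 y0 1 (by rw [Int.cast_one]; exact congrArg Prod.snd h0)
  have hkd : (k : ℤ) ∣ ((n * k : ℕ) : ℤ) := ⟨n, by push_cast; ring⟩
  refine ⟨α, β, ⟨x0, y0, hkd.trans h01⟩, ?_⟩
  intro e1 e2 r
  obtain ⟨x, y, hxy, he⟩ := hs ((n * (r * x0) + e1) • ((a1, (α : ZMod (n * k))) : ZMod n × ZMod (n * k))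
    + (n * (r * y0) + e2) • ((b1, (β : ZMod (n * k))) : ZMod n × ZMod (n * k)))
  have hz : (x - (n * (r * x0) + e1)) • ((a1, (α : ZMod (n * k))) : ZMod n × ZMod (n * k))
      + (y - (n * (r * y0) + e2)) • ((b1, (β : ZMod (n * k))) : ZMod n × ZMod (n * k)) = 0 := by
    rw [sub_smul, sub_smul, sub_add_sub_comm, he, sub_self]
  obtain ⟨⟨u, hu⟩, ⟨v, hv⟩⟩ := hker _ _ hz
  have h3 := snd _ _ 0 (by rw [Int.cast_zero]; exact congrArg Prod.snd hz)
  rw [hu, hv, sub_zero] at h3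
  obtain ⟨c, hc⟩ := h3
  obtain ⟨d, hd⟩ := hkd.trans h01
  refine ⟨r * x0 + u, r * y0 + v, ?_, ?_⟩
  · have g1 : (n : ℤ) * (r * x0 + u) + e1 = x := by linear_combination -hu
    have g2 : (n : ℤ) * (r * y0 + v) + e2 = y := by linear_combination -hv
    rw [g1, g2]; exact hxy
  · refine ⟨c + r * d, ?_⟩
    have h4 : (n : ℤ) * (u * α + v * β) = n * (k * c) := by
      push_cast at hc
      linear_combination hc
    have h5 := mul_left_cancel₀ hn'.ne' h4
    linear_combination h5 + r * hd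

theorem le_of_code (k C : ℕ) (α β : ℤ) (S : ℤ → ℤ → Prop) (code : ℤ → ℤ → ℤ)
    (hcode : ∀ x y, S x y → 0 ≤ code x y ∧ code x y < C)
    (hinj : ∀ x y x' y', S x y → S x' y' → code x y = code x' y' → x = x' ∧ y = y')
    (H : ∀ r : ℤ, ∃ x y : ℤ, S x y ∧ (k : ℤ) ∣ x * α + y * β - r) : k ≤ C := by
  choose X Y hS hd using H
  have h1 : (Finset.range k).card ≤ (Finset.Ico (0 : ℤ) C).card := by
    apply Finset.card_le_card_of_injOn (fun r : ℕ => code (X r) (Y r))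
    · intro r _
      have := hcode _ _ (hS r)
      simp only [Finset.coe_Ico, Set.mem_Ico]
      exact this
    · intro r hr r' hr' h
      obtain ⟨e1, e2⟩ := hinj _ _ _ _ (hS r) (hS r') h
      have d1 := hd r
      have d2 := hd r'
      rw [← e1, ← e2] at d2
      have d3 : (k : ℤ) ∣ (r' : ℤ) - r := by
        have := dvd_sub d1 d2
        have e : X r * α + Y r * β - r - (X r * α + Y r * β - r') = (r' : ℤ) - r := by ring
        rwa [e] at this
      simp only [Finset.coe_range, Set.mem_Iio] at hr hr'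
      have h4 : |(r' : ℤ) - r| < k := by rw [abs_lt]; constructor <;> omega
      have h5 := Int.eq_zero_of_abs_lt_dvd d3 h4
      omega
  rw [Finset.card_range, Int.card_Ico] at h1
  omega

theorem divmod_unique (B a b a' b' : ℤ) (hb : 0 ≤ b) (hb2 : b < B) (hb' : 0 ≤ b') (hb2' : b' < B)
    (h : a * B + b = a' * B + b') : a = a' ∧ b = b' := by
  have h1 : B ∣ b' - b := ⟨a - a', by linear_combination -h⟩
  have h2 : |b' - b| < B := by rw [abs_lt]; constructor <;> omega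
  have h3 := Int.eq_zero_of_abs_lt_dvd h1 h2
  have h4 : b = b' := by omega
  subst h4
  refine ⟨?_, rfl⟩
  have hB : B ≠ 0 := by omega
  exact mul_right_cancel₀ hB (add_right_cancel h)

/-- Counting for boxes (rotated coordinates) with odd side. -/
theorem count_odd (k m : ℕ) (α β X0 Y0 : ℤ)
    (H : ∀ r : ℤ, ∃ x y : ℤ, (X0 ≤ x + y ∧ x + y ≤ X0 + 2 * m ∧ Y0 ≤ x - y ∧ x - y ≤ Y0 + 2 * m) ∧
      (k : ℤ) ∣ x * α + y * β - r) :
    k ≤ 2 * m ^ 2 + 2 * m + 1 ∧ (¬ (2 : ℤ) ∣ X0 + Y0 → k ≤ 2 * m ^ 2 + 2 * m) := by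
  have hpar : ∀ x y : ℤ, ((x + y - X0) * (2 * m + 1) + (x - y - Y0)) % 2 = (X0 + Y0) % 2 := by
    intro x y
    have : (x + y - X0) * (2 * m + 1) + (x - y - Y0)
        = (X0 + Y0) + 2 * ((x + y - X0) * m + x - X0 - Y0) := by ring
    rw [this]
    omega
  have hrange : ∀ x y : ℤ, (X0 ≤ x + y ∧ x + y ≤ X0 + 2 * m ∧ Y0 ≤ x - y ∧ x - y ≤ Y0 + 2 * m) →
      0 ≤ (x + y - X0) * (2 * m + 1) + (x - y - Y0) ∧
      (x + y - X0) * (2 * m + 1) + (x - y - Y0) ≤ 2 * (2 * m ^ 2 + 2 * m) := by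
    rintro x y ⟨h1, h2, h3, h4⟩
    have h5 : 0 ≤ (x + y - X0) * (2 * (m : ℤ) + 1) := mul_nonneg (by omega) (by positivity)
    have h6 : (x + y - X0) * (2 * (m : ℤ) + 1) ≤ 2 * m * (2 * m + 1) :=
      mul_le_mul_of_nonneg_right (by omega) (by positivity)
    constructor
    · omega
    · nlinarith
  have hinj : ∀ x y x' y' : ℤ,
      (X0 ≤ x + y ∧ x + y ≤ X0 + 2 * m ∧ Y0 ≤ x - y ∧ x - y ≤ Y0 + 2 * m) →
      (X0 ≤ x' + y' ∧ x' + y' ≤ X0 + 2 * m ∧ Y0 ≤ x' - y' ∧ x' - y' ≤ Y0 + 2 * m) →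
      ((x + y - X0) * (2 * m + 1) + (x - y - Y0)) / 2
        = ((x' + y' - X0) * (2 * m + 1) + (x' - y' - Y0)) / 2 → x = x' ∧ y = y' := by
    rintro x y x' y' ⟨h1, h2, h3, h4⟩ ⟨h1', h2', h3', h4'⟩ h
    have p1 := hpar x y
    have p2 := hpar x' y'
    have h5 : (x + y - X0) * (2 * (m : ℤ) + 1) + (x - y - Y0)
        = (x' + y' - X0) * (2 * m + 1) + (x' - y' - Y0) := by omega
    obtain ⟨h6, h7⟩ := divmod_unique _ _ _ _ _ (by omega) (by omega) (by omega) (by omega) h5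
    omega
  constructor
  · apply le_of_code k _ α β _ _ _ hinj H
    intro x y hxy
    have h1 := hrange x y hxy
    push_cast
    omega
  · intro hodd
    apply le_of_code k _ α β _ _ _ hinj H
    intro x y hxy
    have h1 := hrange x y hxy
    have h2 := hpar x y
    push_cast
    omega

/-- Counting for boxes (rotated coordinates) with horizontal side `2m`. -/
theorem count_even (k m B : ℕ) (α β X0 Y0 : ℤ)
    (H : ∀ r : ℤ, ∃ x y : ℤ, (X0 ≤ x + y ∧ x + y < X0 + 2 * m ∧ Y0 ≤ x - y ∧ x - y < Y0 + B) ∧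
      (k : ℤ) ∣ x * α + y * β - r) : k ≤ m * B := by
  apply le_of_code k _ α β _ (fun x y => (x + y - X0) / 2 * B + (x - y - Y0)) _ _ H
  · rintro x y ⟨h1, h2, h3, h4⟩
    have h5 : 0 ≤ (x + y - X0) / 2 * (B : ℤ) := mul_nonneg (by omega) (by positivity)
    have h6 : (x + y - X0) / 2 * (B : ℤ) ≤ (m - 1) * B :=
      mul_le_mul_of_nonneg_right (by omega) (by positivity)
    push_cast
    constructor
    · omega
    · show (x + y - X0) / 2 * (B : ℤ) + (x - y - Y0) < m * B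
      nlinarith
  · rintro x y x' y' ⟨h1, h2, h3, h4⟩ ⟨h1', h2', h3', h4'⟩ h
    obtain ⟨h6, h7⟩ := divmod_unique _ _ _ _ _ (by omega) (by omega) (by omega) (by omega) h
    omega

/-- Counting for boxes (rotated coordinates) with vertical side `2m`. -/
theorem count_even' (k m B : ℕ) (α β X0 Y0 : ℤ)
    (H : ∀ r : ℤ, ∃ x y : ℤ, (X0 ≤ x + y ∧ x + y < X0 + B ∧ Y0 ≤ x - y ∧ x - y < Y0 + 2 * m) ∧
      (k : ℤ) ∣ x * α + y * β - r) : k ≤ m * B := by
  apply count_even k m B α (-β) Y0 X0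
  intro r
  obtain ⟨x, y, ⟨h1, h2, h3, h4⟩, h5⟩ := H r
  refine ⟨x, -y, ⟨by linarith, by linarith, by linarith, by linarith⟩, ?_⟩
  have : x * α + -y * -β - r = x * α + y * β - r := by ring
  rwa [this]

end Pool.Agent.R159.RankTwo
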