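import Mathlib
import Pool.Agent.R159.RankTwoB

set_option autoImplicit false

namespace Pool.Agent.R159.RankTwo

theorem caseA (k m : ℕ) (hk : 0 < k) (α β : ℤ) (hgen : ∃ x y : ℤ, (k : ℤ) ∣ x * α + y * β - 1)
    (Cov : ∀ X0 Y0 r : ℤ, ∃ x y : ℤ,
      (X0 ≤ x + y ∧ x + y < X0 + 2 * m ∧ Y0 ≤ x - y ∧ x - y < Y0 + 2 * m) ∧
      (k : ℤ) ∣ x * α + y * β - r) :
    k ≤ m * (2 * m - 1) ∨ (Even m ∧ Even k ∧ k ≤ 2 * m ^ 2) ∨
      (Odd m ∧ k % 4 = 2 ∧ k ≤ 2 * m ^ 2) := by
  have hk2 : k ≤ m * (2 * m) := by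
    apply count_even k m (2 * m) α β 0 0
    intro r
    obtain ⟨x, y, h, hd⟩ := Cov 0 0 r
    exact ⟨x, y, by push_cast; exact h, hd⟩
  have hk3 : k ≤ 2 * m ^ 2 := by
    calc k ≤ m * (2 * m) := hk2
      _ = 2 * m ^ 2 := by ring
  by_cases hle : k ≤ m * (2 * m - 1)
  · exact Or.inl hle
  right
  push Not at hle
  have hm : 1 ≤ m := by
    rcases Nat.eq_zero_or_pos m with h | h
    · subst h; omega
    · exact h
  have hcast : ((2 * m - 1 : ℕ) : ℤ) = 2 * m - 1 := by
    push_cast [Nat.cast_sub (show 1 ≤ 2 * m by omega)]; ring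
  have hle' : (m : ℤ) * (2 * m - 1) < k := by
    rw [← hcast]; exact_mod_cast hle
  -- a residue missed by the box with vertical side `2m - 1`
  obtain ⟨r1, hr1⟩ : ∃ r : ℤ, ∀ x y : ℤ,
      (0 ≤ x + y ∧ x + y < 0 + 2 * m ∧ 0 ≤ x - y ∧ x - y < 0 + ((2 * m - 1 : ℕ) : ℤ)) →
      ¬ (k : ℤ) ∣ x * α + y * β - r := by
    by_contra hcon
    push Not at hcon
    exact absurd (count_even k m (2 * m - 1) α β 0 0 hcon) (by omega)
  obtain ⟨r2, hr2⟩ : ∃ r : ℤ, ∀ x y : ℤ,
      (0 ≤ x + y ∧ x + y < 0 + ((2 * m - 1 : ℕ) : ℤ) ∧ 0 ≤ x - y ∧ x - y < 0 + 2 * m) →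
      ¬ (k : ℤ) ∣ x * α + y * β - r := by
    by_contra hcon
    push Not at hcon
    exact absurd (count_even' k m (2 * m - 1) α β 0 0 hcon) (by omega)
  rw [hcast] at hr1 hr2
  obtain ⟨x0, y0, ⟨a1, a2, a3, a4⟩, d0⟩ := Cov 0 0 r1
  obtain ⟨x1, y1, ⟨b1, b2, b3, b4⟩, d1⟩ := Cov 0 (-1) r1
  obtain ⟨x2, y2, ⟨c1, c2, c3, c4⟩, d2⟩ := Cov 0 0 r2
  obtain ⟨x3, y3, ⟨e1, e2, e3, e4⟩, d3⟩ := Cov (-1) 0 r2
  have t0 : x0 - y0 = 2 * m - 1 := by
    by_contra hcon
    exact hr1 x0 y0 ⟨a1, a2, a3, by omega⟩ d0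
  have t1 : x1 - y1 = -1 := by
    by_contra hcon
    exact hr1 x1 y1 ⟨b1, b2, by omega, by omega⟩ d1
  have t2 : x2 + y2 = 2 * m - 1 := by
    by_contra hcon
    exact hr2 x2 y2 ⟨c1, by omega, c3, c4⟩ d2
  have t3 : x3 + y3 = -1 := by
    by_contra hcon
    exact hr2 x3 y3 ⟨by omega, by omega, e3, e4⟩ d3
  -- the two lattice vectors `(m + a, a - m)` and `(m + b, m - b)`
  obtain ⟨a, ha⟩ : ∃ a : ℤ, a = y0 - y1 + m := ⟨_, rfl⟩
  obtain ⟨b, hb⟩ : ∃ b : ℤ, b = m - (y2 - y3) := ⟨_, rfl⟩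
  have ha' : |a| ≤ (m : ℤ) - 1 := by rw [abs_le]; constructor <;> omega
  have hb' : |b| ≤ (m : ℤ) - 1 := by rw [abs_le]; constructor <;> omega
  have hab : |a * b| ≤ ((m : ℤ) - 1) * (m - 1) := by
    rw [abs_mul]
    exact mul_le_mul ha' hb' (abs_nonneg _) (by omega)
  obtain ⟨u, hu⟩ : (k : ℤ) ∣ (m + a) * α + (a - m) * β := by
    have := dvd_sub d0 d1
    have e : x0 * α + y0 * β - r1 - (x1 * α + y1 * β - r1) = (m + a) * α + (a - m) * β := by
      have g1 : x0 - x1 = m + a := by omega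
      have g2 : y0 - y1 = a - m := by omega
      rw [← g1, ← g2]; ring
    rwa [e] at this
  obtain ⟨v, hv⟩ : (k : ℤ) ∣ (m + b) * α + (m - b) * β := by
    have := dvd_sub d2 d3
    have e : x2 * α + y2 * β - r2 - (x3 * α + y3 * β - r2) = (m + b) * α + (m - b) * β := by
      have g1 : x2 - x3 = m + b := by omega
      have g2 : y2 - y3 = m - b := by omega
      rw [← g1, ← g2]; ring
    rwa [e] at this
  obtain ⟨x, y, w, hw⟩ := hgen
  have hkpos : (0 : ℤ) < k := by exact_mod_cast hk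
  have hA : (2 * (m : ℤ) ^ 2 - 2 * (a * b)) * α = k * ((m - b) * u - (a - m) * v) := by
    linear_combination ((m : ℤ) - b) * hu - (a - m) * hv
  have hB : (2 * (m : ℤ) ^ 2 - 2 * (a * b)) * β = k * ((m + a) * v - (m + b) * u) := by
    linear_combination ((m : ℤ) + a) * hv - (m + b) * hu
  have hdet : (k : ℤ) ∣ 2 * (m : ℤ) ^ 2 - 2 * (a * b) := by
    refine ⟨x * ((m - b) * u - (a - m) * v) + y * ((m + a) * v - (m + b) * u)
      - w * (2 * (m : ℤ) ^ 2 - 2 * (a * b)), ?_⟩
    linear_combination x * hA + y * hB - (2 * (m : ℤ) ^ 2 - 2 * (a * b)) * hw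
  obtain ⟨c, hc⟩ := hdet
  have hab1 := (abs_le.mp hab).1
  have hab2 := (abs_le.mp hab).2
  have hm' : (1 : ℤ) ≤ m := by exact_mod_cast hm
  have hc1 : 1 ≤ c := by
    by_contra hcon
    push Not at hcon
    have : (k : ℤ) * c ≤ 0 := mul_nonpos_of_nonneg_of_nonpos hkpos.le (by omega)
    nlinarith
  have hc2 : c < 2 := by
    by_contra hcon
    push Not at hcon
    have : (k : ℤ) * 2 ≤ k * c := mul_le_mul_of_nonneg_left hcon hkpos.le
    nlinarith
  have hc3 : c = 1 := by omega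
  rw [hc3, mul_one] at hc
  have hkeven : Even k := by
    have : (2 : ℤ) ∣ k := ⟨(m : ℤ) ^ 2 - a * b, by rw [← hc]; ring⟩
    exact even_iff_two_dvd.mpr (by exact_mod_cast this)
  rcases Nat.even_or_odd m with hme | hmo
  · exact Or.inl ⟨hme, hkeven, hk3⟩
  · right
    refine ⟨hmo, ?_, hk3⟩
    rcases Int.even_or_odd (a * b) with hab3 | hab3
    · obtain ⟨z, hz⟩ := hab3
      obtain ⟨j, hj⟩ := hmo
      have : (k : ℤ) = 4 * (2 * (j : ℤ) ^ 2 + 2 * j - z) + 2 := by
        rw [← hc, hz, hj]; push_cast; ring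
      omega
    · exfalso
      obtain ⟨ha3, hb3⟩ := Int.odd_mul.mp hab3
      have hmo' : Odd (m : ℤ) := by exact_mod_cast hmo
      rw [hc] at hA hB
      have hA' := mul_left_cancel₀ hkpos.ne' hA
      have hB' := mul_left_cancel₀ hkpos.ne' hB
      have hαe : Even α := by
        rw [hA']
        exact ((hmo'.sub_odd hb3).mul_right _).sub ((ha3.sub_odd hmo').mul_right _)
      have hβe : Even β := by
        rw [hB']
        exact ((hmo'.add_odd ha3).mul_right _).sub ((hmo'.add_odd hb3).mul_right _)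
      have hke : Even (k : ℤ) := by exact_mod_cast hkeven
      obtain ⟨α', hα'⟩ := hαe
      obtain ⟨β', hβ'⟩ := hβe
      obtain ⟨k', hk'⟩ := hke
      have : 2 * (x * α' + y * β' - k' * w) = 1 := by
        rw [hα', hβ', hk'] at hw
        linear_combination hw
      omega

/-- The criterion. -/
def Crit (n k s : ℕ) : Prop :=
  (s % n < n / 2 ∧ (k ≤ (s / n) * (2 * (s / n) - 1) ∨
    (Even (s / n) ∧ Even k ∧ k ≤ 2 * (s / n) ^ 2) ∨
    (Odd (s / n) ∧ k % 4 = 2 ∧ k ≤ 2 * (s / n) ^ 2))) ∨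
  (n / 2 ≤ s % n ∧ k ≤ 2 * (s / n) ^ 2 + 2 * (s / n)) ∨
  (Odd n ∧ s % n = n - 1 ∧ k = 2 * (s / n) ^ 2 + 2 * (s / n) + 1)

theorem necessity (n k s : ℕ) (hn : 2 ≤ n) (hk : 0 < k) (a b : ZMod n × ZMod (n * k))
    (hs : Span2 (s : ℤ) a b) : Crit n k s := by
  obtain ⟨α, β, hgen, hcov⟩ := cov n k (by omega) a b s hs
  set m := s / n with hm
  set t := s % n with ht
  have hst : n * m + t = s := Nat.div_add_mod s n
  have htn : t < n := Nat.mod_lt _ (by omega)
  have hst' : (s : ℤ) = n * m + t := by exact_mod_cast hst.symm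
  have hn' : (0 : ℤ) < n := by exact_mod_cast (by omega : 0 < n)
  obtain ⟨h, hh⟩ : ∃ h, h = n / 2 := ⟨_, rfl⟩
  have h2 : 2 * h ≤ n := by omega
  -- products
  have prod : ∀ z c : ℤ, c ≤ z → (n : ℤ) * c ≤ n * z := fun z c h => mul_le_mul_of_nonneg_left h hn'.le
  unfold Crit
  rw [← hm, ← ht, ← hh]
  rcases lt_or_ge t h with hth | hth
  · -- case A
    left
    refine ⟨hth, ?_⟩
    apply caseA k m hk α β hgen
    intro X0 Y0 r
    rcases Int.even_or_odd (X0 + Y0) with hpar | hpar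
    · obtain ⟨z, hz⟩ := hpar
      -- translation by `(τ1, τ2)`
      obtain ⟨w1, w2, hw, hd⟩ := hcov h 0 (r - ((z + m) * α + (z - Y0) * β))
      have k1 := le_abs_self ((n : ℤ) * w1 + h)
      have k2 := neg_le_abs ((n : ℤ) * w1 + h)
      have k3 := le_abs_self ((n : ℤ) * w2 + 0)
      have k4 := neg_le_abs ((n : ℤ) * w2 + 0)
      have j1 : w1 + w2 < m := by
        by_contra hcon
        have := prod (w1 + w2) m (by omega)
        have e : (n : ℤ) * (w1 + w2) = n * w1 + n * w2 := by ring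
        omega
      have j2 : -(m : ℤ) ≤ w1 + w2 := by
        by_contra hcon
        have := prod (-(w1 + w2)) (m + 1) (by omega)
        have e : (n : ℤ) * (-(w1 + w2)) = -(n * w1) - n * w2 := by ring
        have e2 : (n : ℤ) * (m + 1) = n * m + n := by ring
        omega
      have j3 : w1 - w2 < m := by
        by_contra hcon
        have := prod (w1 - w2) m (by omega)
        have e : (n : ℤ) * (w1 - w2) = n * w1 - n * w2 := by ring
        omega
      have j4 : -(m : ℤ) ≤ w1 - w2 := by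
        by_contra hcon
        have := prod (-(w1 - w2)) (m + 1) (by omega)
        have e : (n : ℤ) * (-(w1 - w2)) = -(n * w1) + n * w2 := by ring
        have e2 : (n : ℤ) * (m + 1) = n * m + n := by ring
        omega
      refine ⟨w1 + (z + m), w2 + (z - Y0), ⟨by omega, by omega, by omega, by omega⟩, ?_⟩
      have e : (w1 + (z + m)) * α + (w2 + (z - Y0)) * β - r
          = w1 * α + w2 * β - (r - ((z + m) * α + (z - Y0) * β)) := by ring
      rw [e]; exact hd
    · obtain ⟨z, hz⟩ := hpar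
      obtain ⟨w1, w2, hw, hd⟩ := hcov 0 h (r - ((z + m) * α + (z + 1 - Y0) * β))
      have k1 := le_abs_self ((n : ℤ) * w1 + 0)
      have k2 := neg_le_abs ((n : ℤ) * w1 + 0)
      have k3 := le_abs_self ((n : ℤ) * w2 + h)
      have k4 := neg_le_abs ((n : ℤ) * w2 + h)
      have j1 : w1 + w2 < m := by
        by_contra hcon
        have := prod (w1 + w2) m (by omega)
        have e : (n : ℤ) * (w1 + w2) = n * w1 + n * w2 := by ring
        omega
      have j2 : -(m : ℤ) ≤ w1 + w2 := by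
        by_contra hcon
        have := prod (-(w1 + w2)) (m + 1) (by omega)
        have e : (n : ℤ) * (-(w1 + w2)) = -(n * w1) - n * w2 := by ring
        have e2 : (n : ℤ) * (m + 1) = n * m + n := by ring
        omega
      have j3 : w1 - w2 ≤ m := by
        by_contra hcon
        have := prod (w1 - w2) (m + 1) (by omega)
        have e : (n : ℤ) * (w1 - w2) = n * w1 - n * w2 := by ring
        have e2 : (n : ℤ) * (m + 1) = n * m + n := by ring
        omega
      have j4 : -(m : ℤ) < w1 - w2 := by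
        by_contra hcon
        have := prod (-(w1 - w2)) m (by omega)
        have e : (n : ℤ) * (-(w1 - w2)) = -(n * w1) + n * w2 := by ring
        omega
      refine ⟨w1 + (z + m), w2 + (z + 1 - Y0), ⟨by omega, by omega, by omega, by omega⟩, ?_⟩
      have e : (w1 + (z + m)) * α + (w2 + (z + 1 - Y0)) * β - r
          = w1 * α + w2 * β - (r - ((z + m) * α + (z + 1 - Y0) * β)) := by ring
      rw [e]; exact hd
  · right
    -- the bound `k ≤ 2m² + 2m + 1`
    have hC : k ≤ 2 * m ^ 2 + 2 * m + 1 := by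
      apply (count_odd k m α β (-m) (-m) ?_).1
      intro r
      obtain ⟨w1, w2, hw, hd⟩ := hcov 0 0 r
      have k1 := le_abs_self ((n : ℤ) * w1 + 0)
      have k2 := neg_le_abs ((n : ℤ) * w1 + 0)
      have k3 := le_abs_self ((n : ℤ) * w2 + 0)
      have k4 := neg_le_abs ((n : ℤ) * w2 + 0)
      have e2 : (n : ℤ) * (m + 1) = n * m + n := by ring
      refine ⟨w1, w2, ⟨?_, ?_, ?_, ?_⟩, hd⟩
      · by_contra hcon
        have := prod (-(w1 + w2)) (m + 1) (by omega)
        have e : (n : ℤ) * (-(w1 + w2)) = -(n * w1) - n * w2 := by ring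
        omega
      · by_contra hcon
        have := prod (w1 + w2) (m + 1) (by omega)
        have e : (n : ℤ) * (w1 + w2) = n * w1 + n * w2 := by ring
        omega
      · by_contra hcon
        have := prod (-(w1 - w2)) (m + 1) (by omega)
        have e : (n : ℤ) * (-(w1 - w2)) = -(n * w1) + n * w2 := by ring
        omega
      · by_contra hcon
        have := prod (w1 - w2) (m + 1) (by omega)
        have e : (n : ℤ) * (w1 - w2) = n * w1 - n * w2 := by ring
        omega
    by_cases hsp : Odd n ∧ t = n - 1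
    · rcases hC.eq_or_lt with h3 | h3
      · right; exact ⟨hsp.1, hsp.2, h3⟩
      · left; exact ⟨hth, by omega⟩
    · left
      refine ⟨hth, ?_⟩
      have h2t : t < 2 * h := by
        rcases Nat.even_or_odd n with he | ho
        · obtain ⟨j, hj⟩ := he; omega
        · have : t ≠ n - 1 := fun h => hsp ⟨ho, h⟩
          obtain ⟨j, hj⟩ := ho
          omega
      apply (count_odd k m α β (-m - 1) (-m) ?_).2
      · omega
      intro r
      obtain ⟨w1, w2, hw, hd⟩ := hcov h h r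
      have k1 := le_abs_self ((n : ℤ) * w1 + h)
      have k2 := neg_le_abs ((n : ℤ) * w1 + h)
      have k3 := le_abs_self ((n : ℤ) * w2 + h)
      have k4 := neg_le_abs ((n : ℤ) * w2 + h)
      have e2 : (n : ℤ) * (m + 1) = n * m + n := by ring
      have e3 : (n : ℤ) * (m + 2) = n * m + 2 * n := by ring
      refine ⟨w1, w2, ⟨?_, ?_, ?_, ?_⟩, hd⟩
      · by_contra hcon
        have := prod (-(w1 + w2)) (m + 2) (by omega)
        have e : (n : ℤ) * (-(w1 + w2)) = -(n * w1) - n * w2 := by ring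
        omega
      · by_contra hcon
        have := prod (w1 + w2) m (by omega)
        have e : (n : ℤ) * (w1 + w2) = n * w1 + n * w2 := by ring
        omega
      · by_contra hcon
        have := prod (-(w1 - w2)) (m + 1) (by omega)
        have e : (n : ℤ) * (-(w1 - w2)) = -(n * w1) + n * w2 := by ring
        omega
      · by_contra hcon
        have := prod (w1 - w2) (m + 1) (by omega)
        have e : (n : ℤ) * (w1 - w2) = n * w1 - n * w2 := by ring
        omega

end Pool.Agent.R159.RankTwo
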