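import Mathlib
import Pool.Agent.R159.RankTwoC

set_option autoImplicit false

namespace Pool.Agent.R159.RankTwo

theorem sufficiency (n k s : ℕ) (hn : 2 ≤ n) (hk : 0 < k) (h : Crit n k s) :
    ∃ a b : ZMod n × ZMod (n * k), Span2 (s : ℤ) a b := by
  unfold Crit at h
  set m := s / n with hm
  set t := s % n with ht
  have hst : n * m + t = s := Nat.div_add_mod s n
  have htn : t < n := Nat.mod_lt _ (by omega)
  have hst' : (s : ℤ) = n * m + t := by exact_mod_cast hst.symm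
  have hn' : (0 : ℤ) < n := by exact_mod_cast (by omega : 0 < n)
  have hk' : (0 : ℤ) < k := by exact_mod_cast hk
  have hN : (n : ℤ) * (2 * m) / 2 ≤ s := by
    have e : (n : ℤ) * (2 * m) = 2 * (n * m) := by ring
    rw [e, Int.mul_ediv_cancel_left _ (by norm_num)]
    omega
  rcases h with ⟨-, h | ⟨hme, hke, h⟩ | ⟨hmo, hk4, h⟩⟩ | ⟨hth, h⟩ | ⟨hno, hth, h⟩
  · -- `k ≤ m (2m - 1)`
    have hm1 : 1 ≤ m := by
      rcases Nat.eq_zero_or_pos m with h0 | h0
      · rw [h0] at h; omega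
      · exact h0
    have hcast : ((2 * m - 1 : ℕ) : ℤ) = 2 * m - 1 := by
      push_cast [Nat.cast_sub (show 1 ≤ 2 * m by omega)]; ring
    have hle : (k : ℤ) ≤ m * (2 * m - 1) := by rw [← hcast]; exact_mod_cast h
    refine span_of_basis n k (by omega) hk (m - 1) m (k - 2 * m * (m - 1)) (k - 2 * m ^ 2)
      (-1) 1 (2 * m) s ?_ ?_ ?_ ?_ ?_ ?_ ?_ hN
    · ring
    · ring
    · omega
    · nlinarith
    · omega
    · omega
    · nlinarith
  · -- `m`, `k` even
    obtain ⟨j, hj⟩ := hme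
    obtain ⟨i, hi⟩ := hke
    have hm1 : 1 ≤ m := by
      rcases Nat.eq_zero_or_pos m with h0 | h0
      · rw [h0] at h; omega
      · exact h0
    have hle : (k : ℤ) ≤ 2 * m ^ 2 := by exact_mod_cast h
    have hi' : (k : ℤ) = i + i := by exact_mod_cast hi
    have hj' : (m : ℤ) = j + j := by exact_mod_cast hj
    obtain ⟨c, hc⟩ : ∃ c : ℤ, c = m ^ 2 - i := ⟨_, rfl⟩
    refine span_of_basis n k (by omega) hk (m - 1) (m + 1) (m - c) (-m - c)
      (-(j + 1)) j (2 * m) s ?_ ?_ ?_ ?_ ?_ ?_ ?_ hN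
    · rw [hi', hc]; ring
    · rw [hj']; ring
    · omega
    · rw [hc]; linarith
    · omega
    · omega
    · linarith
  · -- `m` odd, `k ≡ 2 mod 4`
    obtain ⟨j, hj⟩ := hmo
    have hle : (k : ℤ) ≤ 2 * m ^ 2 := by exact_mod_cast h
    have hj' : (m : ℤ) = 2 * j + 1 := by exact_mod_cast hj
    obtain ⟨i, hi⟩ : ∃ i : ℤ, (k : ℤ) = 4 * i + 2 := ⟨(k : ℤ) / 4, by omega⟩
    obtain ⟨c, hc⟩ : ∃ c : ℤ, c = 2 * (j : ℤ) ^ 2 + 2 * j - i := ⟨_, rfl⟩
    have hc0 : 0 ≤ c := by
      rw [hj', hi] at hle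
      nlinarith
    obtain ⟨w1, w2, hw⟩ : ∃ w1 w2 : ℤ, w1 * ((m : ℤ) - 2) + w2 * (m + 2) = 1 := by
      rcases Nat.even_or_odd j with ⟨l, hl⟩ | ⟨l, hl⟩
      · refine ⟨-(l + 1), l, ?_⟩
        rw [hj', hl]; push_cast; ring
      · refine ⟨l + 1, -l, ?_⟩
        rw [hj', hl]; push_cast; ring
    refine span_of_basis n k (by omega) hk (m - 2) (m + 2) (m - c) (-m - c)
      w1 w2 (2 * m) s ?_ hw ?_ ?_ ?_ ?_ ?_ hN
    · rw [hi, hc, hj']; ring
    · omega
    · linarith
    · omega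
    · omega
    · linarith
  · -- `k ≤ 2m² + 2m`
    have hle : (k : ℤ) ≤ 2 * m ^ 2 + 2 * m := by exact_mod_cast h
    refine span_of_basis n k (by omega) hk m (m + 1) (k - m * (2 * m + 1))
      (k - (m + 1) * (2 * m + 1)) (-1) 1 (2 * m + 1) s ?_ ?_ ?_ ?_ ?_ ?_ ?_ ?_
    · ring
    · ring
    · omega
    · nlinarith
    · omega
    · omega
    · nlinarith
    · have e : (n : ℤ) * (2 * m + 1) = 2 * (n * m) + n := by ring
      rw [e]
      omega
  · -- perfect case
    subst h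
    obtain ⟨a, b, hab⟩ := span_perfect n m (by omega) hno s (by omega)
    exact ⟨a, b, hab⟩

theorem span2_iff (n k s : ℕ) (hn : 2 ≤ n) (hk : 0 < k) :
    (∃ a b : ZMod n × ZMod (n * k), Span2 (s : ℤ) a b) ↔ Crit n k s :=
  ⟨fun ⟨a, b, h⟩ => necessity n k s hn hk a b h, sufficiency n k s hn hk⟩

/-! ### From spanning pairs to the function `φ` -/

section phi

variable {G : Type*} [AddCommGroup G]

/-- `A` is `s`-spanning: every element of `G` is a sum `∑ c_a a` over `a ∈ A` with integer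
coefficients satisfying `∑ |c_a| ≤ s`. -/
def Spanning (s : ℕ) (A : Finset G) : Prop :=
  ∀ g : G, ∃ c : G → ℤ, ∑ a ∈ A, |c a| ≤ s ∧ ∑ a ∈ A, c a • a = g

theorem spanning_pair [DecidableEq G] (s : ℕ) (a b : G) (hab : a ≠ b) :
    Spanning s ({a, b} : Finset G) ↔ Span2 (s : ℤ) a b := by
  constructor
  · intro h g
    obtain ⟨c, hc1, hc2⟩ := h g
    rw [Finset.sum_pair hab] at hc1 hc2
    exact ⟨c a, c b, hc1, hc2⟩
  · intro h g
    obtain ⟨x, y, h1, h2⟩ := h g
    refine ⟨fun z => if z = a then x else y, ?_, ?_⟩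
    · rw [Finset.sum_pair hab]
      simp only [if_true, if_neg hab.symm]
      exact h1
    · rw [Finset.sum_pair hab]
      simp only [if_true, if_neg hab.symm]
      exact h2

theorem not_cyclic (n k : ℕ) (hn : 2 ≤ n) (a : ZMod n × ZMod (n * k)) :
    ¬ ∀ g : ZMod n × ZMod (n * k), ∃ x : ℤ, x • a = g := by
  intro h
  have hs : ∀ g : ZMod n × ZMod (n * k), ∃ x y : ℤ, x • a + y • (0 : ZMod n × ZMod (n * k)) = g := by
    intro g
    obtain ⟨x, hx⟩ := h g
    exact ⟨x, 0, by rw [hx]; simp⟩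
  have := (ker_dvd n k a 0 hs 0 1 (by simp)).2
  have h2 := Int.le_of_dvd (by norm_num) this
  omega

/-- For a group isomorphic to `ℤ_n × ℤ_{nk}`, `n ≥ 2`. -/
theorem spanning_iff (n k s : ℕ) (hn : 2 ≤ n) (hk : 0 < k) (e : G ≃+ ZMod n × ZMod (n * k)) :
    (∃ A : Finset G, A.card = 2 ∧ Spanning s A) ↔ Crit n k s := by
  classical
  rw [← span2_iff n k s hn hk]
  constructor
  · rintro ⟨A, hA, hs⟩
    obtain ⟨a, b, hab, rfl⟩ := Finset.card_eq_two.1 hA
    rw [spanning_pair s a b hab] at hs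
    refine ⟨e a, e b, ?_⟩
    intro g
    obtain ⟨x, y, h1, h2⟩ := hs (e.symm g)
    refine ⟨x, y, h1, ?_⟩
    rw [← map_zsmul, ← map_zsmul, ← map_add, h2, AddEquiv.apply_symm_apply]
  · rintro ⟨a, b, hs⟩
    have hab : a ≠ b := by
      rintro rfl
      apply not_cyclic n k hn a
      intro g
      obtain ⟨x, y, -, h⟩ := hs g
      exact ⟨x + y, by rw [add_smul]; exact h⟩
    have hab' : e.symm a ≠ e.symm b := fun h => hab (e.symm.injective h)
    refine ⟨{e.symm a, e.symm b}, Finset.card_pair hab', ?_⟩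
    rw [spanning_pair s _ _ hab']
    intro g
    obtain ⟨x, y, h1, h2⟩ := hs (e g)
    refine ⟨x, y, h1, ?_⟩
    rw [← map_zsmul, ← map_zsmul, ← map_add, h2, AddEquiv.symm_apply_apply]

theorem no_small (n k s : ℕ) (hn : 2 ≤ n) (e : G ≃+ ZMod n × ZMod (n * k)) (A : Finset G)
    (hA : A.card < 2) : ¬ Spanning s A := by
  classical
  intro hs
  obtain ⟨a, ha⟩ : ∃ a : G, A ⊆ {a} := by
    rcases Nat.lt_or_ge A.card 1 with h | h
    · refine ⟨0, ?_⟩
      rw [Finset.card_eq_zero.1 (by omega : A.card = 0)]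
      exact Finset.empty_subset _
    · obtain ⟨a, ha⟩ := Finset.card_eq_one.1 (by omega : A.card = 1)
      exact ⟨a, ha.le⟩
  apply not_cyclic n k hn (e a)
  intro g
  obtain ⟨c, -, h2⟩ := hs (e.symm g)
  rcases Finset.subset_singleton_iff.1 ha with rfl | rfl
  · refine ⟨0, ?_⟩
    rw [Finset.sum_empty] at h2
    rw [zero_smul, ← e.apply_symm_apply g, ← h2, map_zero]
  · rw [Finset.sum_singleton] at h2
    exact ⟨c a, by rw [← map_zsmul, h2, AddEquiv.apply_symm_apply]⟩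

/-- `φ_±(G,[0,s])`: the least size of an `s`-spanning subset of `G`. -/
noncomputable def phi (G : Type*) [AddCommGroup G] (s : ℕ) : ℕ :=
  sInf {m : ℕ | ∃ A : Finset G, A.card = m ∧ Spanning s A}

theorem phi_eq_two_iff (n k s : ℕ) (hn : 2 ≤ n) (hk : 0 < k) (e : G ≃+ ZMod n × ZMod (n * k)) :
    phi G s = 2 ↔ Crit n k s := by
  rw [← spanning_iff n k s hn hk e]
  constructor
  · intro h
    have hne : {m : ℕ | ∃ A : Finset G, A.card = m ∧ Spanning s A}.Nonempty := by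
      by_contra hcon
      rw [Set.not_nonempty_iff_eq_empty] at hcon
      unfold phi at h
      rw [hcon, Nat.sInf_empty] at h
      omega
    have := Nat.sInf_mem hne
    unfold phi at h
    rw [h] at this
    exact this
  · intro h
    apply le_antisymm
    · exact Nat.sInf_le h
    · apply le_csInf ⟨2, h⟩
      rintro m ⟨A, rfl, hA⟩
      by_contra hcon
      exact no_small n k s hn e A (by omega) hA

end phi

end Pool.Agent.R159.RankTwo
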