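import Mathlib

/-! Divided differences and the Fomin-Stanley construction of Schubert polynomials. -/

namespace R159.Schub

open MvPolynomial Finset

section dd

variable {R : Type*} [CommRing R]

/-- Exchange of the variables `i` and `i+1`. -/
noncomputable def sg (i : ℕ) : MvPolynomial ℕ R →ₐ[R] MvPolynomial ℕ R :=
  rename (Equiv.swap i (i + 1))

lemma sg_X (i k : ℕ) : sg i (X k : MvPolynomial ℕ R) = X (Equiv.swap i (i + 1) k) := by
  unfold sg; rw [rename_X]

lemma sg_X_self (i : ℕ) : sg i (X i : MvPolynomial ℕ R) = X (i + 1) := by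
  rw [sg_X, Equiv.swap_apply_left]

lemma sg_X_succ (i : ℕ) : sg i (X (i + 1) : MvPolynomial ℕ R) = X i := by
  rw [sg_X, Equiv.swap_apply_right]

lemma sg_X_of_ne {i k : ℕ} (h1 : k ≠ i) (h2 : k ≠ i + 1) :
    sg i (X k : MvPolynomial ℕ R) = X k := by
  rw [sg_X, Equiv.swap_apply_of_ne_of_ne h1 h2]

lemma sg_dvd (i : ℕ) (f : MvPolynomial ℕ R) : (X i - X (i + 1)) ∣ f - sg i f := by
  induction f using MvPolynomial.induction_on with
  | C a => simp [sg]
  | add p q hp hq =>
    rw [map_add]
    have : p + q - (sg i p + sg i q) = (p - sg i p) + (q - sg i q) := by ring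
    rw [this]; exact dvd_add hp hq
  | mul_X p k hp =>
    rw [map_mul]
    have h1 : p * X k - sg i p * sg i (X k) = (p - sg i p) * X k + sg i p * (X k - sg i (X k)) := by
      ring
    rw [h1]
    apply dvd_add (hp.mul_right _)
    apply Dvd.dvd.mul_left
    by_cases hk : k = i
    · subst hk; rw [sg_X_self]
    · by_cases hk2 : k = i + 1
      · subst hk2; rw [sg_X_succ]; exact ⟨-1, by ring⟩
      · rw [sg_X_of_ne hk hk2, sub_self]; exact dvd_zero _

/-- The divided difference. -/
noncomputable def dd (i : ℕ) (f : MvPolynomial ℕ R) : MvPolynomial ℕ R := (sg_dvd i f).choose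

lemma dd_spec (i : ℕ) (f : MvPolynomial ℕ R) :
    f - sg i f = (X i - X (i + 1)) * dd i f := (sg_dvd i f).choose_spec

variable [IsDomain R]

lemma X_sub_ne (i : ℕ) : (X i - X (i + 1) : MvPolynomial ℕ R) ≠ 0 := by
  intro h
  have := X_injective (sub_eq_zero.mp h)
  omega

lemma dd_unique {i : ℕ} {f g : MvPolynomial ℕ R} (h : f - sg i f = (X i - X (i + 1)) * g) :
    dd i f = g := by
  rw [dd_spec] at h
  exact mul_left_cancel₀ (X_sub_ne i) h

lemma dd_eq_zero {i : ℕ} {f : MvPolynomial ℕ R} (h : sg i f = f) : dd i f = 0 := by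
  apply dd_unique; rw [h]; ring

lemma sg_of_dd_eq_zero {i : ℕ} {f : MvPolynomial ℕ R} (h : dd i f = 0) : sg i f = f := by
  have := dd_spec i f
  rw [h, mul_zero] at this
  exact (sub_eq_zero.mp this).symm

lemma dd_sub (i : ℕ) (f g : MvPolynomial ℕ R) : dd i (f - g) = dd i f - dd i g := by
  apply dd_unique
  rw [map_sub, mul_sub, ← dd_spec, ← dd_spec]; ring

lemma dd_zero (i : ℕ) : dd i (0 : MvPolynomial ℕ R) = 0 := dd_eq_zero (map_zero _)

lemma dd_add (i : ℕ) (f g : MvPolynomial ℕ R) : dd i (f + g) = dd i f + dd i g := by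
  apply dd_unique
  rw [map_add, mul_add, ← dd_spec, ← dd_spec]; ring

lemma dd_C_mul (i : ℕ) (r : R) (f : MvPolynomial ℕ R) : dd i (C r * f) = C r * dd i f := by
  apply dd_unique
  have h1 : sg i (C r : MvPolynomial ℕ R) = C r := by simp [sg]
  rw [map_mul, h1, ← mul_sub, dd_spec]; ring

lemma map_sg {S : Type*} [CommRing S] (φ : R →+* S) (i : ℕ) (f : MvPolynomial ℕ R) :
    map φ (sg i f) = sg i (map φ f) := by
  unfold sg; rw [map_rename]

lemma dd_map {S : Type*} [CommRing S] [IsDomain S] (φ : R →+* S) (i : ℕ) (f : MvPolynomial ℕ R) :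
    map φ (dd i f) = dd i (map φ f) := by
  symm
  apply dd_unique
  have h := congrArg (map φ) (dd_spec i f)
  rw [map_sub, map_sg, map_mul, map_sub, map_X, map_X] at h
  exact h

end dd

end R159.Schub
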