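import Mathlib

/-! The nilCoxeter product formula (Fomin-Stanley), abstract part and the action on functions
on the finitary symmetric group. -/

namespace R159.Schub

open Finset

section FS

variable {A E : Type*} [CommRing A] [Ring E] [Algebra A E]

/-- `1 + x u_i`. -/
def hh (u : ℕ → E) (i : ℕ) (x : A) : E := 1 + x • u i

/-- `h_k(x) h_{k+1}(x) ... h_{k+d-1}(x)`. -/
def BB (u : ℕ → E) : ℕ → ℕ → A → E
  | _, 0, _ => 1
  | k, (d + 1), x => hh u k x * BB u (k + 1) d x

/-- The nilCoxeter relations. -/
structure NilCox (u : ℕ → E) : Prop where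
  sq : ∀ i, u i * u i = 0
  far : ∀ i j, i + 2 ≤ j → u i * u j = u j * u i
  br : ∀ i, u i * u (i + 1) * u i = u (i + 1) * u i * u (i + 1)

variable {u : ℕ → E}

lemma hh_zero (i : ℕ) : hh u i (0 : A) = 1 := by simp [hh]

lemma hh_mul (hu : NilCox u) (i : ℕ) (x y : A) : hh u i x * hh u i y = hh u i (x + y) := by
  unfold hh
  have h1 : (1 + x • u i) * (1 + y • u i) = 1 + x • u i + y • u i + (x * y) • (u i * u i) := by
    simp only [mul_add, add_mul, one_mul, mul_one, smul_mul_assoc, mul_smul_comm]
    module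
  rw [h1, hu.sq, smul_zero, add_zero, add_smul, add_assoc]

lemma yb (hu : NilCox u) (i : ℕ) (x y : A) :
    hh u i x * hh u (i + 1) (x + y) * hh u i y
      = hh u (i + 1) y * hh u i (x + y) * hh u (i + 1) x := by
  unfold hh
  set a := u i with ha
  set b := u (i + 1) with hb
  have haa : a * a = 0 := hu.sq i
  have hbb : b * b = 0 := hu.sq (i + 1)
  have hab : a * b * a = b * a * b := hu.br i
  have h1 : (1 + x • a) * (1 + (x + y) • b) * (1 + y • a)
      = 1 + (x + y) • a + (x + y) • b + (x * (x + y)) • (a * b) + (x * y) • (a * a)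
        + ((x + y) * y) • (b * a) + (x * (x + y) * y) • (a * b * a) := by
    simp only [mul_add, add_mul, one_mul, mul_one, smul_mul_assoc, mul_smul_comm,
      add_smul]
    module
  have h2 : (1 + y • b) * (1 + (x + y) • a) * (1 + x • b)
      = 1 + (x + y) • a + (x + y) • b + (x * (x + y)) • (a * b) + (x * y) • (b * b)
        + ((x + y) * y) • (b * a) + (x * (x + y) * y) • (b * a * b) := by
    simp only [mul_add, add_mul, one_mul, mul_one, smul_mul_assoc, mul_smul_comm,
      add_smul]
    module
  rw [h1, h2, haa, hbb, hab]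

lemma far_h (hu : NilCox u) {i j : ℕ} (hij : i + 2 ≤ j) (x y : A) :
    Commute (hh u i x) (hh u j y) := by
  have h0 : Commute (u i) (u j) := hu.far i j hij
  unfold hh
  have h1 : Commute (x • u i) (y • u j) := (h0.smul_left x).smul_right y
  exact ((Commute.one_right _).add_right ((Commute.one_left _).add_left h1))

lemma far_u (hu : NilCox u) {i j : ℕ} (hij : i + 2 ≤ j) (y : A) :
    Commute (u i) (hh u j y) := by
  have h0 : Commute (u i) (u j) := hu.far i j hij
  unfold hh
  exact (Commute.one_right _).add_right (h0.smul_right y)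

lemma far_B (hu : NilCox u) (d : ℕ) : ∀ {i j : ℕ}, i + 2 ≤ j → ∀ (x y : A),
    Commute (hh u i x) (BB u j d y) := by
  induction d with
  | zero => intro i j _ x y; exact Commute.one_right _
  | succ d ih =>
    intro i j hij x y
    exact (far_h hu hij x y).mul_right (ih (by omega) x y)

lemma far_uB (hu : NilCox u) (d : ℕ) : ∀ {i j : ℕ}, i + 2 ≤ j → ∀ (y : A),
    Commute (u i) (BB u j d y) := by
  induction d with
  | zero => intro i j _ y; exact Commute.one_right _
  | succ d ih =>
    intro i j hij y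
    exact (far_u hu hij y).mul_right (ih (by omega) y)

lemma hh_neg (hu : NilCox u) (i : ℕ) (x : A) : hh u i (-x) * hh u i x = 1 := by
  rw [hh_mul hu, neg_add_cancel, hh_zero]

lemma hh_cancel (hu : NilCox u) (i : ℕ) (x : A) {P Q : E}
    (h : hh u i (-x) * P = hh u i (-x) * Q) : P = Q := by
  have h1 : hh u i x * (hh u i (-x) * P) = hh u i x * (hh u i (-x) * Q) := by rw [h]
  have h2 : hh u i x * hh u i (-x) = 1 := by rw [hh_mul hu, add_neg_cancel, hh_zero]
  rwa [← mul_assoc, ← mul_assoc, h2, one_mul, one_mul] at h1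

/-- The exchange formula, from commutation. -/
lemma exch (hu : NilCox u) (k d : ℕ) (x y : A)
    (hc : BB u k (d + 1) x * BB u k (d + 1) y = BB u k (d + 1) y * BB u k (d + 1) x) :
    hh u k (y - x) * (BB u (k + 1) d y * BB u k (d + 1) x)
      = BB u (k + 1) d x * BB u k (d + 1) y := by
  have h1 : hh u k (-x) * (BB u k (d + 1) x * BB u k (d + 1) y)
      = BB u (k + 1) d x * BB u k (d + 1) y := by
    have : BB u k (d + 1) x = hh u k x * BB u (k + 1) d x := rfl
    rw [this, mul_assoc, ← mul_assoc, hh_neg hu, one_mul]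
  have h2 : hh u k (-x) * (BB u k (d + 1) y * BB u k (d + 1) x)
      = hh u k (y - x) * (BB u (k + 1) d y * BB u k (d + 1) x) := by
    have : BB u k (d + 1) y = hh u k y * BB u (k + 1) d y := rfl
    rw [this, mul_assoc, ← mul_assoc, hh_mul hu, neg_add_eq_sub]
  rw [← h1, ← h2, hc]

lemma comm_B (hu : NilCox u) (d : ℕ) : ∀ (k : ℕ) (x y : A),
    BB u k d x * BB u k d y = BB u k d y * BB u k d x := by
  induction d with
  | zero => intro k x y; rfl
  | succ d ih =>
    cases d with
    | zero =>
      intro k x y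
      change (hh u k x * 1) * (hh u k y * 1) = (hh u k y * 1) * (hh u k x * 1)
      rw [mul_one, mul_one, hh_mul hu, hh_mul hu, add_comm]
    | succ d =>
      intro k x y
      apply hh_cancel hu k y
      have e1 : ∀ z : A, BB u k (d + 1 + 1) z = hh u k z * BB u (k + 1) (d + 1) z := fun z => rfl
      have e2 : ∀ z : A, BB u (k + 1) (d + 1) z = hh u (k + 1) z * BB u (k + 1 + 1) d z :=
        fun z => rfl
      have hR : hh u k (-y) * (BB u k (d + 1 + 1) y * BB u k (d + 1 + 1) x)
          = BB u (k + 1) (d + 1) y * BB u k (d + 1 + 1) x := by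
        rw [e1 y, mul_assoc, ← mul_assoc, hh_neg hu, one_mul]
      rw [hR]
      have hL : hh u k (-y) * (BB u k (d + 1 + 1) x * BB u k (d + 1 + 1) y)
          = hh u k (x - y) * hh u (k + 1) x * hh u k y
            * (BB u (k + 1 + 1) d x * BB u (k + 1) (d + 1) y) := by
        have hcm : BB u (k + 1 + 1) d x * hh u k y = hh u k y * BB u (k + 1 + 1) d x :=
          (far_B hu d (by omega) y x).symm
        calc hh u k (-y) * (BB u k (d + 1 + 1) x * BB u k (d + 1 + 1) y)
            = hh u k (-y) * (hh u k x * (hh u (k + 1) x * BB u (k + 1 + 1) d x)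
                * (hh u k y * BB u (k + 1) (d + 1) y)) := by rw [e1 x, e1 y, e2 x]
          _ = (hh u k (-y) * hh u k x) * hh u (k + 1) x * (BB u (k + 1 + 1) d x * hh u k y)
                * BB u (k + 1) (d + 1) y := by simp only [mul_assoc]
          _ = hh u k (x - y) * hh u (k + 1) x * (hh u k y * BB u (k + 1 + 1) d x)
                * BB u (k + 1) (d + 1) y := by rw [hcm, hh_mul hu, neg_add_eq_sub]
          _ = _ := by simp only [mul_assoc]
      rw [hL]
      have hyb : hh u k (x - y) * hh u (k + 1) x * hh u k y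
          = hh u (k + 1) y * hh u k x * hh u (k + 1) (x - y) := by
        have := yb hu k (x - y) y
        rwa [sub_add_cancel] at this
      rw [hyb, mul_assoc, exch hu (k + 1) d y x (ih (k + 1) y x)]
      have hcm : BB u (k + 1 + 1) d y * hh u k x = hh u k x * BB u (k + 1 + 1) d y :=
        (far_B hu d (by omega) x y).symm
      rw [e2 y, e1 x]
      calc hh u (k + 1) y * hh u k x * (BB u (k + 1 + 1) d y * BB u (k + 1) (d + 1) x)
          = hh u (k + 1) y * (hh u k x * BB u (k + 1 + 1) d y) * BB u (k + 1) (d + 1) x := by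
            simp only [mul_assoc]
        _ = _ := by rw [← hcm]; simp only [mul_assoc]

lemma exch' (hu : NilCox u) (k d : ℕ) (x y : A) :
    BB u (k + 1) d y * BB u k (d + 1) x - BB u (k + 1) d x * BB u k (d + 1) y
      = (x - y) • (u k * (BB u (k + 1) d y * BB u k (d + 1) x)) := by
  rw [← exch hu k d x y (comm_B hu (d + 1) k x y)]
  have : hh u k (y - x) = 1 + (y - x) • u k := rfl
  rw [this, add_mul, one_mul, smul_mul_assoc]
  module

end FS


section Act

/-- The adjacent transposition. -/
abbrev sw (i : ℕ) : Equiv.Perm ℕ := Equiv.swap i (i + 1)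

lemma sw_mul_self (w : Equiv.Perm ℕ) (i : ℕ) : w * sw i * sw i = w := by
  rw [mul_assoc, Equiv.swap_mul_self, mul_one]

variable {A : Type*} [CommRing A]

/-- The operator `u_j` (multiplication on the right by `u_j`). -/
def UU (A : Type*) [CommRing A] (j : ℕ) : Module.End A (Equiv.Perm ℕ → A) where
  toFun g w := if w (j + 1) < w j then g (w * sw j) else 0
  map_add' g g' := by
    funext w
    by_cases h : w (j + 1) < w j <;> simp [h]
  map_smul' r g := by
    funext w
    by_cases h : w (j + 1) < w j <;> simp [h]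

lemma UU_apply (j : ℕ) (g : Equiv.Perm ℕ → A) (w : Equiv.Perm ℕ) :
    UU A j g w = if w (j + 1) < w j then g (w * sw j) else 0 := rfl

lemma ms_l (w : Equiv.Perm ℕ) (i : ℕ) : (w * sw i) i = w (i + 1) := by
  rw [Equiv.Perm.mul_apply, Equiv.swap_apply_left]

lemma ms_r (w : Equiv.Perm ℕ) (i : ℕ) : (w * sw i) (i + 1) = w i := by
  rw [Equiv.Perm.mul_apply, Equiv.swap_apply_right]

lemma ms_o (w : Equiv.Perm ℕ) {i k : ℕ} (h1 : k ≠ i) (h2 : k ≠ i + 1) : (w * sw i) k = w k := by
  rw [Equiv.Perm.mul_apply, Equiv.swap_apply_of_ne_of_ne h1 h2]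

lemma sw_far {i j : ℕ} (h : i + 2 ≤ j) : sw i * sw j = sw j * sw i := by
  ext k
  simp only [Equiv.Perm.mul_apply, Equiv.swap_apply_def]
  split_ifs <;> omega

lemma sw_br (i : ℕ) : sw i * sw (i + 1) * sw i = sw (i + 1) * sw i * sw (i + 1) := by
  ext k
  simp only [Equiv.Perm.mul_apply, Equiv.swap_apply_def]
  split_ifs <;> omega

lemma nilCox_UU : NilCox (UU A) where
  sq i := by
    ext1 g
    funext w
    change UU A i (UU A i g) w = 0
    rw [UU_apply]
    split_ifs with h
    · rw [UU_apply, if_neg]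
      rw [ms_l, ms_r]; omega
    · rfl
  far i j hij := by
    ext1 g
    funext w
    change UU A i (UU A j g) w = UU A j (UU A i g) w
    rw [UU_apply, UU_apply, UU_apply, UU_apply]
    rw [ms_o w (i := i) (k := j) (by omega) (by omega),
      ms_o w (i := i) (k := j + 1) (by omega) (by omega),
      ms_o w (i := j) (k := i) (by omega) (by omega),
      ms_o w (i := j) (k := i + 1) (by omega) (by omega)]
    rw [mul_assoc, mul_assoc, sw_far hij]
    split_ifs <;> rfl
  br i := by
    ext1 g
    funext w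
    change UU A i (UU A (i + 1) (UU A i g)) w = UU A (i + 1) (UU A i (UU A (i + 1) g)) w
    simp only [UU_apply]
    have e1 : (w * sw i) (i + 1 + 1) = w (i + 1 + 1) := ms_o w (by omega) (by omega)
    have e2 : (w * sw i) (i + 1) = w i := ms_r w i
    have e3 : (w * sw i * sw (i + 1)) (i + 1) = w (i + 1 + 1) := by rw [ms_l, e1]
    have e4 : (w * sw i * sw (i + 1)) i = w (i + 1) := by
      rw [ms_o _ (by omega) (by omega), ms_l]
    have e5 : (w * sw (i + 1)) (i + 1) = w (i + 1 + 1) := ms_l w (i + 1)
    have e6 : (w * sw (i + 1)) i = w i := ms_o w (by omega) (by omega)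
    have e7 : (w * sw (i + 1) * sw i) (i + 1 + 1) = w (i + 1) := by
      rw [ms_o _ (by omega) (by omega), ms_r]
    have e8 : (w * sw (i + 1) * sw i) (i + 1) = w i := by rw [ms_r, e6]
    rw [e1, e2, e3, e4, e5, e6, e7, e8]
    have e9 : w * sw i * sw (i + 1) * sw i = w * sw (i + 1) * sw i * sw (i + 1) := by
      have := congrArg (fun z => w * z) (sw_br i)
      simpa only [mul_assoc] using this
    rw [e9]
    split_ifs <;> rfl

open Classical in
/-- The unit vector at the identity. -/
noncomputable def uv (A : Type*) [CommRing A] : Equiv.Perm ℕ → A :=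
  fun w => if w = 1 then 1 else 0

lemma uv_one : uv A 1 = 1 := by unfold uv; rw [if_pos rfl]

lemma uv_ne {w : Equiv.Perm ℕ} (h : w ≠ 1) : uv A w = 0 := by unfold uv; rw [if_neg h]

/-- The partial products applied to the unit vector. -/
noncomputable def TT (x : ℕ → A) (n : ℕ) : ℕ → (Equiv.Perm ℕ → A)
  | 0 => uv A
  | (k + 1) => BB (UU A) k (n - 1 - k) (x k) (TT x n k)

lemma hh_apply (i : ℕ) (x : A) (g : Equiv.Perm ℕ → A) (w : Equiv.Perm ℕ) :
    hh (UU A) i x g w = g w + x * UU A i g w := by
  unfold hh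
  rfl

lemma BB_succ_apply (k d : ℕ) (x : A) (g : Equiv.Perm ℕ → A) :
    BB (UU A) k (d + 1) x g = hh (UU A) k x (BB (UU A) (k + 1) d x g) := rfl

lemma TT_congr (x y : ℕ → A) (n : ℕ) : ∀ k, (∀ j < k, x j = y j) → TT x n k = TT y n k := by
  intro k
  induction k with
  | zero => intro _; rfl
  | succ k ih =>
    intro h
    change BB (UU A) k (n - 1 - k) (x k) (TT x n k) = BB (UU A) k (n - 1 - k) (y k) (TT y n k)
    rw [ih (fun j hj => h j (by omega)), h k (by omega)]

/-- A ring homomorphism applied to all the entries. -/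
lemma BB_map {A' : Type*} [CommRing A'] (φ : A →+* A') (d : ℕ) : ∀ (k : ℕ) (x : A)
    (g : Equiv.Perm ℕ → A) (w : Equiv.Perm ℕ),
    φ (BB (UU A) k d x g w) = BB (UU A') k d (φ x) (fun v => φ (g v)) w := by
  induction d with
  | zero => intro k x g w; rfl
  | succ d ih =>
    intro k x g w
    rw [BB_succ_apply, BB_succ_apply, hh_apply, hh_apply, map_add, map_mul, UU_apply, UU_apply]
    rw [ih]
    split_ifs with h
    · rw [ih]
    · rw [map_zero]

lemma TT_map {A' : Type*} [CommRing A'] (φ : A →+* A') (x : ℕ → A) (n : ℕ) :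
    ∀ (k : ℕ) (w : Equiv.Perm ℕ), φ (TT x n k w) = TT (fun j => φ (x j)) n k w := by
  intro k
  induction k with
  | zero =>
    intro w
    change φ (uv A w) = uv A' w
    by_cases h : w = 1
    · rw [h, uv_one, uv_one, map_one]
    · rw [uv_ne h, uv_ne h, map_zero]
  | succ k ih =>
    intro w
    change φ (BB (UU A) k (n - 1 - k) (x k) (TT x n k) w)
      = BB (UU A') k (n - 1 - k) (φ (x k)) (TT (fun j => φ (x j)) n k) w
    rw [BB_map]
    have : (fun v => φ (TT x n k v)) = TT (fun j => φ (x j)) n k := funext ih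
    rw [this]

/-- The exchange of two consecutive variables. -/
lemma TT_exch (x : ℕ → A) (n i : ℕ) (hi : i + 1 < n) (r : ℕ) :
    TT x n (i + 2 + r) - TT (fun j => x (sw i j)) n (i + 2 + r)
      = (x i - x (i + 1)) • UU A i (TT x n (i + 2 + r)) := by
  set y : ℕ → A := fun j => x (sw i j) with hy
  induction r with
  | zero =>
    have h0 : TT x n i = TT y n i := by
      apply TT_congr
      intro j hj
      rw [hy]
      simp only
      rw [Equiv.swap_apply_of_ne_of_ne (by omega) (by omega)]
    have y1 : y i = x (i + 1) := by rw [hy]; simp only; rw [Equiv.swap_apply_left]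
    have y2 : y (i + 1) = x i := by rw [hy]; simp only; rw [Equiv.swap_apply_right]
    obtain ⟨d, hd⟩ : ∃ d, n - 1 - i = d + 1 := ⟨n - 1 - i - 1, by omega⟩
    have hd2 : n - 1 - (i + 1) = d := by omega
    have e1 : ∀ z : ℕ → A, TT z n (i + 2 + 0)
        = BB (UU A) (i + 1) d (z (i + 1)) (BB (UU A) i (d + 1) (z i) (TT z n i)) := by
      intro z
      change BB (UU A) (i + 1) (n - 1 - (i + 1)) (z (i + 1))
        (BB (UU A) i (n - 1 - i) (z i) (TT z n i)) = _
      rw [hd, hd2]
    rw [e1 x, e1 y, y1, y2, ← h0]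
    have := exch' (nilCox_UU (A := A)) i d (x i) (x (i + 1))
    have h2 := congrArg (fun F : Module.End A (Equiv.Perm ℕ → A) => F (TT x n i)) this
    exact h2
  | succ r ih =>
    have hyr : y (i + 2 + r) = x (i + 2 + r) := by
      rw [hy]
      simp only
      rw [Equiv.swap_apply_of_ne_of_ne (by omega) (by omega)]
    have e1 : ∀ z : ℕ → A, TT z n (i + 2 + (r + 1))
        = BB (UU A) (i + 2 + r) (n - 1 - (i + 2 + r)) (z (i + 2 + r)) (TT z n (i + 2 + r)) :=
      fun z => rfl
    rw [e1 x, e1 y, hyr, ← map_sub, ih, map_smul]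
    congr 1
    have hc := far_uB (nilCox_UU (A := A)) (n - 1 - (i + 2 + r)) (i := i) (j := i + 2 + r)
      (by omega) (x (i + 2 + r))
    have h2 := congrArg (fun F : Module.End A (Equiv.Perm ℕ → A) => F (TT x n (i + 2 + r))) hc
    exact h2.symm

lemma TT_zero (n : ℕ) : ∀ (k : ℕ), TT (fun _ => (0 : A)) n k = uv A := by
  have hB : ∀ d k (g : Equiv.Perm ℕ → A), BB (UU A) k d (0 : A) g = g := by
    intro d
    induction d with
    | zero => intro k g; rfl
    | succ d ih =>
      intro k g
      rw [BB_succ_apply, ih, hh_zero]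
      rfl
  intro k
  induction k with
  | zero => rfl
  | succ k ih =>
    change BB (UU A) k (n - 1 - k) 0 (TT (fun _ => (0 : A)) n k) = _
    rw [hB, ih]

lemma TT_last (x : ℕ → A) (n : ℕ) : TT x n n = TT x n (n - 1) := by
  cases n with
  | zero => rfl
  | succ n =>
    change BB (UU A) n (n + 1 - 1 - n) (x n) (TT x (n + 1) n) = _
    have : n + 1 - 1 - n = 0 := by omega
    rw [this]
    rfl

end Act

end R159.Schub
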