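import Mathlib
import Pool.Agent.R159.SchubA
import Pool.Agent.R159.SchubB

/-! Schubert polynomials: values at the longest element, chains, positivity. -/

namespace R159.Schub

open MvPolynomial Finset

/-- Inversions of `w` inside `{0,…,n-1}`. -/
def inv (n : ℕ) (w : Equiv.Perm ℕ) : Finset (ℕ × ℕ) :=
  (range n ×ˢ range n).filter (fun p => p.1 < p.2 ∧ w p.2 < w p.1)

lemma mem_inv {n : ℕ} {w : Equiv.Perm ℕ} {p : ℕ × ℕ} :
    p ∈ inv n w ↔ p.1 < n ∧ p.2 < n ∧ p.1 < p.2 ∧ w p.2 < w p.1 := by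
  unfold inv
  rw [mem_filter, mem_product, mem_range, mem_range]
  tauto

lemma sw_lt {i a b : ℕ} (h : a < b) (hne : (a, b) ≠ (i, i + 1)) : sw i a < sw i b := by
  have : ¬ (a = i ∧ b = i + 1) := by
    rintro ⟨rfl, rfl⟩; exact hne rfl
  unfold sw
  rw [Equiv.swap_apply_def, Equiv.swap_apply_def]
  split_ifs <;> omega

lemma sw_lt_n {n i a : ℕ} (hi : i + 1 < n) (h : a < n) : sw i a < n := by
  unfold sw
  rw [Equiv.swap_apply_def]
  split_ifs <;> omega

lemma sw_sw (i a : ℕ) : sw i (sw i a) = a := Equiv.swap_apply_self _ _ _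

lemma card_inv {n i : ℕ} (hi : i + 1 < n) {w : Equiv.Perm ℕ} (h : w (i + 1) < w i) :
    (inv n w).card = (inv n (w * sw i)).card + 1 := by
  have hmem : (i, i + 1) ∈ inv n w := mem_inv.mpr ⟨by simp only; omega, hi, by simp, h⟩
  rw [← Finset.card_erase_add_one hmem]
  congr 1
  apply Finset.card_nbij' (fun p => (sw i p.1, sw i p.2)) (fun p => (sw i p.1, sw i p.2))
  · rintro ⟨a, b⟩ hp
    rw [mem_coe, mem_erase, mem_inv] at hp
    obtain ⟨hne, h1, h2, h3, h4⟩ := hp
    rw [mem_coe, mem_inv]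
    refine ⟨sw_lt_n hi h1, sw_lt_n hi h2, sw_lt h3 hne, ?_⟩
    simp only [Equiv.Perm.mul_apply]
    rw [sw_sw, sw_sw]
    exact h4
  · rintro ⟨a, b⟩ hp
    rw [mem_coe, mem_inv] at hp
    obtain ⟨h1, h2, h3, h4⟩ := hp
    simp only [Equiv.Perm.mul_apply] at h4
    have hne : (a, b) ≠ (i, i + 1) := by
      intro he
      rw [Prod.mk.injEq] at he
      obtain ⟨rfl, rfl⟩ := he
      rw [Equiv.swap_apply_left, Equiv.swap_apply_right] at h4
      omega
    rw [mem_coe, mem_erase, mem_inv]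
    refine ⟨?_, sw_lt_n hi h1, sw_lt_n hi h2, sw_lt h3 hne, h4⟩
    intro he
    rw [Prod.mk.injEq] at he
    have ha : a = i + 1 := by
      have := congrArg (sw i) he.1
      rw [sw_sw, Equiv.swap_apply_left] at this
      exact this
    have hb : b = i := by
      have := congrArg (sw i) he.2
      rw [sw_sw, Equiv.swap_apply_right] at this
      exact this
    simp only at h3
    omega
  · rintro ⟨a, b⟩ _
    simp only [sw_sw]
  · rintro ⟨a, b⟩ _
    simp only [sw_sw]

/-- `w` fixes every `k ≥ n`. -/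
def Sn (n : ℕ) (w : Equiv.Perm ℕ) : Prop := ∀ k, n ≤ k → w k = k

lemma Sn_lt {n : ℕ} {w : Equiv.Perm ℕ} (h : Sn n w) {k : ℕ} (hk : k < n) : w k < n := by
  by_contra hcon
  have h1 := h (w k) (by omega)
  have h2 := w.injective h1
  omega

lemma Sn_sw {n i : ℕ} {w : Equiv.Perm ℕ} (h : Sn n w) (hi : i + 1 < n) : Sn n (w * sw i) := by
  intro k hk
  rw [ms_o w (by omega) (by omega)]
  exact h k hk

lemma Sn_desc {n i : ℕ} {w : Equiv.Perm ℕ} (h : Sn n w) (hd : w (i + 1) < w i) : i + 1 < n := by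
  by_contra hcon
  have h1 : w (i + 1) = i + 1 := h _ (by omega)
  by_cases hi : n ≤ i
  · have h2 := h _ hi
    omega
  · have h2 := Sn_lt h (k := i) (by omega)
    omega

lemma eq_one_of_no_desc {w : Equiv.Perm ℕ} (h : ∀ i, ¬ w (i + 1) < w i) : w = 1 := by
  have hm : StrictMono w := by
    apply strictMono_nat_of_lt_succ
    intro i
    have h1 := h i
    have h2 : w i ≠ w (i + 1) := fun he => by
      have := w.injective he
      omega
    omega
  have hm' : StrictMono w.symm := by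
    intro a b hab
    by_contra hcon
    have := hm.monotone (not_lt.mp hcon)
    rw [Equiv.apply_symm_apply, Equiv.apply_symm_apply] at this
    omega
  ext k
  have h1 : k ≤ w k := hm.le_apply
  have h2 : w k ≤ w.symm (w k) := hm'.le_apply
  rw [Equiv.symm_apply_apply] at h2
  rw [Equiv.Perm.one_apply]
  omega

/-- The word `J` leads from `w` down to the identity. -/
def ok : List ℕ → Equiv.Perm ℕ → Prop
  | [], w => w = 1
  | (i :: J), w => w (i + 1) < w i ∧ ok J (w * sw i)

lemma exists_ok {n : ℕ} (N : ℕ) : ∀ (w : Equiv.Perm ℕ), Sn n w → (inv n w).card = N →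
    ∃ J : List ℕ, (∀ i ∈ J, i + 1 < n) ∧ ok J w := by
  induction N using Nat.strong_induction_on with
  | _ N ih =>
    intro w hw hN
    by_cases h : ∀ i, ¬ w (i + 1) < w i
    · exact ⟨[], by simp, eq_one_of_no_desc h⟩
    · push Not at h
      obtain ⟨i, hi⟩ := h
      have hin := Sn_desc hw hi
      have hc := card_inv hin hi
      obtain ⟨J, hJ1, hJ2⟩ := ih _ (by omega) (w * sw i) (Sn_sw hw hin) rfl
      refine ⟨i :: J, ?_, hi, hJ2⟩
      intro j hj
      rw [List.mem_cons] at hj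
      rcases hj with rfl | hj
      · exact hin
      · exact hJ1 j hj

section top

variable {A : Type*} [CommRing A]

/-- Comparison of a vector with its top part. -/
def Top (n N : ℕ) (g g' : Equiv.Perm ℕ → A) (p : A) : Prop :=
  (∀ w, N < (inv n w).card → g w = 0) ∧ (∀ w, N ≤ (inv n w).card → g w = p * g' w)

lemma Top_h {n i N : ℕ} (hi : i + 1 < n) {g g' : Equiv.Perm ℕ → A} {p : A}
    (h : Top n N g g' p) (x : A) : Top n (N + 1) (hh (UU A) i x g) (UU A i g') (x * p) := by
  constructor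
  · intro w hw
    rw [hh_apply, UU_apply, h.1 w (by omega)]
    split_ifs with hd
    · have := card_inv hi hd
      rw [h.1 _ (by omega)]; ring
    · ring
  · intro w hw
    rw [hh_apply, UU_apply, UU_apply, h.1 w (by omega)]
    split_ifs with hd
    · have := card_inv hi hd
      rw [h.2 _ (by omega)]; ring
    · ring

/-- `u_k u_{k+1} ⋯ u_{k+d-1}`. -/
def UB (A : Type*) [CommRing A] : ℕ → ℕ → (Equiv.Perm ℕ → A) → (Equiv.Perm ℕ → A)
  | _, 0, g => g
  | k, (d + 1), g => UU A k (UB A (k + 1) d g)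

lemma Top_B {n N : ℕ} (d : ℕ) : ∀ (k : ℕ), k + d < n → ∀ {g g' : Equiv.Perm ℕ → A} {p : A},
    Top n N g g' p → ∀ x : A, Top n (N + d) (BB (UU A) k d x g) (UB A k d g') (x ^ d * p) := by
  induction d with
  | zero =>
    intro k _ g g' p h x
    rw [pow_zero, one_mul]
    exact h
  | succ d ih =>
    intro k hk g g' p h x
    have h1 := ih (k + 1) (by omega) h x
    have h2 := Top_h (i := k) (by omega) h1 x
    rw [BB_succ_apply]
    have e : x * (x ^ d * p) = x ^ (d + 1) * p := by ring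
    rw [e] at h2
    exact h2

/-- The top part of `TT`. -/
noncomputable def UT (A : Type*) [CommRing A] (n : ℕ) : ℕ → (Equiv.Perm ℕ → A)
  | 0 => uv A
  | (k + 1) => UB A k (n - 1 - k) (UT A n k)

lemma UB_01 (d : ℕ) : ∀ (k : ℕ) {g : Equiv.Perm ℕ → A}, (∀ w, g w = 0 ∨ g w = 1) →
    ∀ w, UB A k d g w = 0 ∨ UB A k d g w = 1 := by
  induction d with
  | zero => intro k g h w; exact h w
  | succ d ih =>
    intro k g h w
    change UU A k (UB A (k + 1) d g) w = 0 ∨ UU A k (UB A (k + 1) d g) w = 1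
    rw [UU_apply]
    split_ifs
    · exact ih (k + 1) h _
    · exact Or.inl rfl

lemma UT_01 (n : ℕ) : ∀ (k : ℕ) (w), UT A n k w = 0 ∨ UT A n k w = 1 := by
  intro k
  induction k with
  | zero =>
    intro w
    by_cases h : w = 1
    · right; rw [h]; exact uv_one
    · left; exact uv_ne h
  | succ k ih => intro w; exact UB_01 _ _ ih w

lemma Top_T (x : ℕ → A) (n : ℕ) : ∀ m, m ≤ n →
    Top n (∑ j ∈ range m, (n - 1 - j)) (TT x n m) (UT A n m) (∏ j ∈ range m, x j ^ (n - 1 - j)) := by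
  intro m
  induction m with
  | zero =>
    intro _
    rw [range_zero, sum_empty, prod_empty]
    constructor
    · intro w hw
      apply uv_ne
      rintro rfl
      rw [card_pos] at hw
      obtain ⟨p, hp⟩ := hw
      rw [mem_inv] at hp
      simp only [Equiv.Perm.one_apply] at hp
      omega
    · intro w _
      rw [one_mul]; rfl
  | succ m ih =>
    intro hm
    rw [sum_range_succ, prod_range_succ, mul_comm (∏ j ∈ range m, x j ^ (n - 1 - j))]
    exact Top_B (n - 1 - m) m (by omega) (ih (by omega)) (x m)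

end top

/-- The longest element. -/
def w0 (n : ℕ) : Equiv.Perm ℕ :=
  Function.Involutive.toPerm (fun i => if i < n then n - 1 - i else i) (by
    intro i
    simp only
    split_ifs <;> omega)

lemma w0_apply (n i : ℕ) : w0 n i = if i < n then n - 1 - i else i := rfl

lemma w0_lt {n i : ℕ} (h : i < n) : w0 n i = n - 1 - i := by rw [w0_apply, if_pos h]

lemma w0_Sn (n : ℕ) : Sn n (w0 n) := by
  intro k hk
  rw [w0_apply, if_neg (by omega)]

lemma w0_mul_self (n : ℕ) : w0 n * w0 n = 1 := by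
  ext k
  rw [Equiv.Perm.mul_apply, Equiv.Perm.one_apply, w0_apply, w0_apply]
  split_ifs <;> omega

lemma card_inv_w0 (n : ℕ) : (inv n (w0 n)).card = ∑ j ∈ range n, (n - 1 - j) := by
  unfold inv
  rw [card_filter, sum_product]
  apply sum_congr rfl
  intro a ha
  rw [mem_range] at ha
  rw [← card_filter]
  have : (range n).filter (fun b => (a, b).1 < (a, b).2 ∧ w0 n (a, b).2 < w0 n (a, b).1)
      = Ioo a n := by
    ext b
    rw [mem_filter, mem_range, mem_Ioo]
    simp only
    constructor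
    · rintro ⟨h1, h2, _⟩; exact ⟨h2, h1⟩
    · rintro ⟨h1, h2⟩
      refine ⟨h2, h1, ?_⟩
      rw [w0_lt h2, w0_lt ha]; omega
  rw [this, Nat.card_Ioo]
  omega

/-- Schubert polynomials via the product formula. -/
noncomputable def SS (n : ℕ) (w : Equiv.Perm ℕ) : MvPolynomial ℕ ℤ := TT X n n w

lemma sg_SS (n i : ℕ) (w : Equiv.Perm ℕ) :
    sg i (SS n w) = TT (fun j => (X (sw i j) : MvPolynomial ℕ ℤ)) n n w := by
  have h := TT_map (sg (R := ℤ) i).toRingHom X n n w
  have e : (fun j => (sg (R := ℤ) i).toRingHom (X j)) = fun j => (X (sw i j) : MvPolynomial ℕ ℤ) := by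
    funext j
    exact sg_X i j
  rw [e] at h
  exact h

lemma dd_SS {n i : ℕ} (hi : i + 1 < n) (w : Equiv.Perm ℕ) :
    dd i (SS n w) = if w (i + 1) < w i then SS n (w * sw i) else 0 := by
  apply dd_unique
  rw [sg_SS]
  have h := congrFun (TT_exch (X : ℕ → MvPolynomial ℕ ℤ) n i hi (n - (i + 2))) w
  have e : i + 2 + (n - (i + 2)) = n := by omega
  rw [e] at h
  exact h

lemma dd_SS_out {n i : ℕ} (hi : n ≤ i + 1) (w : Equiv.Perm ℕ) : dd i (SS n w) = 0 := by
  apply dd_eq_zero
  rw [sg_SS, TT_last]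
  unfold SS
  rw [TT_last]
  apply congrFun
  apply TT_congr
  intro j hj
  rw [Equiv.swap_apply_of_ne_of_ne (by omega) (by omega)]

lemma dd_SS' {n : ℕ} {w : Equiv.Perm ℕ} (hw : Sn n w) (i : ℕ) :
    dd i (SS n w) = if w (i + 1) < w i then SS n (w * sw i) else 0 := by
  by_cases hi : i + 1 < n
  · exact dd_SS hi w
  · rw [dd_SS_out (by omega), if_neg]
    intro h
    exact hi (Sn_desc hw h)

lemma cc_SS (n : ℕ) (w : Equiv.Perm ℕ) : constantCoeff (SS n w) = uv ℤ w := by
  have h := TT_map (constantCoeff : MvPolynomial ℕ ℤ →+* ℤ) X n n w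
  have e : (fun j => constantCoeff (X j : MvPolynomial ℕ ℤ)) = fun _ => (0 : ℤ) := by
    funext j; simp
  rw [e, TT_zero] at h
  exact h

/-- Nonnegative coefficients. -/
def NN (f : MvPolynomial ℕ ℤ) : Prop := ∀ m, 0 ≤ coeff m f

lemma NN_zero : NN 0 := fun m => by simp

lemma NN_one : NN 1 := fun m => by
  rw [coeff_one]; split_ifs <;> norm_num

lemma NN_add {f g : MvPolynomial ℕ ℤ} (hf : NN f) (hg : NN g) : NN (f + g) := fun m => by
  rw [coeff_add]; exact add_nonneg (hf m) (hg m)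

lemma NN_mul {f g : MvPolynomial ℕ ℤ} (hf : NN f) (hg : NN g) : NN (f * g) := fun m => by
  rw [coeff_mul]
  exact sum_nonneg fun p _ => mul_nonneg (hf _) (hg _)

lemma NN_X (i : ℕ) : NN (X i) := fun m => by
  rw [coeff_X]; split_ifs <;> norm_num

lemma NN_BB {x : MvPolynomial ℕ ℤ} (hx : NN x) (d : ℕ) :
    ∀ (k : ℕ) {g : Equiv.Perm ℕ → MvPolynomial ℕ ℤ}, (∀ w, NN (g w)) →
      ∀ w, NN (BB (UU (MvPolynomial ℕ ℤ)) k d x g w) := by
  induction d with
  | zero => intro k g h w; exact h w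
  | succ d ih =>
    intro k g h w
    rw [BB_succ_apply, hh_apply, UU_apply]
    apply NN_add (ih _ h _)
    apply NN_mul hx
    split_ifs
    · exact ih _ h _
    · exact NN_zero

lemma NN_SS (n : ℕ) (w : Equiv.Perm ℕ) : NN (SS n w) := by
  have : ∀ m w, NN (TT (X : ℕ → MvPolynomial ℕ ℤ) n m w) := by
    intro m
    induction m with
    | zero =>
      intro w
      by_cases h : w = 1
      · have : TT (X : ℕ → MvPolynomial ℕ ℤ) n 0 w = 1 := by rw [h]; exact uv_one
        rw [this]; exact NN_one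
      · have : TT (X : ℕ → MvPolynomial ℕ ℤ) n 0 w = 0 := uv_ne h
        rw [this]; exact NN_zero
    | succ m ih => intro w; exact NN_BB (NN_X m) _ _ ih w
  exact this n w

/-- Iterated divided differences, the head of the list acting first. -/
noncomputable def ddr {R : Type*} [CommRing R] : List ℕ → MvPolynomial ℕ R → MvPolynomial ℕ R
  | [], f => f
  | (i :: J), f => ddr J (dd i f)

lemma ddr_zero {R : Type*} [CommRing R] [IsDomain R] (J : List ℕ) :
    ddr J (0 : MvPolynomial ℕ R) = 0 := by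
  induction J with
  | nil => rfl
  | cons i J ih =>
    change ddr J (dd i 0) = 0
    rw [dd_zero, ih]

lemma ddr_SS_ok {n : ℕ} (J : List ℕ) : ∀ {w : Equiv.Perm ℕ}, Sn n w → ok J w →
    constantCoeff (ddr J (SS n w)) = 1 := by
  induction J with
  | nil =>
    intro w _ h
    change w = 1 at h
    change constantCoeff (SS n w) = 1
    rw [cc_SS, h, uv_one]
  | cons i J ih =>
    intro w hw h
    change constantCoeff (ddr J (dd i (SS n w))) = 1
    rw [dd_SS' hw, if_pos h.1]
    exact ih (Sn_sw hw (Sn_desc hw h.1)) h.2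

lemma ddr_SS_not {n : ℕ} (J : List ℕ) : ∀ {w : Equiv.Perm ℕ}, Sn n w → ¬ ok J w →
    constantCoeff (ddr J (SS n w)) = 0 := by
  induction J with
  | nil =>
    intro w _ h
    change ¬ w = 1 at h
    change constantCoeff (SS n w) = 0
    rw [cc_SS, uv_ne h]
  | cons i J ih =>
    intro w hw h
    change constantCoeff (ddr J (dd i (SS n w))) = 0
    rw [dd_SS' hw]
    split_ifs with hd
    · apply ih (Sn_sw hw (Sn_desc hw hd))
      intro hok
      exact h ⟨hd, hok⟩
    · rw [ddr_zero, map_zero]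

lemma SS_ne_zero {n : ℕ} {w : Equiv.Perm ℕ} (hw : Sn n w) : SS n w ≠ 0 := by
  intro h0
  obtain ⟨J, _, hJ⟩ := exists_ok _ w hw rfl
  have := ddr_SS_ok J hw hJ
  rw [h0, ddr_zero, map_zero] at this
  exact zero_ne_one this

lemma SS_w0 (n : ℕ) : SS n (w0 n) = ∏ j ∈ range n, (X j : MvPolynomial ℕ ℤ) ^ (n - 1 - j) := by
  have h := (Top_T (X : ℕ → MvPolynomial ℕ ℤ) n n le_rfl).2 (w0 n) (card_inv_w0 n).symm.le
  have h' : SS n (w0 n) = (∏ j ∈ range n, (X j : MvPolynomial ℕ ℤ) ^ (n - 1 - j))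
      * UT (MvPolynomial ℕ ℤ) n n (w0 n) := h
  rcases UT_01 (A := MvPolynomial ℕ ℤ) n n (w0 n) with h1 | h1
  · exfalso
    rw [h1, mul_zero] at h'
    exact SS_ne_zero (w0_Sn n) h'
  · rw [h', h1, mul_one]

end R159.Schub
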