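import Mathlib
import Pool.Agent.R159.SchubC

/-! The Cauchy kernel and the pairing of elementary monomials with ordinary monomials. -/

namespace R159.Schub

open MvPolynomial Finset

/-- The elementary symmetric polynomial of degree `j` in `X 0, …, X (i-1)`. -/
noncomputable def elem (i j : ℕ) : MvPolynomial ℕ ℤ :=
  ∑ S ∈ powersetCard j (range i), ∏ k ∈ S, X k

/-- Index set of the Cauchy kernel. -/
def Tri (n : ℕ) : Finset (ℕ × ℕ) := (range n ×ˢ range n).filter (fun p => p.1 + p.2 + 2 ≤ n)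

lemma mem_Tri {n : ℕ} {p : ℕ × ℕ} : p ∈ Tri n ↔ p.1 + p.2 + 2 ≤ n := by
  unfold Tri
  rw [mem_filter, mem_product, mem_range, mem_range]
  constructor
  · exact fun h => h.2
  · intro h; exact ⟨⟨by omega, by omega⟩, h⟩

/-- Inner polynomials. -/
abbrev In := MvPolynomial ℕ ℤ

/-- Outer polynomials. -/
abbrev Out := MvPolynomial ℕ In

/-- The Cauchy kernel. -/
noncomputable def Pi (n : ℕ) : Out := ∏ p ∈ Tri n, (C (X p.1) + X p.2)

/-- The kernel with one factor removed. -/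
noncomputable def GG (n i : ℕ) : Out := ∏ p ∈ (Tri n).erase (i, n - 2 - i), (C (X p.1) + X p.2)

lemma Pi_eq {n i : ℕ} (hi : i + 1 < n) : Pi n = (C (X i) + X (n - 2 - i)) * GG n i := by
  unfold Pi GG
  have hmem : (i, n - 2 - i) ∈ Tri n := mem_Tri.mpr (by simp only; omega)
  rw [← mul_prod_erase _ _ hmem]

/-- Inner exchange as a ring homomorphism. -/
noncomputable def sgR (i : ℕ) : In →+* In := (sg (R := ℤ) i).toRingHom

lemma sgR_X (i k : ℕ) : sgR i (X k) = X (sw i k) := sg_X i k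

lemma map_GG {n i : ℕ} (hi : i + 1 < n) : map (sgR i) (GG n i) = GG n i := by
  unfold GG
  rw [map_prod]
  apply prod_nbij' (fun p => (sw i p.1, p.2)) (fun p => (sw i p.1, p.2))
  · rintro ⟨a, b⟩ hp
    rw [mem_erase, mem_Tri] at hp ⊢
    obtain ⟨h1, h2⟩ := hp
    have h1' : ¬ (a = i ∧ b = n - 2 - i) := by
      rintro ⟨rfl, rfl⟩; exact h1 rfl
    simp only at h2 ⊢
    rw [Equiv.swap_apply_def, Ne, Prod.mk.injEq]
    split_ifs <;> constructor <;> omega
  · rintro ⟨a, b⟩ hp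
    rw [mem_erase, mem_Tri] at hp ⊢
    obtain ⟨h1, h2⟩ := hp
    have h1' : ¬ (a = i ∧ b = n - 2 - i) := by
      rintro ⟨rfl, rfl⟩; exact h1 rfl
    simp only at h2 ⊢
    rw [Equiv.swap_apply_def, Ne, Prod.mk.injEq]
    split_ifs <;> constructor <;> omega
  · rintro ⟨a, b⟩ _; simp only [sw_sw]
  · rintro ⟨a, b⟩ _; simp only [sw_sw]
  · rintro ⟨a, b⟩ _
    rw [map_add, map_C, map_X, sgR_X]

lemma sg_C {R : Type*} [CommRing R] (i : ℕ) (r : R) : sg i (C r : MvPolynomial ℕ R) = C r := by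
  simp [sg]

lemma sg_GG {n i : ℕ} (hi : i + 1 < n) : sg (n - 2 - i) (GG n i) = GG n i := by
  unfold GG
  rw [map_prod]
  apply prod_nbij' (fun p => (p.1, sw (n - 2 - i) p.2)) (fun p => (p.1, sw (n - 2 - i) p.2))
  · rintro ⟨a, b⟩ hp
    rw [mem_erase, mem_Tri] at hp ⊢
    obtain ⟨h1, h2⟩ := hp
    have h1' : ¬ (a = i ∧ b = n - 2 - i) := by
      rintro ⟨rfl, rfl⟩; exact h1 rfl
    simp only at h2 ⊢
    rw [Equiv.swap_apply_def, Ne, Prod.mk.injEq]
    split_ifs <;> constructor <;> omega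
  · rintro ⟨a, b⟩ hp
    rw [mem_erase, mem_Tri] at hp ⊢
    obtain ⟨h1, h2⟩ := hp
    have h1' : ¬ (a = i ∧ b = n - 2 - i) := by
      rintro ⟨rfl, rfl⟩; exact h1 rfl
    simp only at h2 ⊢
    rw [Equiv.swap_apply_def, Ne, Prod.mk.injEq]
    split_ifs <;> constructor <;> omega
  · rintro ⟨a, b⟩ _; simp only [sw_sw]
  · rintro ⟨a, b⟩ _; simp only [sw_sw]
  · rintro ⟨a, b⟩ _
    rw [map_add, sg_C, sg_X]

/-- `G` is the inner divided difference of `F`. -/
def XD (i : ℕ) (F G : Out) : Prop := C (X i - X (i + 1)) * G = F - map (sgR i) F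

lemma XD_coeff {i : ℕ} {F G : Out} (h : XD i F G) (β : ℕ →₀ ℕ) :
    coeff β G = dd i (coeff β F) := by
  symm
  apply dd_unique
  have h1 := congrArg (coeff β) h
  rw [coeff_C_mul, coeff_sub, coeff_map] at h1
  exact h1.symm

lemma XD_dd {i : ℕ} {F G : Out} (h : XD i F G) (j : ℕ) : XD i (dd j F) (dd j G) := by
  have h1 := congrArg (dd j) h
  rw [dd_C_mul, dd_sub, ← dd_map] at h1
  exact h1

lemma dd_Pi {n i : ℕ} (hi : i + 1 < n) : dd (n - 2 - i) (Pi n) = GG n i := by
  apply dd_unique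
  rw [Pi_eq hi, map_mul, map_add, sg_C, sg_X_self, sg_GG hi]
  ring

lemma XD_Pi {n i : ℕ} (hi : i + 1 < n) : XD i (Pi n) (dd (n - 2 - i) (Pi n)) := by
  unfold XD
  rw [dd_Pi hi, Pi_eq hi, map_mul, map_add, map_C, map_X, sgR_X, Equiv.swap_apply_left,
    map_GG hi, map_sub]
  ring

/-- Outer operators. -/
noncomputable def ylr {R : Type*} [CommRing R] (n : ℕ) : List ℕ → MvPolynomial ℕ R →
    MvPolynomial ℕ R
  | [], F => F
  | (i :: J), F => dd (n - 2 - i) (ylr n J F)

lemma transfer {n : ℕ} (J : List ℕ) : (∀ i ∈ J, i + 1 < n) → ∀ (O : Out → Out),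
    (∀ i F G, XD i F G → XD i (O F) (O G)) → ∀ β : ℕ →₀ ℕ,
    ddr J (coeff β (O (Pi n))) = coeff β (O (ylr n J (Pi n))) := by
  induction J with
  | nil => intro _ O _ β; rfl
  | cons i J ih =>
    intro hJ O hO β
    have hi := hJ i List.mem_cons_self
    change ddr J (dd i (coeff β (O (Pi n)))) = coeff β (O (dd (n - 2 - i) (ylr n J (Pi n))))
    rw [← XD_coeff (hO i _ _ (XD_Pi hi)) β]
    exact ih (fun j hj => hJ j (List.mem_cons_of_mem _ hj)) (fun F => O (dd (n - 2 - i) F))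
      (fun k F G h => hO k _ _ (XD_dd h _)) β

lemma ylr_map {R S : Type*} [CommRing R] [IsDomain R] [CommRing S] [IsDomain S]
    (φ : R →+* S) (n : ℕ) (J : List ℕ) (F : MvPolynomial ℕ R) :
    map φ (ylr n J F) = ylr n J (map φ F) := by
  induction J with
  | nil => rfl
  | cons i J ih =>
    change map φ (dd (n - 2 - i) (ylr n J F)) = dd (n - 2 - i) (ylr n J (map φ F))
    rw [dd_map, ih]

lemma tri_prod {M : Type*} [CommMonoid M] (n : ℕ) (f : ℕ → ℕ → M) :
    ∏ p ∈ Tri n, f p.1 p.2 = ∏ j ∈ range n, ∏ i ∈ range (n - 1 - j), f i j := by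
  unfold Tri
  rw [prod_filter, prod_product_right]
  apply prod_congr rfl
  intro j _
  rw [← prod_filter]
  apply prod_congr _ (fun _ _ => rfl)
  ext i
  rw [mem_filter, mem_range, mem_range]
  simp only
  omega

lemma map_cc_Pi (n : ℕ) : map constantCoeff (Pi n) = SS n (w0 n) := by
  unfold Pi
  rw [map_prod, SS_w0]
  have h1 : ∀ p ∈ Tri n, map constantCoeff (C (X p.1) + X p.2 : Out)
      = (fun (_ b : ℕ) => (X b : In)) p.1 p.2 := by
    intro p _
    rw [map_add, map_C, map_X]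
    simp
  rw [prod_congr rfl h1, tri_prod n (fun (_ b : ℕ) => (X b : In))]
  apply prod_congr rfl
  intro j _
  rw [prod_const, card_range]

lemma w0_conj {n i : ℕ} (hi : i + 1 < n) : w0 n * sw (n - 2 - i) = sw i * w0 n := by
  ext k
  rw [Equiv.Perm.mul_apply, Equiv.Perm.mul_apply, w0_apply, w0_apply, Equiv.swap_apply_def,
    Equiv.swap_apply_def]
  split_ifs <;> omega

lemma dd_flip {n i : ℕ} (hi : i + 1 < n) (v : Equiv.Perm ℕ) :
    dd (n - 2 - i) (SS n (v * w0 n)) = if v i < v (i + 1) then SS n (v * sw i * w0 n) else 0 := by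
  rw [dd_SS (by omega)]
  have e1 : (v * w0 n) (n - 2 - i + 1) = v i := by
    rw [Equiv.Perm.mul_apply, w0_lt (by omega)]
    congr 1; omega
  have e2 : (v * w0 n) (n - 2 - i) = v (i + 1) := by
    rw [Equiv.Perm.mul_apply, w0_lt (by omega)]
    congr 1; omega
  rw [e1, e2, mul_assoc v, w0_conj hi, ← mul_assoc]

lemma ylr_ok {n : ℕ} (J : List ℕ) : (∀ i ∈ J, i + 1 < n) → ∀ w, ok J w →
    ylr n J (SS n (w0 n)) = SS n (w * w0 n) := by
  induction J with
  | nil =>
    intro _ w h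
    change w = 1 at h
    rw [h, one_mul]; rfl
  | cons i J ih =>
    intro hJ w h
    have hi := hJ i List.mem_cons_self
    change dd (n - 2 - i) (ylr n J (SS n (w0 n))) = _
    rw [ih (fun j hj => hJ j (List.mem_cons_of_mem _ hj)) _ h.2, dd_flip hi, ms_l, ms_r,
      if_pos h.1, sw_mul_self]

lemma ylr_not {n : ℕ} (J : List ℕ) : (∀ i ∈ J, i + 1 < n) → (¬ ∃ w, ok J w) →
    ylr n J (SS n (w0 n)) = 0 := by
  induction J with
  | nil =>
    intro _ h
    exact absurd ⟨1, rfl⟩ h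
  | cons i J ih =>
    intro hJ h
    have hi := hJ i List.mem_cons_self
    have hJ' : ∀ j ∈ J, j + 1 < n := fun j hj => hJ j (List.mem_cons_of_mem _ hj)
    change dd (n - 2 - i) (ylr n J (SS n (w0 n))) = 0
    by_cases hv : ∃ v, ok J v
    · obtain ⟨v, hv⟩ := hv
      rw [ylr_ok J hJ' v hv, dd_flip hi, if_neg]
      intro hlt
      apply h
      refine ⟨v * sw i, ?_, ?_⟩
      · rw [ms_l, ms_r]; exact hlt
      · rw [sw_mul_self]; exact hv
    · rw [ih hJ' hv, dd_zero]

lemma pairing {n : ℕ} {J : List ℕ} (hJ : ∀ i ∈ J, i + 1 < n) (β : ℕ →₀ ℕ) :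
    constantCoeff (ddr J (coeff β (Pi n))) = coeff β (ylr n J (SS n (w0 n))) := by
  have h := transfer J hJ id (fun i F G h => h) β
  simp only [id] at h
  rw [h, ← map_cc_Pi, ← ylr_map, coeff_map]

lemma pairing_nonneg {n : ℕ} {J : List ℕ} (hJ : ∀ i ∈ J, i + 1 < n) (β : ℕ →₀ ℕ) :
    0 ≤ constantCoeff (ddr J (coeff β (Pi n))) := by
  rw [pairing hJ]
  by_cases h : ∃ w, ok J w
  · obtain ⟨w, hw⟩ := h
    rw [ylr_ok J hJ w hw]
    exact NN_SS _ _ _
  · rw [ylr_not J hJ h]; simp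

lemma pairing_ok {n : ℕ} {J J' : List ℕ} (hJ : ∀ i ∈ J, i + 1 < n) (hJ' : ∀ i ∈ J', i + 1 < n)
    {w : Equiv.Perm ℕ} (h : ok J w) (h' : ok J' w) (β : ℕ →₀ ℕ) :
    constantCoeff (ddr J (coeff β (Pi n))) = constantCoeff (ddr J' (coeff β (Pi n))) := by
  rw [pairing hJ, pairing hJ', ylr_ok J hJ w h, ylr_ok J' hJ' w h']

/-- The generating function of the elementary symmetric polynomials. -/
lemma prod_elem (k j : ℕ) :
    ∏ i ∈ range k, (C (X i) + X j : Out) = ∑ t ∈ range (k + 1), C (elem k t) * X j ^ (k - t) := by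
  rw [prod_add, sum_powerset, card_range]
  apply sum_congr rfl
  intro t _
  unfold elem
  rw [map_sum, sum_mul]
  apply sum_congr rfl
  intro S hS
  rw [mem_powersetCard] at hS
  rw [map_prod, prod_const, card_sdiff_of_subset hS.1, card_range, hS.2]

lemma Pi_prod (n : ℕ) :
    Pi n = ∏ k ∈ range n, ∑ t ∈ range (k + 1), C (elem k t) * (X (n - 1 - k) : Out) ^ (k - t) := by
  unfold Pi
  rw [tri_prod n (fun a b => (C (X a) + X b : Out))]
  rw [← prod_range_reflect]
  apply prod_congr rfl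
  intro k hk
  rw [mem_range] at hk
  have e : n - 1 - (n - 1 - k) = k := by omega
  rw [e, prod_elem]

lemma sem_coeff (n : ℕ) (a : ℕ → ℕ) (ha : ∀ k, a k ≤ k) :
    ∃ β : ℕ →₀ ℕ, coeff β (Pi n) = ∏ k ∈ range n, elem k (a k) := by
  classical
  have key : Pi n = ∑ p ∈ Fintype.piFinset (fun k : Fin n => range (k.1 + 1)),
      monomial (∑ k : Fin n, Finsupp.single (n - 1 - k.1) (k.1 - p k))
        (∏ k : Fin n, elem k.1 (p k)) := by
    rw [Pi_prod, prod_range, prod_univ_sum]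
    apply sum_congr rfl
    intro p _
    rw [monomial_sum_index, map_prod, ← prod_mul_distrib]
    apply prod_congr rfl
    intro k _
    rw [← X_pow_eq_monomial]
  refine ⟨∑ k : Fin n, Finsupp.single (n - 1 - k.1) (k.1 - a k), ?_⟩
  rw [key, coeff_sum, sum_eq_single (fun k : Fin n => a k.1)]
  · rw [coeff_monomial, if_pos rfl, prod_range]
  · intro p hp hne
    rw [coeff_monomial, if_neg]
    intro heq
    apply hne
    funext k
    have hev : ∀ q : Fin n → ℕ,
        (∑ k' : Fin n, Finsupp.single (n - 1 - k'.1) (k'.1 - q k')) (n - 1 - k.1) = k.1 - q k := by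
      intro q
      rw [Finsupp.finsetSum_apply, sum_eq_single k]
      · rw [Finsupp.single_eq_same]
      · intro k' _ hk'
        rw [Finsupp.single_eq_of_ne]
        intro he
        apply hk'
        ext
        have := k.2
        have := k'.2
        omega
      · intro h; exact absurd (mem_univ _) h
    have h1 := congrArg (fun β : ℕ →₀ ℕ => β (n - 1 - k.1)) heq
    simp only [hev] at h1
    rw [Fintype.mem_piFinset] at hp
    have h2 := hp k
    rw [mem_range] at h2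
    have h3 := ha k.1
    omega
  · intro h
    exfalso
    apply h
    rw [Fintype.mem_piFinset]
    intro k
    rw [mem_range]
    have := ha k.1
    omega

end R159.Schub
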