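import Mathlib
import Pool.Agent.R159.SchubD

/-! Standard elementary monomials, and the final argument. -/

namespace R159.Schub

open MvPolynomial Finset

lemma elem_zero (k : ℕ) : elem k 0 = 1 := by
  unfold elem
  rw [powersetCard_zero, sum_singleton, prod_empty]

lemma elem_succ (k j : ℕ) : elem (k + 1) (j + 1) = elem k (j + 1) + X k * elem k j := by
  unfold elem
  rw [range_add_one, powersetCard_succ_insert notMem_range_self, sum_union, mul_sum, sum_image]
  · congr 1
    apply sum_congr rfl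
    intro S hS
    rw [mem_powersetCard] at hS
    rw [prod_insert]
    intro h
    exact notMem_range_self (hS.1 h)
  · intro S hS T hT h
    rw [mem_coe, mem_powersetCard] at hS hT
    have h1 : k ∉ S := fun h' => notMem_range_self (hS.1 h')
    have h2 : k ∉ T := fun h' => notMem_range_self (hT.1 h')
    rw [← erase_insert h1, ← erase_insert h2, h]
  · rw [disjoint_left]
    intro S hS hS'
    rw [mem_powersetCard] at hS
    rw [mem_image] at hS'
    obtain ⟨T, _, rfl⟩ := hS'
    exact notMem_range_self (hS.1 (mem_insert_self _ _))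

lemma sg_elem {i k : ℕ} (h : i + 1 ≠ k) (j : ℕ) : sg i (elem k j) = elem k j := by
  unfold elem
  rw [map_sum]
  have hk : ∀ x, x ∈ range k ↔ sw i x ∈ range k := by
    intro x
    rw [mem_range, mem_range, Equiv.swap_apply_def]
    split_ifs <;> omega
  apply sum_nbij' (fun S => S.map (sw i).toEmbedding) (fun S => S.map (sw i).toEmbedding)
  · intro S hS
    rw [mem_powersetCard] at hS ⊢
    refine ⟨?_, by rw [card_map]; exact hS.2⟩
    intro x hx
    rw [mem_map] at hx
    obtain ⟨y, hy, rfl⟩ := hx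
    exact (hk y).mp (hS.1 hy)
  · intro S hS
    rw [mem_powersetCard] at hS ⊢
    refine ⟨?_, by rw [card_map]; exact hS.2⟩
    intro x hx
    rw [mem_map] at hx
    obtain ⟨y, hy, rfl⟩ := hx
    exact (hk y).mp (hS.1 hy)
  · intro S _
    rw [map_map]
    ext x
    rw [mem_map]
    constructor
    · rintro ⟨y, hy, rfl⟩
      simpa [sw_sw] using hy
    · intro hx
      exact ⟨x, hx, by simp⟩
  · intro S _
    rw [map_map]
    ext x
    rw [mem_map]
    constructor
    · rintro ⟨y, hy, rfl⟩
      simpa [sw_sw] using hy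
    · intro hx
      exact ⟨x, hx, by simp⟩
  · intro S _
    rw [map_prod, prod_map]
    apply prod_congr rfl
    intro x _
    rw [sg_X]; rfl

lemma dd_elem (k j : ℕ) {F : In} (hF : sg k F = F) :
    dd k (elem (k + 1) (j + 1) * F) = elem k j * F := by
  apply dd_unique
  rw [map_mul, hF, elem_succ, map_add, map_mul, sg_X_self, sg_elem (by omega), sg_elem (by omega)]
  ring

lemma word_elem (j : ℕ) : ∀ (k : ℕ), j ≤ k → ∀ {F : In}, (∀ i, i < k → sg i F = F) →
    ∃ J : List ℕ, (∀ i ∈ J, i < k) ∧ ddr J (elem k j * F) = F := by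
  induction j with
  | zero =>
    intro k _ F _
    refine ⟨[], by simp, ?_⟩
    rw [elem_zero, one_mul]; rfl
  | succ j ih =>
    intro k hk F hF
    obtain ⟨k', rfl⟩ : ∃ k', k = k' + 1 := ⟨k - 1, by omega⟩
    obtain ⟨J, hJ, hJ2⟩ := ih k' (by omega) (F := F) (fun i hi => hF i (by omega))
    refine ⟨k' :: J, ?_, ?_⟩
    · intro i hi
      rw [List.mem_cons] at hi
      rcases hi with rfl | hi
      · omega
      · have := hJ i hi; omega
    · change ddr J (dd k' (elem (k' + 1) (j + 1) * F)) = F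
      rw [dd_elem k' j (hF k' (by omega)), hJ2]

lemma ddr_append {R : Type*} [CommRing R] (J J' : List ℕ) (f : MvPolynomial ℕ R) :
    ddr (J ++ J') f = ddr J' (ddr J f) := by
  induction J generalizing f with
  | nil => rfl
  | cons i J ih =>
    change ddr (J ++ J') (dd i f) = ddr J' (ddr J (dd i f))
    exact ih _

lemma word_sem (a : ℕ → ℕ) (ha : ∀ k, a k ≤ k) (m : ℕ) (r : ℕ) : ∀ k, k + r = m →
    ∃ J : List ℕ, (∀ i ∈ J, i + 1 < m) ∧ ddr J (∏ l ∈ Ico k m, elem l (a l)) = 1 := by
  induction r with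
  | zero =>
    intro k hk
    refine ⟨[], by simp, ?_⟩
    have : Ico k m = ∅ := by rw [Ico_eq_empty_iff]; omega
    rw [this, prod_empty]; rfl
  | succ r ih =>
    intro k hk
    obtain ⟨J', hJ', hJ2'⟩ := ih (k + 1) (by omega)
    have hinv : ∀ i, i < k → sg i (∏ l ∈ Ico (k + 1) m, elem l (a l))
        = ∏ l ∈ Ico (k + 1) m, elem l (a l) := by
      intro i hi
      rw [map_prod]
      apply prod_congr rfl
      intro l hl
      rw [mem_Ico] at hl
      exact sg_elem (by omega) _
    obtain ⟨J, hJ, hJ2⟩ := word_elem (a k) k (ha k) hinv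
    refine ⟨J ++ J', ?_, ?_⟩
    · intro i hi
      rw [List.mem_append] at hi
      rcases hi with hi | hi
      · have := hJ i hi; omega
      · exact hJ' i hi
    · rw [prod_eq_prod_Ico_succ_bot (by omega), ddr_append, hJ2, hJ2']

/-- Standard elementary monomials. -/
noncomputable def sem (a : ℕ →₀ ℕ) : MvPolynomial ℕ ℤ := ∏ i ∈ a.support, elem i (a i)

lemma sem_eq {a : ℕ →₀ ℕ} {m : ℕ} (h : ∀ i ∈ a.support, i < m) :
    sem a = ∏ k ∈ range m, elem k (a k) := by
  unfold sem
  apply prod_subset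
  · intro i hi; rw [mem_range]; exact h i hi
  · intro i _ hi
    rw [Finsupp.notMem_support_iff] at hi
    rw [hi, elem_zero]

/-- The Schubert polynomials of `S_n`, defined by divided differences from the longest element:
`w` is a permutation of `ℕ` fixing every `k ≥ n`, and `Q = ∂_i P` is expressed by
`(X i - X (i+1)) * Q = P - s_i P`. -/
inductive IsSchubert (n : ℕ) : Equiv.Perm ℕ → MvPolynomial ℕ ℤ → Prop
  | top : IsSchubert n (w0 n) (∏ k ∈ range n, X k ^ (n - 1 - k))
  | step (w : Equiv.Perm ℕ) (P Q : MvPolynomial ℕ ℤ) (i : ℕ) (hi : i + 1 < n)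
      (h : IsSchubert n w P) (hd : w (i + 1) < w i)
      (hQ : (X i - X (i + 1)) * Q = P - rename (Equiv.swap i (i + 1)) P) :
      IsSchubert n (w * Equiv.swap i (i + 1)) Q

lemma schub_eq {n : ℕ} {w : Equiv.Perm ℕ} {P : MvPolynomial ℕ ℤ} (h : IsSchubert n w P) :
    Sn n w ∧ P = SS n w := by
  induction h with
  | top => exact ⟨w0_Sn n, (SS_w0 n).symm⟩
  | step w P Q i hi _ hd hQ ih =>
    refine ⟨Sn_sw ih.1 hi, ?_⟩
    have h1 : dd i P = Q := dd_unique hQ.symm
    rw [← h1, ih.2, dd_SS hi, if_pos hd]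

lemma schub_exists_aux {n : ℕ} (J : List ℕ) : (∀ i ∈ J, i + 1 < n) → ∀ v, ok J v →
    IsSchubert n (v * w0 n) (SS n (v * w0 n)) := by
  induction J with
  | nil =>
    intro _ v h
    change v = 1 at h
    rw [h, one_mul, SS_w0]
    exact IsSchubert.top
  | cons i J ih =>
    intro hJ v h
    have hi := hJ i List.mem_cons_self
    have h1 := ih (fun j hj => hJ j (List.mem_cons_of_mem _ hj)) _ h.2
    have e1 : (v * sw i * w0 n) (n - 2 - i + 1) = v (i + 1) := by
      rw [Equiv.Perm.mul_apply, w0_lt (by omega)]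
      have : n - 1 - (n - 2 - i + 1) = i := by omega
      rw [this, ms_l]
    have e2 : (v * sw i * w0 n) (n - 2 - i) = v i := by
      rw [Equiv.Perm.mul_apply, w0_lt (by omega)]
      have : n - 1 - (n - 2 - i) = i + 1 := by omega
      rw [this, ms_r]
    have e3 : v * sw i * w0 n * sw (n - 2 - i) = v * w0 n := by
      rw [mul_assoc (v * sw i), w0_conj hi, ← mul_assoc, sw_mul_self]
    have h2 := IsSchubert.step (n := n) (v * sw i * w0 n) (SS n (v * sw i * w0 n))
      (SS n (v * w0 n)) (n - 2 - i) (by omega) h1 (by rw [e1, e2]; exact h.1) (by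
        have h3 := dd_spec (n - 2 - i) (SS n (v * sw i * w0 n))
        rw [dd_flip hi, if_pos (by rw [ms_l, ms_r]; exact h.1), sw_mul_self] at h3
        exact h3.symm)
    rw [← e3]
    rw [e3] at h2 ⊢
    convert h2 using 1

theorem schub_exists {n : ℕ} {w : Equiv.Perm ℕ} (hw : ∀ k, n ≤ k → w k = k) :
    ∃! P, IsSchubert n w P := by
  have hv : Sn n (w * w0 n) := by
    intro k hk
    rw [Equiv.Perm.mul_apply, w0_Sn n k hk, hw k hk]
  obtain ⟨J, hJ, hok⟩ := exists_ok _ (w * w0 n) hv rfl
  have h := schub_exists_aux J hJ _ hok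
  rw [mul_assoc, w0_mul_self, mul_one] at h
  exact ⟨_, h, fun Q hQ => (schub_eq hQ).2⟩

theorem main (n : ℕ) (w : Equiv.Perm ℕ) (P : MvPolynomial ℕ ℤ) (hP : IsSchubert n w P)
    (c : (ℕ →₀ ℕ) →₀ ℤ) (hc : ∀ a ∈ c.support, (∀ i, a i ≤ i) ∧ 0 ≤ c a)
    (hsum : P = ∑ a ∈ c.support, C (c a) * sem a) :
    ∃ a : ℕ →₀ ℕ, (∀ i, a i ≤ i) ∧ P = sem a ∧ c = Finsupp.single a 1 := by
  obtain ⟨hw, hPS⟩ := schub_eq hP
  have hne : P ≠ 0 := by rw [hPS]; exact SS_ne_zero hw
  -- a bound for all the indices
  obtain ⟨m, hm⟩ : ∃ m, ∀ a ∈ c.support, ∀ i ∈ a.support, i < m := by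
    refine ⟨(c.support.sup (fun a => a.support.sup id)) + 1, ?_⟩
    intro a ha i hi
    have h1 : id i ≤ a.support.sup id := le_sup (f := id) hi
    have h2 : a.support.sup id ≤ c.support.sup (fun a => a.support.sup id) :=
      le_sup (f := fun a : ℕ →₀ ℕ => a.support.sup id) ha
    simp only [id] at h1
    omega
  have hβ : ∀ a ∈ c.support, ∃ β : ℕ →₀ ℕ, coeff β (Pi m) = sem a := by
    intro a ha
    obtain ⟨β, hβ⟩ := sem_coeff m a (hc a ha).1
    exact ⟨β, by rw [hβ, sem_eq (hm a ha)]⟩
  have hword : ∀ a ∈ c.support, ∃ J : List ℕ, (∀ i ∈ J, i + 1 < m) ∧ ddr J (sem a) = 1 := by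
    intro a ha
    obtain ⟨J, hJ, hJ2⟩ := word_sem a (hc a ha).1 m m 0 (by omega)
    refine ⟨J, hJ, ?_⟩
    rw [sem_eq (hm a ha), range_eq_Ico]; exact hJ2
  have hlin : ∀ J : List ℕ, constantCoeff (ddr J P)
      = ∑ a ∈ c.support, c a * constantCoeff (ddr J (sem a)) := by
    intro J
    have hdadd : ∀ (J : List ℕ) (f g : In), ddr J (f + g) = ddr J f + ddr J g := by
      intro J
      induction J with
      | nil => intro f g; rfl
      | cons i J ih => intro f g; change ddr J (dd i (f + g)) = _; rw [dd_add, ih]; rfl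
    have hdC : ∀ (J : List ℕ) (z : ℤ) (f : In), ddr J (C z * f) = C z * ddr J f := by
      intro J
      induction J with
      | nil => intro z f; rfl
      | cons i J ih => intro z f; change ddr J (dd i (C z * f)) = _; rw [dd_C_mul, ih]; rfl
    have hds : ∀ s : Finset (ℕ →₀ ℕ), constantCoeff (ddr J (∑ a ∈ s, C (c a) * sem a))
        = ∑ a ∈ s, c a * constantCoeff (ddr J (sem a)) := by
      intro s
      induction s using Finset.induction_on with
      | empty => rw [sum_empty, sum_empty, ddr_zero, map_zero]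
      | insert a s ha ih =>
        rw [sum_insert ha, sum_insert ha, hdadd, map_add, ih, hdC, map_mul]
        simp
    rw [hsum]; exact hds _
  have hval : ∀ J : List ℕ, (∀ i ∈ J, i + 1 < m) → ∀ a ∈ c.support,
      0 ≤ constantCoeff (ddr J (sem a)) := by
    intro J hJ a ha
    obtain ⟨β, hβa⟩ := hβ a ha
    rw [← hβa]
    exact pairing_nonneg hJ β
  have hpos : ∀ a ∈ c.support, 1 ≤ c a := by
    intro a ha
    have h1 := (hc a ha).2
    rw [Finsupp.mem_support_iff] at ha
    omega
  have hcs : c.support.Nonempty := by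
    by_contra hcon
    rw [not_nonempty_iff_eq_empty] at hcon
    rw [hcon, sum_empty] at hsum
    exact hne hsum
  -- for each index, its word leads from `w` to the identity
  have hokw : ∀ a ∈ c.support, ∀ J : List ℕ, (∀ i ∈ J, i + 1 < m) → ddr J (sem a) = 1 → ok J w := by
    intro a ha J hJ hJ2
    by_contra hcon
    have h1 := ddr_SS_not J hw hcon
    rw [← hPS, hlin] at h1
    have h2 : c a * constantCoeff (ddr J (sem a)) ≤ ∑ b ∈ c.support, c b * constantCoeff (ddr J (sem b)) :=
      single_le_sum (f := fun b => c b * constantCoeff (ddr J (sem b)))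
        (fun b hb => mul_nonneg (by have := hpos b hb; omega) (hval J hJ b hb)) ha
    rw [h1, hJ2, map_one, mul_one] at h2
    have := hpos a ha
    omega
  obtain ⟨a, ha⟩ := hcs
  obtain ⟨J, hJ, hJ2⟩ := hword a ha
  have hoka := hokw a ha J hJ hJ2
  have hone : ∑ b ∈ c.support, c b * constantCoeff (ddr J (sem b)) = 1 := by
    rw [← hlin, hPS]; exact ddr_SS_ok J hw hoka
  have hall : ∀ b ∈ c.support, constantCoeff (ddr J (sem b)) = 1 := by
    intro b hb
    obtain ⟨J', hJ', hJ2'⟩ := hword b hb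
    have hokb := hokw b hb J' hJ' hJ2'
    obtain ⟨β, hβb⟩ := hβ b hb
    rw [← hβb, pairing_ok hJ hJ' hoka hokb β, hβb, hJ2', map_one]
  have hsum1 : ∑ b ∈ c.support, c b = 1 := by
    rw [← hone]
    apply sum_congr rfl
    intro b hb
    rw [hall b hb, mul_one]
  have hcard : c.support = {a} := by
    rw [eq_singleton_iff_unique_mem]
    refine ⟨ha, ?_⟩
    intro b hb
    by_contra hne'
    have h1 : ∑ x ∈ ({a, b} : Finset (ℕ →₀ ℕ)), c x ≤ ∑ x ∈ c.support, c x := by
      apply sum_le_sum_of_subset_of_nonneg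
      · intro x hx
        rw [mem_insert, mem_singleton] at hx
        rcases hx with rfl | rfl
        · exact ha
        · exact hb
      · intro x hx _
        have := hpos x hx
        omega
    rw [sum_pair (Ne.symm hne'), hsum1] at h1
    have := hpos a ha
    have := hpos b hb
    omega
  rw [hcard, sum_singleton] at hsum1 hsum
  refine ⟨a, (hc a ha).1, ?_, ?_⟩
  · rw [hsum, hsum1, map_one, one_mul]
  · ext b
    by_cases hb : b = a
    · rw [hb, Finsupp.single_eq_same, hsum1]
    · rw [Finsupp.single_eq_of_ne hb, ← Finsupp.notMem_support_iff, hcard, mem_singleton]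
      exact hb

end R159.Schub
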