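import Pool.Agent.R497.TB.Defs
import Pool.Agent.R998.TDAPXG

/-!
TB-APXU (helper159 for helper497, hard problem MP_f720ae_an): the approximations of `g - E(g | σ)` are uniformly
bounded (modification of R998/TDAPXG).
-/

set_option autoImplicit false

namespace Pool.Agent.R159.TB

open MeasureTheory Filter Finset Pool.Agent.Y957.MC
open Pool.Agent.R497.TB (S_APXU)
open Pool.Agent.Y312.MC (flowInv_le inv_of_meas smo_meas smo_bdd int_bdd smo_L1 condExp_smo)

universe u

theorem t_APXU : S_APXU.{u} := by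
  intro X mX μ _ τ g hF hg hgb
  obtain ⟨C', hC'⟩ := hgb
  set C : ℝ := |C'| + 1 with hCdef
  have hC0 : 0 < C := by positivity
  have hC : ∀ x, |g x| ≤ C := fun x => (hC' x).trans ((le_abs_self _).trans (by linarith))
  have hm := flowInv_le (mX := mX) τ
  -- the truncated conditional expectation
  set gb : X → ℝ := fun x => max (-C) (min C ((μ[g | flowInv τ]) x)) with hgb
  have hgbm : Measurable[flowInv τ] gb := by
    have : Measurable[flowInv τ] (μ[g | flowInv τ]) := stronglyMeasurable_condExp.measurable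
    exact measurable_const.max (measurable_const.min this)
  have hgbM : Measurable gb := hgbm.mono hm le_rfl
  have hgbb : ∀ x, |gb x| ≤ C := fun x => abs_le.2 ⟨le_max_left _ _, max_le (by linarith) (min_le_left _ _)⟩
  have hgbe : ∀ᵐ x ∂μ, gb x = (μ[g | flowInv τ]) x := by
    have : ∀ᵐ x ∂μ, |(μ[g | flowInv τ]) x| ≤ C := by
      have := ae_bdd_abs_condExp_of_ae_bdd_abs (m := flowInv τ) (μ := μ) (f := g) (R := C)
        (ae_of_all _ fun x => hC x)
      exact this
    filter_upwards [this] with x hx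
    rw [abs_le] at hx
    simp only [hgb]
    rw [min_eq_right hx.2, max_eq_right hx.1]
  have hpos : ∀ j : ℕ, 0 < 1 / ((j : ℝ) + 1) := fun j => by positivity
  set hs : ℕ → X → ℝ := fun j => smo τ g (1 / ((j : ℝ) + 1)) with hhs
  have hsm : ∀ j, Measurable (hs j) := fun j => smo_meas hF hg (hpos j)
  have hsb : ∀ j x, |hs j x| ≤ C := fun j x => smo_bdd hC (hpos j) x
  -- choice of `S j`
  have hS : ∀ j : ℕ, ∃ V : ℝ, 0 < V ∧ ∫ x, |smo τ (hs j) V x - gb x| ∂μ < 1 / ((j : ℝ) + 1) := by
    intro j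
    have ht := Pool.Agent.Y48.MC.flwb X μ τ (hs j) hF (hsm j) ⟨C, hsb j⟩
    have hlim : Tendsto (fun n : ℕ => ∫ x, |smo τ (hs j) ((n : ℝ) + 1) x - gb x| ∂μ) atTop (nhds (∫ x : X, (0 : ℝ) ∂μ)) := by
      refine tendsto_integral_of_dominated_convergence (fun _ => 2 * C) ?_ (integrable_const _) ?_ ?_
      · intro n
        exact ((smo_meas hF (hsm j) (by positivity)).sub hgbM).abs.aestronglyMeasurable
      · intro n
        refine ae_of_all _ fun x => ?_
        have e1 := smo_bdd (τ := τ) (hsb j) (by positivity : 0 < (n : ℝ) + 1) x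
        have e2 := hgbb x
        rw [Real.norm_eq_abs, abs_abs]
        exact (abs_sub _ _).trans (by linarith)
      · filter_upwards [ht, hgbe, condExp_smo hF hg hC (hpos j)] with x hx hx2 hx3
        have e1 : Tendsto (fun n : ℕ => (n : ℝ) + 1) atTop atTop :=
          tendsto_atTop_add_const_right _ _ tendsto_natCast_atTop_atTop
        have e2 := (hx.comp e1).sub (tendsto_const_nhds (x := gb x))
        rw [hx2, hx3, sub_self] at e2
        simpa [Function.comp_def, hx2, hx3] using e2.abs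
    rw [integral_zero] at hlim
    obtain ⟨n, hn⟩ := (hlim.eventually (gt_mem_nhds (hpos j))).exists
    exact ⟨(n : ℝ) + 1, by positivity, hn⟩
  choose S hS0 hS1 using hS
  set E : ℕ → X → ℝ := fun j x => |g x - gb x - (hs j x - smo τ (hs j) (S j) x)| with hEdef
  have hEm : ∀ j, Measurable (E j) := fun j =>
    ((hg.sub hgbM).sub ((hsm j).sub (smo_meas hF (hsm j) (hS0 j)))).abs
  have hEb : ∀ j x, 0 ≤ E j x ∧ E j x ≤ 4 * C := by
    intro j x
    refine ⟨by positivity, ?_⟩
    have e1 := hC x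
    have e2 := hsb j x
    have e3 := smo_bdd (τ := τ) (hsb j) (hS0 j) x
    have e4 := hgbb x
    have e5 := abs_sub (g x - gb x) (hs j x - smo τ (hs j) (S j) x)
    have e6 := abs_sub (g x) (gb x)
    have e7 := abs_sub (hs j x) (smo τ (hs j) (S j) x)
    simp only [hEdef]
    linarith
  have hEint : Tendsto (fun j => ∫ x, E j x ∂μ) atTop (nhds 0) := by
    have i1 : ∀ j, Integrable (fun x => |g x - hs j x|) μ := fun j => by
      refine int_bdd (hg.sub (hsm j)).abs (C := 2 * C) fun x => ?_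
      rw [abs_abs]
      exact (abs_sub _ _).trans (by linarith [hC x, hsb j x])
    have i2 : ∀ j, Integrable (fun x => |smo τ (hs j) (S j) x - gb x|) μ := fun j => by
      refine int_bdd (((smo_meas hF (hsm j) (hS0 j)).sub hgbM).abs) (C := 2 * C) fun x => ?_
      rw [abs_abs]
      exact (abs_sub _ _).trans (by linarith [smo_bdd (τ := τ) (hsb j) (hS0 j) x, hgbb x])
    have e0 : ∀ j, ∫ x, E j x ∂μ ≤ (∫ x, |g x - hs j x| ∂μ) + ∫ x, |smo τ (hs j) (S j) x - gb x| ∂μ := by
      intro j
      rw [← integral_add (i1 j) (i2 j)]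
      refine integral_mono (int_bdd (hEm j) (C := 4 * C) fun x => ?_) ((i1 j).add (i2 j)) fun x => ?_
      · rw [abs_of_nonneg (hEb j x).1]
        exact (hEb j x).2
      · simp only [hEdef]
        have e : g x - gb x - (hs j x - smo τ (hs j) (S j) x) = (g x - hs j x) + (smo τ (hs j) (S j) x - gb x) := by
          ring
        rw [e]
        exact abs_add_le _ _
    have e1 := smo_L1 hF hg hC (μ := μ)
    have e2 : Tendsto (fun j : ℕ => ∫ x, |smo τ (hs j) (S j) x - gb x| ∂μ) atTop (nhds 0) :=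
      squeeze_zero (fun j => integral_nonneg fun x => abs_nonneg _) (fun j => (hS1 j).le)
        tendsto_one_div_add_atTop_nhds_zero_nat
    have e3 := e1.add e2
    rw [add_zero] at e3
    exact squeeze_zero (fun j => integral_nonneg fun x => (hEb j x).1) e0 e3
  -- the conditional expectations of the errors have infimum zero
  have hinf : ∀ᵐ x ∂μ, ∀ k : ℕ, ∃ j, (μ[E j | flowInv τ]) x < 1 / ((k : ℝ) + 1) := by
    rw [ae_all_iff]
    intro k
    have hk : 0 < 1 / ((k : ℝ) + 1) := hpos k
    have hmk : ∀ j, 1 / ((k : ℝ) + 1) * μ.real {x | 1 / ((k : ℝ) + 1) ≤ (μ[E j | flowInv τ]) x} ≤ ∫ x, E j x ∂μ := by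
      intro j
      have e1 : 0 ≤ᵐ[μ] μ[E j | flowInv τ] := condExp_nonneg (ae_of_all _ fun x => (hEb j x).1)
      have e2 := mul_meas_ge_le_integral_of_nonneg e1 integrable_condExp (1 / ((k : ℝ) + 1))
      rwa [integral_condExp hm] at e2
    have hbad : μ.real {x | ¬ ∃ j, (μ[E j | flowInv τ]) x < 1 / ((k : ℝ) + 1)} ≤ 0 := by
      have e3 : ∀ j, 1 / ((k : ℝ) + 1) * μ.real {x | ¬ ∃ j, (μ[E j | flowInv τ]) x < 1 / ((k : ℝ) + 1)} ≤
          ∫ x, E j x ∂μ := by
        intro j
        refine le_trans (mul_le_mul_of_nonneg_left ?_ hk.le) (hmk j)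
        refine measureReal_mono ?_ (measure_ne_top _ _)
        intro x hx
        simp only [Set.mem_ofPred_eq, not_exists, not_lt] at hx ⊢
        exact hx j
      have e4 := ge_of_tendsto' hEint e3
      nlinarith
    have : μ {x | ¬ ∃ j, (μ[E j | flowInv τ]) x < 1 / ((k : ℝ) + 1)} = 0 := by
      have e5 := le_antisymm hbad measureReal_nonneg
      rwa [measureReal_eq_zero_iff] at e5
    exact this
  refine ⟨gb, fun j x => hs j x - smo τ (hs j) (S j) x, hgbM, ⟨C, hgbb⟩, fun t x => inv_of_meas hgbm t x, hgbe,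
    ⟨2 * C, fun j x => (abs_sub _ _).trans (by
      linarith [hsb j x, smo_bdd (τ := τ) (hsb j) (hS0 j) x])⟩,
    fun j => Pool.Agent.R998.TD.niceG hF hg hC0 hC (hpos j) (hS0 j), ?_⟩
  filter_upwards [hinf] with x hx ε hε
  obtain ⟨k, hk⟩ := exists_nat_one_div_lt hε
  obtain ⟨j, hj⟩ := hx k
  exact ⟨j, hj.trans hk⟩

end Pool.Agent.R159.TB
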